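import Pool.Agent.SON.Defs

/-! Project SON (MP_66ba69_lc, the rigid step), module Runs (size 2): runs and representatives of runs.
-/

set_option autoImplicit false

namespace Pool.Agent.SON

open Pool.Agent.SOC Pool.Agent.SOD Pool.Agent.SOS Pool.Agent.SOV Pool.Agent.SOF Pool.Agent.SOT Pool.Agent.SOK Pool.Agent.SOY FP

variable {M M' : Mat} {S S' L L' R R' B W Y O : Ord} {G : SimpleGraph ℕ}

theorem runs_rep1_cons (M : Mat) (S : Ord) (a b : ℕ) (l : Ord) :
    rep1 M S (a :: b :: l) = (if rowB M S a ≠ rowB M S b then [a] else []) ++ rep1 M S (b :: l) := by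
  unfold rep1
  have e : ((a :: b :: l).zip (a :: b :: l).tail) = (a, b) :: ((b :: l).zip (b :: l).tail) := rfl
  rw [e, List.filter_cons]
  by_cases h : rowB M S a = rowB M S b
  · simp [h]
  · simp [h]

/-- PROOF. rep1 and SOK.dst have the same form: (A.map f).zip (A.map f).tail = (A.zip A.tail).map (Prod.map f f) (List.zip_map', List.map_tail), List.filter_map, List.map_map, List.getLast?_map. -/
theorem rep1_map (M : Mat) (S A : Ord) : (rep1 M S A).map (rowB M S) = dst (A.map (rowB M S)) := by
  induction A with
  | nil => rfl
  | cons a A ih =>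
    cases A with
    | nil => rfl
    | cons b A =>
      have e : (a :: b :: A).map (rowB M S) = rowB M S a :: rowB M S b :: A.map (rowB M S) := rfl
      rw [runs_rep1_cons, List.map_append, ih, e, dst_cons, List.map_cons]
      congr 1
      by_cases h : rowB M S a = rowB M S b
      · simp [h]
      · simp [h]

/-- PROOF. Induction on A; for a :: b :: A: rep1 M S (a :: b :: A) = (if rowB M S a ≠ rowB M S b then [a] else []) ++ rep1 M S (b :: A) (as SOK.dst_cons). -/
theorem rep1_sub (M : Mat) (S A : Ord) : (rep1 M S A).Sublist A := by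
  induction A with
  | nil => exact List.Sublist.refl _
  | cons a A ih =>
    cases A with
    | nil => exact List.Sublist.refl _
    | cons b A =>
      rw [runs_rep1_cons]
      by_cases h : rowB M S a = rowB M S b
      · simp only [h, ne_eq, not_true_eq_false, if_false, List.nil_append]
        exact ih.cons a
      · simp only [ne_eq, h, not_false_eq_true, if_true, List.singleton_append]
        exact ih.cons_cons a

theorem rep1_ne {A : Ord} (h : A ≠ []) : rep1 M S A ≠ [] := by
  intro e
  obtain ⟨a, A', rfl⟩ := List.exists_cons_of_ne_nil h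
  have h1 := rep1_map M S (a :: A')
  rw [e, List.map_nil, List.map_cons] at h1
  obtain ⟨l', hl'⟩ := dst_head (rowB M S a) (A'.map (rowB M S))
  rw [hl'] at h1
  exact absurd h1.symm (List.cons_ne_nil _ _)

theorem runs_row_iff (M : Mat) (S : Ord) (p q : ℕ) : rowB M S p = rowB M S q ↔ ∀ b ∈ S, adjB M p b = adjB M q b :=
  List.map_inj_left

/-- PROOF. rowB M S' p = rowB M S' q iff adjB M p b = adjB M q b for all b in S' (List.map_inj_left). -/
theorem rep1_perm (h : S'.Perm S) (A : Ord) : rep1 M S' A = rep1 M S A := by
  have key : ∀ p q, (rowB M S' p = rowB M S' q) ↔ (rowB M S p = rowB M S q) := by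
    intro p q
    rw [runs_row_iff, runs_row_iff]
    constructor
    · intro k b hb
      exact k b (h.mem_iff.2 hb)
    · intro k b hb
      exact k b (h.mem_iff.1 hb)
  unfold rep1
  have e : (fun p : ℕ × ℕ => decide (rowB M S' p.1 ≠ rowB M S' p.2)) = fun p : ℕ × ℕ => decide (rowB M S p.1 ≠ rowB M S p.2) := by
    funext p
    exact decide_eq_decide.2 (not_congr (key p.1 p.2))
  rw [e]

theorem runs_att_perm (h : S'.Perm S) : attB M S' = attB M S := by
  funext x
  unfold attB
  exact h.any_eq

theorem atp_perm (h : S'.Perm S) (X : Ord) : atp M S' X = atp M S X := by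
  unfold atp
  rw [runs_att_perm h]

theorem repP_perm (h : S'.Perm S) (Xs : List Ord) : repP M S' Xs = repP M S Xs := by
  unfold repP
  have e : atp M S' = atp M S := funext fun X => atp_perm h X
  rw [e]
  exact rep1_perm h _

theorem runs_dst_const {β : Type} [DecidableEq β] : ∀ (x : β) (R : List β) (l : List β), (∀ y ∈ R, y = x) →
    dst (x :: (R ++ l)) = dst (x :: l)
  | _, [], _, _ => rfl
  | x, y :: R, l, h => by
    have e : y = x := h y List.mem_cons_self
    subst e
    rw [List.cons_append, dst_cons]
    simp only [ne_eq, not_true_eq_false, if_false, List.nil_append]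
    exact runs_dst_const y R l fun z hz => h z (List.mem_cons_of_mem _ hz)

theorem runs_dst_cons_congr {β : Type} [DecidableEq β] (x : β) {l l' : List β} (h : dst l = dst l') :
    dst (x :: l) = dst (x :: l') := by
  cases l with
  | nil =>
    cases l' with
    | nil => rfl
    | cons b l' =>
      obtain ⟨t, ht⟩ := dst_head b l'
      rw [ht, dst_nil] at h
      exact absurd h.symm (List.cons_ne_nil _ _)
  | cons a l =>
    cases l' with
    | nil =>
      obtain ⟨t, ht⟩ := dst_head a l
      rw [ht, dst_nil] at h
      exact absurd h (List.cons_ne_nil _ _)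
    | cons b l' =>
      have e : a = b := by
        obtain ⟨t, ht⟩ := dst_head a l
        obtain ⟨t', ht'⟩ := dst_head b l'
        rw [ht, ht'] at h
        exact (List.cons.inj h).1
      subst e
      rw [dst_cons, dst_cons, h]

/-- PROOF. Induction on Rs with a stronger statement (for x :: the rest), SOK.dst_cons: a constant list can be replaced by its first element. -/
theorem dst_flat {β : Type} [DecidableEq β] {Rs : List (List β)} (h : ∀ R ∈ Rs, ∀ x ∈ R, ∀ y ∈ R, x = y) :
    dst Rs.flatten = dst (Rs.flatMap fun R => R.take 1) := by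
  induction Rs with
  | nil => rfl
  | cons R Rs ih =>
    have ih' := ih fun R' hR' => h R' (List.mem_cons_of_mem _ hR')
    rw [List.flatten_cons, List.flatMap_cons]
    cases R with
    | nil => exact ih'
    | cons x R =>
      have hc : ∀ y ∈ R, y = x := fun y hy =>
        h (x :: R) List.mem_cons_self y (List.mem_cons_of_mem _ hy) x List.mem_cons_self
      rw [List.cons_append, runs_dst_const x R _ hc]
      exact runs_dst_cons_congr x ih'

/-- PROOF. Induction on Forall₂: a list A with at most one element, which is a member of Q, is a sublist of Q; List.Sublist.append. -/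
theorem one_sub {α : Type} {As Qs : List (List α)} (h : List.Forall₂ (fun A Q => A.length ≤ 1 ∧ ∀ a ∈ A, a ∈ Q) As Qs) :
    As.flatten.Sublist Qs.flatten := by
  induction h with
  | nil => exact List.Sublist.refl _
  | @cons A Q As Qs h1 h2 ih =>
    rw [List.flatten_cons, List.flatten_cons]
    refine List.Sublist.append ?_ ih
    obtain ⟨k1, k2⟩ := h1
    match A, k1, k2 with
    | [], _, _ => exact List.nil_sublist _
    | [a], _, k2 => exact List.singleton_sublist.2 (k2 a List.mem_cons_self)
    | a :: b :: A, k1, _ => simp at k1

end Pool.Agent.SON
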