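import Pool.Agent.SON.Defs
import Pool.Agent.SON.Runs

/-! Project SON (MP_66ba69_lc, the rigid step), module SdL (size 3): representatives of blocks.
-/

set_option autoImplicit false

namespace Pool.Agent.SON

open Pool.Agent.SOC Pool.Agent.SOD Pool.Agent.SOS Pool.Agent.SOV Pool.Agent.SOF Pool.Agent.SOT Pool.Agent.SOK Pool.Agent.SOY FP

variable {M M' : Mat} {S L L' R B W : Ord} {G : SimpleGraph ℕ}

theorem sdl_idx {V : Type} [DecidableEq V] {L B : List V} (hn : L.Nodup) (hs : B.Sublist L) {i : ℕ} {b c : V}
    (hb : B[i]? = some b) (hc : B[i + 1]? = some c) : L.idxOf b < L.idxOf c := by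
  have h1 : L.Pairwise fun a b => L.idxOf a < L.idxOf b := by
    rw [List.pairwise_iff_getElem]
    intro i j hi hj hij
    rw [hn.idxOf_getElem, hn.idxOf_getElem]
    exact hij
  have h2 := h1.sublist hs
  rw [List.pairwise_iff_getElem] at h2
  obtain ⟨l1, e1⟩ := List.getElem?_eq_some_iff.1 hb
  obtain ⟨l2, e2⟩ := List.getElem?_eq_some_iff.1 hc
  have h3 := h2 i (i + 1) l1 l2 (by omega)
  rw [e1, e2] at h3
  exact h3

theorem sdl_mono {n : ℕ} {j : ℕ → ℕ} (h1 : ∀ i, i + 1 < n → j i < j (i + 1)) (h2 : ∀ i, i < n → j i < n) :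
    ∀ i, i < n → j i = i := by
  have a1 : ∀ i, i < n → i ≤ j i := by
    intro i
    induction i with
    | zero => intro _; exact Nat.zero_le _
    | succ i ih =>
      intro hi
      have := ih (by omega)
      have := h1 i hi
      omega
  have a2 : ∀ d i, i + d < n → j i + d ≤ j (i + d) := by
    intro d
    induction d with
    | zero => intro i _; exact le_refl _
    | succ d ih =>
      intro i hi
      have k1 := ih i (by omega)
      have k2 := h1 (i + d) (by omega)
      have e : i + (d + 1) = i + d + 1 := by omega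
      rw [e]
      omega
  intro i hi
  have k1 := a1 i hi
  have k2 := a2 (n - 1 - i) i (by omega)
  have k3 := h2 (i + (n - 1 - i)) (by omega)
  omega

/-- PROOF. All in terms of segs: every b ∈ B is in a segment (inS_ex). Let j i be the index of the segment of B[i]. B is a sublist of the concatenation, so j is monotone (positions: inS_lt of Seg.lean), consecutive members B[i], B[i + 1] have different rows (hr and h.mx), both are attached, so by h.same the segments are different: j is strictly increasing, with values < rp.length = B.length, so j i = i. -/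
theorem sd_of_sub {V : Type} [DecidableEq V] {G : SimpleGraph V} {O L B : List V} {segs : List (List V)} {rp : List V}
    (h : Sd G O segs rp) (e : segs.flatten = L) (hs : B.Sublist L) (ha : ∀ b ∈ B, Atd G O b) (hl : B.length = rp.length)
    (hr : ∀ (i : ℕ) (b c : V), B[i]? = some b → rp[i]? = some c → SR G O b c) : Sd G O segs B := by
  classical
  have hmx : ∀ {i : ℕ} {b c : V}, B[i]? = some b → B[i + 1]? = some c → ¬ SR G O b c := by
    intro i b c hb hc hbc
    obtain ⟨l1, _⟩ := List.getElem?_eq_some_iff.1 hb
    obtain ⟨l2, _⟩ := List.getElem?_eq_some_iff.1 hc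
    rw [hl] at l1 l2
    have g1 := hr i b _ hb (List.getElem?_eq_getElem l1)
    have g2 := hr (i + 1) c _ hc (List.getElem?_eq_getElem l2)
    exact h.mx (List.getElem?_eq_getElem l1) (List.getElem?_eq_getElem l2) (g1.symm.trans (hbc.trans g2))
  have hex : ∀ i : ℕ, ∃ k : ℕ, ∀ b : V, B[i]? = some b → InS segs k b := by
    intro i
    cases hb : B[i]? with
    | none => exact ⟨0, fun b hb' => by simp at hb'⟩
    | some b =>
      have hbL : b ∈ segs.flatten := by
        rw [e]
        exact hs.subset (List.mem_of_getElem? hb)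
      obtain ⟨k, hk⟩ := inS_ex hbL
      refine ⟨k, fun c hc => ?_⟩
      rw [← Option.some.inj hc]
      exact hk
  choose j hj using hex
  have key : ∀ i, i < B.length → j i = i := by
    refine sdl_mono ?_ ?_
    · intro i hi
      have e1 : B[i]? = some B[i] := List.getElem?_eq_getElem (by omega)
      have e2 : B[i + 1]? = some B[i + 1] := List.getElem?_eq_getElem hi
      have g1 := hj i _ e1
      have g2 := hj (i + 1) _ e2
      have hn : L.Nodup := by rw [← e]; exact h.nd
      have g3 := sdl_idx hn hs e1 e2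
      rcases lt_trichotomy (j i) (j (i + 1)) with g | g | g
      · exact g
      · rw [← g] at g2
        exact absurd (h.same g1 g2 (ha _ (List.getElem_mem _)) (ha _ (List.getElem_mem _))) (hmx e1 e2)
      · have g4 := inS_lt h.nd g2 g1 g
        rw [e] at g4
        omega
    · intro i hi
      have e1 : B[i]? = some B[i] := List.getElem?_eq_getElem hi
      have g1 := inS_len (hj i _ e1)
      rw [← h.len, ← hl] at g1
      exact g1
  refine ⟨h.nd, h.same, hl.trans h.len, ?_, hmx⟩
  intro i b hb
  obtain ⟨l1, _⟩ := List.getElem?_eq_some_iff.1 hb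
  have g1 := hj i b hb
  rw [key i l1] at g1
  exact ⟨g1, ha b (List.mem_of_getElem? hb)⟩

theorem sdl_att {M : Mat} {S : Ord} {x : ℕ} : attB M S x = true ↔ Atd (gN M) S x := by
  unfold attB Atd
  rw [List.any_eq_true]
  exact Iff.rfl

theorem sdl_row {M : Mat} {S : Ord} {x y : ℕ} : rowB M S x = rowB M S y ↔ SR (gN M) S x y := by
  rw [runs_row_iff]
  unfold SR
  refine forall₂_congr fun b _ => ?_
  rw [Bool.eq_iff_iff]
  exact Iff.rfl

/-- PROOF. SOK.sd_word with ad := adjB M, L := R, O := S, B := S (RpB.refl), wordF (adjB M) = wordB M; its rp has rp.map (rowB M S) = wordB M S R = B.map (rowB M S); rows equal means SR (gN M) S. sd_of_sub. -/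
theorem rpl_word (hn : R.Nodup) (hs : B.Sublist R) (ha : ∀ b ∈ B, attB M S b = true) (hw : B.map (rowB M S) = wordB M S R)
    (he : B ≠ []) : RpL (gN M) S R B := by
  obtain ⟨b0, hb0⟩ := List.exists_mem_of_ne_nil B he
  have hex : ∃ x ∈ R, Atd (gN M) S x := ⟨b0, hs.subset hb0, sdl_att.1 (ha b0 hb0)⟩
  obtain ⟨segs, rp, h1, h2, _, h4, _⟩ := sd_word (ad := adjB M) (G := gN M) (fun x y => Iff.rfl)
    (RpB.refl (G := gN M) (L := R) (O := S)) hn hex
  have h5 : rp.map (rowB M S) = B.map (rowB M S) := by
    rw [hw]
    exact h4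
  have hl : B.length = rp.length := by
    have := congrArg List.length h5
    rw [List.length_map, List.length_map] at this
    exact this.symm
  refine ⟨segs, h1, sd_of_sub h2 h1 hs (fun b hb => sdl_att.1 (ha b hb)) hl ?_⟩
  intro i b c hb hc
  have g := congrArg (fun l => l[i]?) h5
  simp only [List.getElem?_map, hb, hc, Option.map_some] at g
  exact (sdl_row.1 (Option.some.inj g)).symm

/-- PROOF. rep1_map, rep1_sub for A := R.filter (attB M S). -/
theorem rpl_rep1 (hn : R.Nodup) (he : ∃ x ∈ R, attB M S x = true) : RpL (gN M) S R (rep1 M S (R.filter (attB M S))) := by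
  have hsub := rep1_sub M S (R.filter (attB M S))
  refine rpl_word hn (hsub.trans List.filter_sublist) ?_ (rep1_map M S _) ?_
  · intro b hb
    exact (List.mem_filter.1 (hsub.subset hb)).2
  · refine rep1_ne ?_
    obtain ⟨x, hx, hax⟩ := he
    exact List.ne_nil_of_mem (List.mem_filter.2 ⟨hx, hax⟩)

theorem sdl_sub {V : Type} : ∀ {segs : List (List V)} {B : List V}, B.length = segs.length →
    (∀ (i : ℕ) (b : V), B[i]? = some b → InS segs i b) → B.Sublist segs.flatten
  | [], B, hl, _ => by
    have : B = [] := List.length_eq_zero_iff.1 hl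
    rw [this]
    exact List.nil_sublist _
  | seg :: segs, [], _, _ => List.nil_sublist _
  | seg :: segs, b :: B, hl, h => by
    rw [List.flatten_cons]
    refine List.Sublist.append (l₁ := [b]) (List.singleton_sublist.2 ?_) (sdl_sub ?_ ?_)
    · exact inS_zero.1 (h 0 b rfl)
    · simpa using hl
    · intro i c hc
      exact inS_succ.1 (h (i + 1) c (by rw [List.getElem?_cons_succ]; exact hc))

/-- PROOF. Every representative is in its segment: induction on segs (or the positions). -/
theorem rpl_sub (h : RpL G L R B) : B.Sublist R := by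
  obtain ⟨sR, e, hS⟩ := h
  rw [← e]
  exact sdl_sub hS.len fun i b hb => (hS.rep hb).1

theorem rpl_att (h : RpL G L R B) : ∀ b ∈ B, b ∈ R ∧ Atd G L b := by
  obtain ⟨sR, e, hS⟩ := h
  intro b hb
  obtain ⟨i, hi⟩ := List.mem_iff_getElem?.1 hb
  obtain ⟨h1, h2⟩ := hS.rep hi
  refine ⟨?_, h2⟩
  rw [← e]
  exact inS_mem h1

theorem rpl_perm (h : RpL G L R B) (hp : L'.Perm L) : RpL G L' R B := by
  obtain ⟨sR, e, hS⟩ := h
  exact ⟨sR, e, hS.mem fun x => hp.mem_iff⟩

/-- PROOF. sL := the segments, rL := W. W.Nodup: rpl_sub and the field nd. -/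
theorem rpl_wr (h : RpL G R L W) : WrL G R L W := by
  have hsub := rpl_sub h
  obtain ⟨sL, e, hS⟩ := h
  have hn : L.Nodup := by rw [← e]; exact hS.nd
  refine ⟨sL, W, e, hS, rfl, hn.sublist hsub, fun w hw => hsub.subset hw, ?_⟩
  intro i w x hw hx
  rw [hw] at hx
  rw [← Option.some.inj hx]
  exact fun z _ => Iff.rfl

theorem sdl_rev_inS {V : Type} {segs : List (List V)} {i : ℕ} {x : V} (h : InS (segs.map List.reverse).reverse i x) :
    i < segs.length ∧ InS segs (segs.length - 1 - i) x := by
  have hi := inS_len h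
  rw [List.length_reverse, List.length_map] at hi
  refine ⟨hi, ?_⟩
  obtain ⟨seg, h1, h2⟩ := h
  rw [List.getElem?_reverse (by rw [List.length_map]; exact hi), List.length_map, List.getElem?_map] at h1
  cases h3 : segs[segs.length - 1 - i]? with
  | none => rw [h3] at h1; simp at h1
  | some s =>
    rw [h3, Option.map_some] at h1
    refine ⟨s, h3, ?_⟩
    rw [← Option.some.inj h1] at h2
    exact List.mem_reverse.1 h2

theorem sdl_inS_rev {V : Type} {segs : List (List V)} {i : ℕ} {x : V} (hi : i < segs.length)
    (h : InS segs (segs.length - 1 - i) x) : InS (segs.map List.reverse).reverse i x := by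
  obtain ⟨s, h1, h2⟩ := h
  refine ⟨s.reverse, ?_, List.mem_reverse.2 h2⟩
  rw [List.getElem?_reverse (by rw [List.length_map]; exact hi), List.length_map, List.getElem?_map, h1, Option.map_some]

/-- PROOF. The segments (segs.map List.reverse).reverse, the representatives B.reverse; List.reverse_flatten; indices i and length - 1 - i. -/
theorem rpl_rev (h : RpL G L R B) : RpL G L R.reverse B.reverse := by
  obtain ⟨segs, e, hS⟩ := h
  have e' : (segs.map List.reverse).reverse.flatten = R.reverse := by
    rw [← e, List.reverse_flatten]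
  have hl := hS.len
  refine ⟨(segs.map List.reverse).reverse, e', ?_, ?_, ?_, ?_, ?_⟩
  · rw [e', List.nodup_reverse, ← e]
    exact hS.nd
  · intro i x y hx hy ax ay
    exact hS.same (sdl_rev_inS hx).2 (sdl_rev_inS hy).2 ax ay
  · rw [List.length_reverse, List.length_reverse, List.length_map, hl]
  · intro i b hb
    obtain ⟨l1, _⟩ := List.getElem?_eq_some_iff.1 hb
    rw [List.length_reverse] at l1
    rw [List.getElem?_reverse l1] at hb
    obtain ⟨g1, g2⟩ := hS.rep hb
    rw [hl] at g1 l1
    exact ⟨sdl_inS_rev l1 g1, g2⟩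
  · intro i b c hb hc hbc
    obtain ⟨l1, _⟩ := List.getElem?_eq_some_iff.1 hb
    obtain ⟨l2, _⟩ := List.getElem?_eq_some_iff.1 hc
    rw [List.length_reverse] at l1 l2
    rw [List.getElem?_reverse l1] at hb
    rw [List.getElem?_reverse l2] at hc
    have e1 : B.length - 1 - i = B.length - 1 - (i + 1) + 1 := by omega
    rw [e1] at hb
    exact hS.mx hc hb hbc.symm

theorem sdl_dst_chain {β : Type} [DecidableEq β] : ∀ {l : List β}, l.IsChain (· ≠ ·) → dst l = l
  | [], _ => rfl
  | [_], _ => rfl
  | a :: b :: l, h => by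
    rw [List.isChain_cons_cons] at h
    rw [dst_cons, if_pos h.1, sdl_dst_chain h.2]
    rfl

theorem sdl_take {P : ℕ → Bool} {f : ℕ → List Bool} : ∀ {segs : List Ord} {W : Ord}, W.length = segs.length →
    (∀ (i : ℕ) (w : ℕ), W[i]? = some w → InS segs i w ∧ P w = true) →
    (∀ (i : ℕ) (w x : ℕ), W[i]? = some w → InS segs i x → P x = true → f x = f w) →
    ((segs.map fun s => (s.filter P).map f).flatMap fun s => s.take 1) = W.map f
  | [], W, hl, _, _ => by
    have : W = [] := List.length_eq_zero_iff.1 hl
    rw [this]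
    rfl
  | seg :: segs, [], hl, _, _ => by simp at hl
  | seg :: segs, w :: W, hl, h1, h2 => by
    rw [List.map_cons, List.flatMap_cons, List.map_cons, sdl_take (W := W) (segs := segs)]
    · obtain ⟨g1, g2⟩ := h1 0 w rfl
      rw [inS_zero] at g1
      have hne : seg.filter P ≠ [] := List.ne_nil_of_mem (List.mem_filter.2 ⟨g1, g2⟩)
      obtain ⟨x, t, ht⟩ := List.exists_cons_of_ne_nil hne
      have hx : x ∈ seg.filter P := by rw [ht]; exact List.mem_cons_self
      have hx' := List.mem_filter.1 hx
      rw [ht]
      have := h2 0 w x rfl (inS_zero.2 hx'.1) hx'.2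
      simp [this]
    · simpa using hl
    · intro i c hc
      obtain ⟨g1, g2⟩ := h1 (i + 1) c (by rw [List.getElem?_cons_succ]; exact hc)
      exact ⟨inS_succ.1 g1, g2⟩
    · intro i c x hc hx hPx
      exact h2 (i + 1) c x (by rw [List.getElem?_cons_succ]; exact hc) (inS_succ.2 hx) hPx

/-- the word in terms of representatives. PROOF. SOK.sd_word for L (side L, other side R, representatives B of the rows: rpB_of_sd): its rp has rp.map (rowB M B) = wordB M B L. If W are other representatives of the blocks of L: the number and the rows are the same (the blocks are the maximal runs of equal rows):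
more precisely: W.map (rowB M B) = dst of itself (Sd.mx and RpB.row) and it is the destuttered list of the rows of the attached members (all attached members of a segment have the row of the representative: Sd.same). Use dst_flat of the module Runs if you like (import it). -/
theorem rpl_map (hR : RpL (gN M) L R B) (hL : RpL (gN M) R L W) : W.map (rowB M B) = wordB M B L := by
  obtain ⟨sR, eR, hSR⟩ := hR
  obtain ⟨sL, eL, hSL⟩ := hL
  have hB : RpB (gN M) L R B := rpB_of_sd hSR eR
  have hatt : ∀ x ∈ L, (attB M B x = true ↔ Atd (gN M) R x) := by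
    intro x hx
    constructor
    · intro h
      obtain ⟨b, hb, hxb⟩ := sdl_att.1 h
      exact ⟨b, hB.sub b hb, hxb⟩
    · intro h
      exact sdl_att.2 (hB.att x hx h)
  have inL : ∀ {i x}, InS sL i x → x ∈ L := fun h => by rw [← eL]; exact inS_mem h
  have hrow : ∀ {x y}, SR (gN M) R x y → rowB M B x = rowB M B y := by
    intro x y h
    exact sdl_row.2 fun b hb => h b (hB.sub b hb)
  -- the word
  have h1 : wordB M B L = dst (W.map (rowB M B)) := by
    unfold wordB
    rw [← eL, List.filter_flatten, List.map_flatten, List.map_map]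
    have e1 : (List.map (rowB M B) ∘ List.filter (attB M B)) = fun s => (s.filter (attB M B)).map (rowB M B) := rfl
    rw [e1, dst_flat]
    · rw [sdl_take (W := W) (segs := sL) hSL.len]
      · intro i w hw
        obtain ⟨g1, g2⟩ := hSL.rep hw
        exact ⟨g1, (hatt w (inL g1)).2 g2⟩
      · intro i w x hw hx hPx
        obtain ⟨g1, g2⟩ := hSL.rep hw
        exact hrow (hSL.same hx g1 ((hatt x (inL hx)).1 hPx) g2)
    · intro T hT x hx y hy
      obtain ⟨s, hs, rfl⟩ := List.mem_map.1 hT
      obtain ⟨x', hx', rfl⟩ := List.mem_map.1 hx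
      obtain ⟨y', hy', rfl⟩ := List.mem_map.1 hy
      rw [List.mem_filter] at hx' hy'
      obtain ⟨i, hi⟩ := List.mem_iff_getElem?.1 hs
      have ix : InS sL i x' := ⟨s, hi, hx'.1⟩
      have iy : InS sL i y' := ⟨s, hi, hy'.1⟩
      exact hrow (hSL.same ix iy ((hatt x' (inL ix)).1 hx'.2) ((hatt y' (inL iy)).1 hy'.2))
  rw [h1, sdl_dst_chain]
  rw [List.isChain_iff_getElem]
  intro i hi
  rw [List.length_map] at hi
  rw [List.getElem_map, List.getElem_map]
  intro h
  have e1 : W[i]? = some W[i] := List.getElem?_eq_getElem (by omega)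
  have e2 : W[i + 1]? = some W[i + 1] := List.getElem?_eq_getElem hi
  have g1 := hSL.rep e1
  have g2 := hSL.rep e2
  exact hSL.mx e1 e2 (hB.row _ (inL g1.1) _ (inL g2.1) (sdl_row.1 h))

/-- words with equal rows. PROOF. W' := the list rep1 M B (L'.filter (attB M B)) are representatives for L' with W'.map (rowB M B) = wordB M B L'; equal rows on B give SR (gN M) R (rpB_of_sd, RpB.row). W.Nodup from hn. The lengths from hw. -/
theorem wr_of_word (hR : RpL (gN M) L R B) (hp : L'.Perm L) (hl' : L'.Nodup) (hn : W.Nodup) (hW : ∀ w ∈ W, w ∈ L) (hne : W ≠ [])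
    (hw : W.map (rowB M B) = wordB M B L') : WrL (gN M) R L' W := by
  obtain ⟨sR, eR, hSR⟩ := hR
  have hB : RpB (gN M) L R B := rpB_of_sd hSR eR
  have hB' : RpB (gN M) L' R B := hB.mem fun x => hp.mem_iff
  have hex : ∃ x ∈ L', Atd (gN M) R x := by
    by_contra hc
    push Not at hc
    have h1 : L'.filter (attB M B) = [] := by
      rw [List.filter_eq_nil_iff]
      intro x hx hax
      obtain ⟨b, hb, hxb⟩ := sdl_att.1 hax
      exact hc x hx ⟨b, hB.sub b hb, hxb⟩
    have h2 : wordB M B L' = [] := by
      unfold wordB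
      rw [h1]
      rfl
    rw [h2] at hw
    exact hne (List.map_eq_nil_iff.1 hw)
  obtain ⟨segs, rp, h1, h2, h3, h4, _⟩ := sd_word (ad := adjB M) (G := gN M) (fun x y => Iff.rfl) hB' hl' hex
  have h5 : rp.map (rowB M B) = W.map (rowB M B) := by
    rw [hw]
    exact h4
  have hl : W.length = rp.length := by
    have := congrArg List.length h5
    rw [List.length_map, List.length_map] at this
    exact this.symm
  refine ⟨segs, rp, h1, h2, hl, hn, fun w hw' => hp.mem_iff.2 (hW w hw'), ?_⟩
  intro i w x hw' hx
  have g := congrArg (fun l => l[i]?) h5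
  simp only [List.getElem?_map, hw', hx, Option.map_some] at g
  have k1 : x ∈ L' := h3.subset (List.mem_of_getElem? hx)
  have k2 : w ∈ L' := hp.mem_iff.2 (hW w (List.mem_of_getElem? hw'))
  exact hB'.row w k2 x k1 (sdl_row.1 (Option.some.inj g).symm)

end Pool.Agent.SON
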