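import Pool.Agent.SON.StM
import Pool.Agent.SOK.Ty

/-! Project SON (MP_66ba69_lc, the rigid step), module Ty2 (size 3): the type of an E-P-cut of a prime graph without K6 - P4.
-/

set_option autoImplicit false

namespace Pool.Agent.SON

open Pool.Agent.SOC Pool.Agent.SOD Pool.Agent.SOS Pool.Agent.SOP Pool.Agent.SOE Pool.Agent.SOV Pool.Agent.SOF Pool.Agent.SOT Pool.Agent.SOK Pool.Agent.SOZ

variable {M : Mat}

section
variable {V : Type} {G : SimpleGraph V} {S : V → Prop}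

/-- no chain of three rows -/
theorem Ty2_no3 (he : EP G S) (hk : NoK6P4 G) {a b c : V} (ha : S a) (hb : S b) (hc : S c) (Aa : At G S a)
    (ba : Str G S b a) (cb : Str G S c b) : False := by
  obtain ⟨y1, h1, a1⟩ := Aa
  obtain ⟨sab, y2, h2, b2, na2⟩ := ba
  obtain ⟨sbc, y3, h3, c3, nb3⟩ := cb
  have b1 := sab y1 h1 a1
  have c1 := sbc y1 h1 b1
  have c2 := sbc y2 h2 b2
  have na3 : ¬ G.Adj a y3 := fun k => nb3 (sab y3 h3 k)
  have eba := he.adj hb ha h2 b2 na2 ⟨y1, h1, a1⟩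
  have eca := he.adj hc ha h3 c3 na3 ⟨y1, h1, a1⟩
  have ecb := he.adj hc hb h3 c3 nb3 ⟨y1, h1, b1⟩
  have e12 := he.adj' h1 h2 ha a1.symm (fun k => na2 k.symm) ⟨b, hb, b2.symm⟩
  have e13 := he.adj' h1 h3 ha a1.symm (fun k => na3 k.symm) ⟨c, hc, c3.symm⟩
  have e23 := he.adj' h2 h3 hb b2.symm (fun k => nb3 k.symm) ⟨c, hc, c3.symm⟩
  exact hk a b y2 y3 c y1 ⟨eba.symm, b2, e23, na2, na3, nb3, c1, eca, ecb, c2, c3, a1.symm, b1.symm, e12, e13⟩

open Classical in
/-- the classes of a chain of two rows -/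
theorem Ty2_chn (he : EP G S) (hk : NoK6P4 G) (hch : Chn G S) {a1 b1 z1 : V} (ha : S a1) (hb : S b1) (hz : ¬ S z1)
    (Ab : At G S b1) (az : G.Adj a1 z1) (nbz : ¬ G.Adj b1 z1) :
    ∃ cl : V → Bool, (∀ {a b}, S a → ¬ S b → At G S a → (∃ z, S z ∧ G.Adj b z) → (G.Adj a b ↔ fP (cl a) (cl b))) ∧
      (∀ i, ∃ a, S a ∧ At G S a ∧ cl a = i) ∧ (∀ i, ∃ a, ¬ S a ∧ (∃ z, S z ∧ G.Adj a z) ∧ cl a = i) := by
  have Aa : At G S a1 := ⟨z1, hz, az⟩
  have sba : Sub G S b1 a1 := by
    rcases hch a1 b1 ha hb Aa Ab with h | h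
    · exact absurd (h z1 hz az) nbz
    · exact h
  have sab : Str G S a1 b1 := ⟨sba, z1, hz, az, nbz⟩
  have str : ∀ {x y : V}, S x → S y → At G S x → At G S y → ¬ Sub G S x y → Str G S x y := by
    intro x y hx hy Ax Ay hn
    refine ⟨(hch x y hx hy Ax Ay).resolve_left hn, ?_⟩
    unfold Pool.Agent.SOK.Sub at hn
    push Not at hn
    exact hn
  have two : ∀ x, S x → At G S x → (Sub G S x a1 ∧ Sub G S a1 x) ∨ (Sub G S x b1 ∧ Sub G S b1 x) := by
    intro x hx Ax
    by_cases h1 : Sub G S x b1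
    · by_cases h2 : Sub G S b1 x
      · exact Or.inr ⟨h1, h2⟩
      · exact (Ty2_no3 he hk hx hb ha Ax (str hb hx Ab Ax h2) sab).elim
    · have h3 := str hx hb Ax Ab h1
      by_cases h4 : Sub G S x a1
      · by_cases h5 : Sub G S a1 x
        · exact Or.inl ⟨h4, h5⟩
        · exact (Ty2_no3 he hk hb hx ha Ab h3 (str ha hx Aa Ax h5)).elim
      · exact (Ty2_no3 he hk hb ha hx Ab sab (str hx ha Ax Aa h4)).elim
  have top : ∀ b, ¬ S b → (∃ z, S z ∧ G.Adj b z) → G.Adj a1 b := by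
    rintro b hb' ⟨z, hz', e⟩
    rcases two z hz' ⟨b, hb', e.symm⟩ with h | h
    · exact h.1 b hb' e.symm
    · exact sba b hb' (h.1 b hb' e.symm)
  refine ⟨fun v => if S v then decide (Sub G S a1 v) else decide (G.Adj b1 v), ?_, ?_, ?_⟩
  · intro a b hsa hsb Aa' Ab'
    simp only [fP, if_pos hsa, if_neg hsb, decide_eq_true_eq]
    constructor
    · intro e
      rcases two a hsa Aa' with h | h
      · exact Or.inl h.2
      · exact Or.inr (h.1 b hsb e)
    · rintro (h | h)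
      · exact h b hsb (top b hsb Ab')
      · rcases two a hsa Aa' with h' | h'
        · exact h'.2 b hsb (sba b hsb h)
        · exact h'.2 b hsb h
  · intro i
    cases i
    · refine ⟨b1, hb, Ab, ?_⟩
      simp only [if_pos hb]
      exact decide_eq_false fun h => nbz (h z1 hz az)
    · refine ⟨a1, ha, Aa, ?_⟩
      simp only [if_pos ha]
      exact decide_eq_true fun z _ h => h
  · intro i
    cases i
    · refine ⟨z1, hz, ⟨a1, ha, az.symm⟩, ?_⟩
      simp only [if_neg hz]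
      exact decide_eq_false nbz
    · obtain ⟨y, hy, e⟩ := Ab
      refine ⟨y, hy, ⟨b1, hb, e.symm⟩, ?_⟩
      simp only [if_neg hy]
      exact decide_eq_true e

/-- two attached vertices with different rows -/
theorem Ty2_dif (hG : PrimeG G) {A : Set V} {a₀ b₀ : V} (h0 : a₀ ∈ A) (h0' : b₀ ∉ A) (e : G.Adj a₀ b₀)
    (h1 : ∃ a ∈ A, a ≠ a₀) (h2 : ∃ b, b ∉ A ∧ b ≠ b₀) :
    ∃ a b z, a ∈ A ∧ b ∈ A ∧ z ∉ A ∧ (∃ w, w ∉ A ∧ G.Adj b w) ∧ G.Adj a z ∧ ¬ G.Adj b z := by
  by_contra hn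
  push Not at hn
  have key : ∀ a b z, a ∈ A → b ∈ A → z ∉ A → ∀ w, w ∉ A → G.Adj b w → G.Adj a z → G.Adj b z :=
    fun a b z ha hb hz w hw e1 e2 => hn a b z ha hb hz ⟨w, hw, e1⟩ e2
  have hs : IsSpl G A a₀ b₀ := by
    refine ⟨h0, h0', e, ?_⟩
    intro a b ha hb
    constructor
    · intro h
      exact ⟨key a₀ a b₀ h0 ha h0' b hb h e, key a a₀ b ha h0 hb b₀ h0' e h⟩
    · rintro ⟨h, h'⟩
      exact key a₀ a b h0 ha hb b₀ h0' h h'
  rcases hG.2 _ _ _ hs with h | h
  · obtain ⟨a, ha, hne⟩ := h1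
    rw [h] at ha
    exact hne ha
  · obtain ⟨b, hb, hne⟩ := h2
    have : b ∈ Aᶜ := hb
    rw [h] at this
    exact hne this

end

theorem Ty2_edge {P Y : Ord} (hc : (graphOf M).Connected) (h : P ≠ []) (h' : Y ≠ []) (hV : VO M (P ++ Y)) :
    ∃ a b : Fin M.length, a.val ∈ P ∧ b.val ∈ Y ∧ (graphOf M).Adj a b := by
  have hp := vo_perm hV
  have hn : (P ++ Y).Nodup := hp.nodup_iff.2 List.nodup_range
  have hlt : ∀ x ∈ P ++ Y, x < M.length := fun x hx => List.mem_range.1 (hp.subset hx)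
  obtain ⟨a, ha⟩ := List.exists_mem_of_ne_nil P h
  obtain ⟨b, hb⟩ := List.exists_mem_of_ne_nil Y h'
  have hb' : b ∉ P := fun hh => (List.nodup_append.1 hn).2.2 b hh b hb rfl
  obtain ⟨w⟩ := hc.preconnected ⟨a, hlt a (List.mem_append_left _ ha)⟩ ⟨b, hlt b (List.mem_append_right _ hb)⟩
  obtain ⟨d, -, h1, h2⟩ := w.exists_boundary_dart {u | u.val ∈ P} ha hb'
  refine ⟨d.fst, d.snd, h1, ?_, d.adj⟩
  have h3 : d.snd.val ∈ P ++ Y := hp.mem_iff.2 (List.mem_range.2 d.snd.2)
  exact (List.mem_append.1 h3).resolve_left h2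

/-- from classes on `Fin M.length` to classes on numbers -/
theorem Ty2_cls {α : Type} [Inhabited α] {f : α → α → Prop} {P Y : Ord} (hlt : ∀ x ∈ P ++ Y, x < M.length)
    (hS : ∀ v : Fin M.length, ¬ v.val ∈ P ↔ v.val ∈ Y) {cl : Fin M.length → α}
    (hadj : ∀ {a b : Fin M.length}, a.val ∈ P → ¬ b.val ∈ P → At (graphOf M) (fun v => v.val ∈ P) a →
      (∃ z : Fin M.length, z.val ∈ P ∧ (graphOf M).Adj b z) → ((graphOf M).Adj a b ↔ f (cl a) (cl b)))
    (hw : ∀ i, ∃ a : Fin M.length, a.val ∈ P ∧ At (graphOf M) (fun v => v.val ∈ P) a ∧ cl a = i)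
    (hw' : ∀ i, ∃ a : Fin M.length, ¬ a.val ∈ P ∧ (∃ z : Fin M.length, z.val ∈ P ∧ (graphOf M).Adj a z) ∧ cl a = i) :
    ∃ cl : ℕ → α, ClsL f (gN M) P Y cl := by
  have ltP : ∀ {x}, x ∈ P → x < M.length := fun h => hlt _ (List.mem_append_left _ h)
  have ltY : ∀ {x}, x ∈ Y → x < M.length := fun h => hlt _ (List.mem_append_right _ h)
  refine ⟨fun n => if h : n < M.length then cl ⟨n, h⟩ else default, ?_, ?_, ?_⟩
  · intro a b ha hb hA hB
    simp only [dif_pos (ltP ha), dif_pos (ltY hb)]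
    refine hadj (a := ⟨a, ltP ha⟩) (b := ⟨b, ltY hb⟩) ha ((hS _).2 hb) ?_ ?_
    · obtain ⟨z, hz, e⟩ := hA
      exact ⟨⟨z, ltY hz⟩, (hS ⟨z, ltY hz⟩).2 hz, e⟩
    · obtain ⟨z, hz, e⟩ := hB
      exact ⟨⟨z, ltP hz⟩, hz, e⟩
  · intro i
    obtain ⟨a, ha, ⟨z, hz, e⟩, hi⟩ := hw i
    refine ⟨a.val, ha, ⟨z.val, (hS z).1 hz, e⟩, ?_⟩
    simp only [dif_pos a.2]
    exact hi
  · intro i
    obtain ⟨a, ha, ⟨z, hz, e⟩, hi⟩ := hw' i
    refine ⟨a.val, (hS a).1 ha, ⟨z.val, hz, e⟩, ?_⟩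
    simp only [dif_pos a.2]
    exact hi

/-- PROOF. V := Fin M.length, S := (fun v => v.val ∈ P) (= membership in setW M P). From hV: s : List (Fin M.length) with s.map val = P ++ Y, IsEnum s, QT (graphOf M) (Cross s) T. QC (SOK.TyDefs): sepr: crD_sepr (X := CrD s), qt: SOK.qt_crD, int: the members of P are before the members of Y in s (idxOf < P.length). SOK.types (EP.of_epc hE): three cases.
The adjacency of gN M for numbers < M.length is the adjacency of graphOf M (both are adjB, Iff.rfl), Atd (gN M) Y x ↔ At (graphOf M) S x for x ∈ P (members of P, Y are < M.length, P ++ Y contains every vertex). EpL: rig from EP.rig, w4 from hE.w4 (as in EP.of_epc).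
TwoK: class function cl := decide (B ..) on Fin, extended to ℕ (cl n := if h : n < M.length then .. else ..): fK. KP: fE (the formula is the same).
Chn: the rows of the attached members of P form a chain. (i) There are two members with different rows: otherwise all attached members of P have the same row; the graph is connected (con_of_vo: there is an edge a0 b0 between P and Y); then P is one side of a split IsSpl with both sides of size at least 2: contradiction to PrimeG (look at SOS/Defs.lean IsSpl, and at how SOE or SOK use it). (ii) There are no three different rows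
r(a) < r(b) < r(c): take y1 ∈ r(a), y2 ∈ r(b) not in r(a), y3 ∈ r(c) not in r(b): a, b, c are pairwise adjacent (EP.adj), y1, y2, y3 also (EP.adj'), and the missing edges are y2 a, a y3, y3 b: the induced graph is K6P4 with path c y1 .. : find the assignment: the complement of the missing path y2 - a - y3 - b is the path a - b - y2 - y3 (P4), c and y1 are adjacent to everything. (iii) So two rows r1 < r2 on P. cl x := for x ∈ P: the row is r2;
for y ∈ Y attached: y ∈ r1 (i.e. y is adjacent to a fixed member with row r1). fP: big a is adjacent to all attached y; small a is adjacent to y iff y ∈ r1. Witnesses: clear. -/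
theorem st_of_vo {P Y : Ord} (hG : PrimeG (graphOf M)) (hk : NoK6P4 (graphOf M)) (hE : EPC (graphOf M) (setW M P)) (h2 : 2 ≤ P.length)
    (h2' : 2 ≤ Y.length) (hV : VO M (P ++ Y)) : StL (gN M) P Y := by
  have hp := vo_perm hV
  have hn : (P ++ Y).Nodup := hp.nodup_iff.2 List.nodup_range
  have hlt : ∀ x ∈ P ++ Y, x < M.length := fun x hx => List.mem_range.1 (hp.subset hx)
  have ltP : ∀ {x}, x ∈ P → x < M.length := fun h => hlt _ (List.mem_append_left _ h)
  have ltY : ∀ {x}, x ∈ Y → x < M.length := fun h => hlt _ (List.mem_append_right _ h)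
  have hdj : ∀ {x}, x ∈ P → x ∈ Y → False := fun h h' => (List.nodup_append.1 hn).2.2 _ h _ h' rfl
  have hS : ∀ v : Fin M.length, ¬ v.val ∈ P ↔ v.val ∈ Y := by
    intro v
    have h3 : v.val ∈ P ++ Y := hp.mem_iff.2 (List.mem_range.2 v.2)
    exact ⟨fun h => (List.mem_append.1 h3).resolve_left h, fun h h' => hdj h' h⟩
  have he : EP (graphOf M) (fun v => v.val ∈ P) := EP.of_epc hE
  obtain ⟨s, hs, hE', T, hT⟩ := id hV
  have idx : ∀ v : Fin M.length, (P ++ Y).idxOf v.val = s.idxOf v := by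
    intro v
    rw [← hs]
    exact idxOf_map_of (fun _ _ _ _ h => Fin.ext h) (hE'.2 v)
  have lo : ∀ v : Fin M.length, v.val ∈ P → s.idxOf v < P.length := by
    intro v hv
    rw [← idx, idxL hv]
    exact List.idxOf_lt_length_iff.2 hv
  have hi : ∀ v : Fin M.length, ¬ v.val ∈ P → P.length ≤ s.idxOf v := by
    intro v hv
    rw [← idx, idxR hn ((hS v).1 hv)]
    omega
  have hq : QC (graphOf M) (Pool.Agent.RUP.CrD s) T (fun v => v.val ∈ P) := by
    refine ⟨Pool.Agent.RUP.crD_sepr hE', qt_crD hT, ?_⟩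
    intro a b c d ha hb hc hd hx
    have h1 := lo a ha
    have h2 := lo b hb
    have h3 := hi c hc
    have h4 := hi d hd
    have h5 := hx.2
    unfold Cross SOC.Btw at h5
    omega
  refine ⟨⟨hn, ?_, ?_⟩, ?_⟩
  · intro a b c d ha hb hc hd e e' n n'
    exact he.rig (a := ⟨a, ltP ha⟩) (b := ⟨b, ltY hb⟩) (c := ⟨c, ltP hc⟩) (d := ⟨d, ltY hd⟩) ha ((hS ⟨b, ltY hb⟩).2 hb) hc
      ((hS ⟨d, ltY hd⟩).2 hd) e e' (fun h => n (Fin.mk.inj h)) (fun h => n' (Fin.mk.inj h))
  · intro p p' q q' r hp1 hp2 hq1 hq2 hr hw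
    exact he.w4 (p := ⟨p, ltP hp1⟩) (p' := ⟨p', ltY hp2⟩) (q := ⟨q, ltP hq1⟩) (q' := ⟨q', ltY hq2⟩) (r := ⟨r, hlt r hr⟩) hp1
      ((hS ⟨p', ltY hp2⟩).2 hp2) hq1 ((hS ⟨q', ltY hq2⟩).2 hq2)
      ⟨hw.n1, hw.n2, fun h => hw.d1 (Fin.mk.inj h), fun h => hw.d2 (Fin.mk.inj h), hw.pq, hw.pq', hw.p'q, hw.p'q', hw.rp,
        hw.rp', hw.rq, hw.rq'⟩
  · rcases types he hq with hch | ⟨B, hB⟩ | ⟨cl, hcl⟩
    · left
      have hP : P ≠ [] := by rintro rfl; simp at h2
      have hY : Y ≠ [] := by rintro rfl; simp at h2'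
      obtain ⟨a₀, b₀, m0, m0', e0⟩ := Ty2_edge hG.1 hP hY hV
      have two : ∀ {l : Ord}, l.Nodup → 2 ≤ l.length → ∀ a, ∃ b ∈ l, b ≠ a := by
        intro l hl h a
        rcases l with _ | ⟨x, _ | ⟨y, l⟩⟩
        · simp at h
        · simp at h
        · by_cases hx : x = a
          · refine ⟨y, by simp, fun hy => ?_⟩
            have := (List.nodup_cons.1 hl).1
            rw [hx, ← hy] at this
            simp at this
          · exact ⟨x, by simp, hx⟩
      have g1 : ∃ a ∈ setW M P, a ≠ a₀ := by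
        obtain ⟨b, hb, hne⟩ := two (List.nodup_append.1 hn).1 h2 a₀.val
        exact ⟨⟨b, ltP hb⟩, hb, fun h => hne (congrArg Fin.val h)⟩
      have g2 : ∃ b, b ∉ setW M P ∧ b ≠ b₀ := by
        obtain ⟨b, hb, hne⟩ := two (List.nodup_append.1 hn).2.1 h2' b₀.val
        exact ⟨⟨b, ltY hb⟩, (hS ⟨b, ltY hb⟩).2 hb, fun h => hne (congrArg Fin.val h)⟩
      obtain ⟨a, b, z, ha, hb, hz, hAb, az, nbz⟩ := Ty2_dif (A := setW M P) hG m0 ((hS b₀).2 m0') e0 g1 g2
      obtain ⟨cl, k1, k2, k3⟩ := Ty2_chn he hk hch (a1 := a) (b1 := b) (z1 := z) ha hb hz hAb az nbz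
      exact Ty2_cls hlt hS k1 k2 k3
    · right; left
      classical
      refine Ty2_cls (cl := fun v => decide (B v)) hlt hS ?_ ?_ ?_
      · intro a b ha hb hA hB'
        rw [hB.adj ha hb hA hB']
        unfold fK
        by_cases h1 : B a <;> by_cases h2 : B b <;> simp [h1, h2]
      · intro i
        cases i
        · obtain ⟨a, h1, h2, h3⟩ := hB.w2
          exact ⟨a, h1, h2, decide_eq_false h3⟩
        · obtain ⟨a, h1, h2, h3⟩ := hB.w1
          exact ⟨a, h1, h2, decide_eq_true h3⟩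
      · intro i
        cases i
        · obtain ⟨a, h1, h2, h3⟩ := hB.w4
          exact ⟨a, h1, h2, decide_eq_false h3⟩
        · obtain ⟨a, h1, h2, h3⟩ := hB.w3
          exact ⟨a, h1, h2, decide_eq_true h3⟩
    · right; right
      exact Ty2_cls (cl := cl) hlt hS (fun ha hb hA hB' => hcl.adj ha hb hA hB') hcl.w hcl.w'


/-- PROOF. G is connected, setW M P and its complement are not empty: some edge between them (Connected: a walk from one side to the other; there may be a lemma in SOS or SOE, e.g. exists_crossing). attB M P y: y is adjacent to some member of P. -/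
theorem con_of_vo {P Y : Ord} (hG : PrimeG (graphOf M)) (h : P ≠ []) (h' : Y ≠ []) (hV : VO M (P ++ Y)) :
    ∃ y ∈ Y, attB M P y = true := by
  obtain ⟨a, b, ha, hb, e⟩ := Ty2_edge hG.1 h h' hV
  refine ⟨b.val, hb, ?_⟩
  unfold attB
  rw [List.any_eq_true]
  exact ⟨a.val, ha, e.symm⟩


end Pool.Agent.SON
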