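import Pool.Agent.SON.Defs

/-! Project SON (MP_66ba69_lc, the rigid step), module Pal (size 2): reversal of an order in a symmetric context.
-/

set_option autoImplicit false

namespace Pool.Agent.SON

open Pool.Agent.SOC Pool.Agent.SOD Pool.Agent.SOS Pool.Agent.SOV Pool.Agent.SOF Pool.Agent.SOT Pool.Agent.SOK Pool.Agent.SOY FP

variable {M M' : Mat} {S S' L L' R R' B W Y O : Ord} {G : SimpleGraph ℕ}

/-- PROOF. Val_reverse: Val G ([b3, b2, b1] ++ L.reverse), Val_rotate: Val G (L.reverse ++ [b3, b2, b1]). Val_map with f := Equiv.swap b1 b3: the map of this list is L.reverse ++ [b1, b2, b3] (b1, b3 are not in L, b2 ≠ b1, b3). Adjacency is preserved: members of L: h13; b1 b2 and b3 b2: h12, h23; b1 b3: symmetric. f is injective. -/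
theorem val_pal {b1 b2 b3 : ℕ} (hn : (L ++ [b1, b2, b3]).Nodup) (h13 : SR G L b1 b3) (h12 : G.Adj b1 b2) (h23 : G.Adj b2 b3)
    (hV : Val G (L ++ [b1, b2, b3])) : Val G (L.reverse ++ [b1, b2, b3]) := by
  have e1 : (L ++ [b1, b2, b3]).reverse = [b3, b2, b1] ++ L.reverse := by simp
  have h1 : Val G ([b3, b2, b1] ++ L.reverse) := by
    rw [← e1]
    exact (Val_reverse hn).2 hV
  have hn1 : ([b3, b2, b1] ++ L.reverse).Nodup := by
    rw [← e1]
    exact List.nodup_reverse.2 hn
  have h2 : Val G (L.reverse ++ [b3, b2, b1]) := (Val_rotate hn1).1 h1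
  have hd := List.nodup_append.1 hn
  have n1 : b1 ∉ L := fun h => hd.2.2 b1 h b1 (by simp) rfl
  have n2 : b2 ∉ L := fun h => hd.2.2 b2 h b2 (by simp) rfl
  have n3 : b3 ∉ L := fun h => hd.2.2 b3 h b3 (by simp) rfl
  have hb := hd.2.1
  have n12 : b1 ≠ b2 := h12.ne
  have n23 : b2 ≠ b3 := h23.ne
  have sw : ∀ x ∈ L, Equiv.swap b1 b3 x = x := fun x hx =>
    Equiv.swap_apply_of_ne_of_ne (fun e => n1 (e ▸ hx)) (fun e => n3 (e ▸ hx))
  have s2 : Equiv.swap b1 b3 b2 = b2 := Equiv.swap_apply_of_ne_of_ne n12.symm n23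
  have s1 : Equiv.swap b1 b3 b1 = b3 := Equiv.swap_apply_left _ _
  have s3 : Equiv.swap b1 b3 b3 = b1 := Equiv.swap_apply_right _ _
  have em : (L.reverse ++ [b3, b2, b1]).map (Equiv.swap b1 b3) = L.reverse ++ [b1, b2, b3] := by
    rw [List.map_append, List.map_cons, List.map_cons, List.map_cons, List.map_nil, s1, s2, s3]
    congr 1
    rw [List.map_congr_left (g := id) (fun x hx => sw x (List.mem_reverse.1 hx)), List.map_id]
  rw [← em]
  refine (Val_map (fun x _ y _ h => (Equiv.swap b1 b3).injective h) ?_).1 h2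
  have mem : ∀ a, a ∈ L.reverse ++ [b3, b2, b1] → a ∈ L ∨ a = b1 ∨ a = b2 ∨ a = b3 := by
    intro a ha
    simp only [List.mem_append, List.mem_reverse, List.mem_cons, List.not_mem_nil, or_false] at ha
    tauto
  have k : ∀ a, a ∈ L.reverse ++ [b3, b2, b1] → ∀ b, b ∈ L.reverse ++ [b3, b2, b1] →
      G.Adj a b → G.Adj (Equiv.swap b1 b3 a) (Equiv.swap b1 b3 b) := by
    intro a ha b hb' hab
    rcases mem a ha with h | rfl | rfl | rfl <;> rcases mem b hb' with h' | rfl | rfl | rfl
    · rwa [sw a h, sw b h']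
    · rw [sw a h, s1]
      exact ((h13 a h).1 hab.symm).symm
    · rwa [sw a h, s2]
    · rw [sw a h, s3]
      exact ((h13 a h).2 hab.symm).symm
    · rw [sw b h', s1]
      exact (h13 b h').1 hab
    · exact absurd hab (G.loopless.irrefl _)
    · rw [s1, s2]
      exact h23.symm
    · rw [s1, s3]
      exact hab.symm
    · rwa [sw b h', s2]
    · rw [s1, s2]
      exact h23
    · exact absurd hab (G.loopless.irrefl _)
    · rw [s2, s3]
      exact h12.symm
    · rw [sw b h', s3]
      exact (h13 b h').2 hab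
    · rw [s1, s3]
      exact hab.symm
    · rw [s3, s2]
      exact h12
    · exact absurd hab (G.loopless.irrefl _)
  intro a ha b hb'
  refine ⟨k a ha b hb', fun h => ?_⟩
  have mem' : ∀ a, a ∈ L.reverse ++ [b3, b2, b1] → Equiv.swap b1 b3 a ∈ L.reverse ++ [b3, b2, b1] := by
    intro a ha
    rcases mem a ha with h | rfl | rfl | rfl
    · rw [sw a h]
      simp [h]
    · rw [s1]; simp
    · rw [s2]; simp
    · rw [s3]; simp
  have := k _ (mem' a ha) _ (mem' b hb') h
  rwa [Equiv.swap_apply_self, Equiv.swap_apply_self] at this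

/-- PROOF. Val_rotate and List.append_assoc. -/
theorem val_rot3 {A L D R : Ord} (hn : ((A ++ (L ++ D)) ++ R).Nodup) : Val G ((A ++ (L ++ D)) ++ R) ↔ Val G (L ++ (D ++ (R ++ A))) := by
  have e : (A ++ (L ++ D)) ++ R = A ++ (L ++ (D ++ R)) := by simp [List.append_assoc]
  have e' : L ++ (D ++ (R ++ A)) = (L ++ (D ++ R)) ++ A := by simp [List.append_assoc]
  rw [e] at hn
  rw [e, e']
  exact Val_rotate hn

/-- PROOF. VO: the list is a permutation of range (vo_perm), SOX.tok_vo, tOk_iff. -/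
theorem vo_val {l : Ord} (hp : l.Perm (List.range M.length)) : VO M l ↔ Val (gN M) l := by
  rw [← Pool.Agent.SOX.tok_vo hp]
  exact tOk_iff (hp.nodup_iff.2 List.nodup_range)

/-- PROOF. unfold ctx, mB, zB (k.1 = 0, 1 or anything else), tOk_iff; the list is nodup. -/
theorem ctx_val {k : Ky} (hn : (L ++ zB M k).Nodup) : ctx M L k = true ↔ Val (gN (mB M k)) (L ++ zB M k) := by
  rw [← tOk_iff hn]
  unfold ctx mB zB
  by_cases h0 : k.1 = 0
  · simp [h0]
  · by_cases h1 : k.1 = 1
    · simp [h1]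
    · simp [h0, h1]

end Pool.Agent.SON
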