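import Pool.Agent.SON.Defs

/-! Project SON (MP_66ba69_lc, the rigid step), module StM (size 3): transport of the static hypotheses.
-/

set_option autoImplicit false

namespace Pool.Agent.SON

open Pool.Agent.SOC Pool.Agent.SOD Pool.Agent.SOS Pool.Agent.SOV Pool.Agent.SOF Pool.Agent.SOT Pool.Agent.SOK Pool.Agent.SOY FP

variable {M M' : Mat} {S S' L L' R R' B W Y O : Ord} {G : SimpleGraph ℕ}

theorem epl_swap (h : EpL G L R) : EpL G R L := by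
  refine ⟨(List.perm_append_comm.nodup_iff).1 h.nd, ?_, ?_⟩
  · intro a b c d ha hb hc hd h1 h2 h3 h4
    rcases h.rig hb ha hd hc h1.symm h2.symm h4 h3 with ⟨x, y⟩ | ⟨x, y⟩
    · exact Or.inl ⟨y, x⟩
    · exact Or.inr ⟨y, x⟩
  · intro p p' q q' r hp hp' hq hq' hr hw
    refine h.w4 (p := p') (p' := p) (q := q') (q' := q) (r := r) hp' hp hq' hq ?_
      ⟨fun e => hw.n1 e.symm, fun e => hw.n2 e.symm, hw.d1.symm, hw.d2.symm, hw.p'q', hw.p'q, hw.pq', hw.pq, hw.rp', hw.rp, hw.rq', hw.rq⟩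
    rw [List.mem_append] at hr ⊢
    exact hr.symm

theorem epl_mem (h : EpL G L R) (hn : (L' ++ R').Nodup) (hL : ∀ x ∈ L', x ∈ L) (hR : ∀ x ∈ R', x ∈ R) : EpL G L' R' := by
  refine ⟨hn, ?_, ?_⟩
  · intro a b c d ha hb hc hd h1 h2 h3 h4
    exact h.rig (hL _ ha) (hR _ hb) (hL _ hc) (hR _ hd) h1 h2 h3 h4
  · intro p p' q q' r hp hp' hq hq' hr hw
    refine h.w4 (hL _ hp) (hR _ hp') (hL _ hq) (hR _ hq') ?_ hw
    rw [List.mem_append] at hr ⊢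
    exact hr.imp (hL _) (hR _)

/-- PROOF. Members of Y which are attached to L are in R (hm); in rig and w4 the points of Y are attached to L (a hub r in Y is adjacent to p in L; for w4: p' is adjacent to q, q' is adjacent to p). -/
theorem epl_sub (h : EpL (gN M) L R) (hn : (L ++ Y).Nodup) (hm : ∀ y ∈ Y, Atd (gN M') L y → y ∈ R)
    (ha : ∀ a ∈ L ++ R, ∀ b ∈ L ++ R, adjB M' a b = adjB M a b) : EpL (gN M') L Y := by
  have hA : ∀ {a b : ℕ}, a ∈ L ++ R → b ∈ L ++ R → ((gN M').Adj a b ↔ (gN M).Adj a b) := by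
    intro a b h1 h2
    show adjB M' a b = true ↔ adjB M a b = true
    rw [ha a h1 b h2]
  have iL : ∀ {x : ℕ}, x ∈ L → x ∈ L ++ R := fun hx => List.mem_append_left _ hx
  have iR : ∀ {x : ℕ}, x ∈ R → x ∈ L ++ R := fun hx => List.mem_append_right _ hx
  have hY : ∀ {a y : ℕ}, a ∈ L → y ∈ Y → (gN M').Adj a y → y ∈ R := fun h1 h2 h3 => hm _ h2 ⟨_, h1, h3.symm⟩
  refine ⟨hn, ?_, ?_⟩
  · intro a b c d h1 h2 h3 h4 h5 h6 h7 h8
    have b1 := hY h1 h2 h5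
    have d1 := hY h3 h4 h6
    rcases h.rig h1 b1 h3 d1 ((hA (iL h1) (iR b1)).1 h5) ((hA (iL h3) (iR d1)).1 h6) h7 h8 with ⟨x, y⟩ | ⟨x, y⟩
    · exact Or.inl ⟨(hA (iL h1) (iL h3)).2 x, (hA (iR b1) (iR d1)).2 y⟩
    · exact Or.inr ⟨(hA (iL h1) (iR d1)).2 x, (hA (iR b1) (iL h3)).2 y⟩
  · intro p p' q q' r hp hp' hq hq' hr hw
    have p1 := hY hq hp' hw.p'q.symm
    have q1 := hY hp hq' hw.pq'
    have r1 : r ∈ L ++ R := by
      rcases List.mem_append.1 hr with hr | hr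
      · exact iL hr
      · exact iR (hY hp hr hw.rp.symm)
    refine h.w4 hp p1 hq q1 r1 ⟨fun e => hw.n1 ((hA (iL hp) (iR p1)).2 e), fun e => hw.n2 ((hA (iL hq) (iR q1)).2 e), hw.d1, hw.d2, ?_, ?_, ?_, ?_, ?_, ?_, ?_, ?_⟩
    · exact (hA (iL hp) (iL hq)).1 hw.pq
    · exact (hA (iL hp) (iR q1)).1 hw.pq'
    · exact (hA (iR p1) (iL hq)).1 hw.p'q
    · exact (hA (iR p1) (iR q1)).1 hw.p'q'
    · exact (hA r1 (iL hp)).1 hw.rp
    · exact (hA r1 (iR p1)).1 hw.rp'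
    · exact (hA r1 (iL hq)).1 hw.rq
    · exact (hA r1 (iR q1)).1 hw.rq'

theorem StM_cswap {α : Type} {f : α → α → Prop} {cl : ℕ → α} (hf : ∀ i j, f i j ↔ f j i) (h : ClsL f G L R cl) : ClsL f G R L cl := by
  refine ⟨?_, h.wR, h.wL⟩
  intro a b ha hb h1 h2
  rw [G.adj_comm, h.adj hb ha h2 h1]
  exact hf _ _

theorem StM_cperm {α : Type} {f : α → α → Prop} {cl : ℕ → α} (h : ClsL f G L R cl) (hL : ∀ x, x ∈ L' ↔ x ∈ L) (hR : ∀ x, x ∈ R' ↔ x ∈ R) :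
    ClsL f G L' R' cl := by
  have e1 : ∀ x, Atd G L' x ↔ Atd G L x := fun x =>
    ⟨fun ⟨z, hz, h1⟩ => ⟨z, (hL z).1 hz, h1⟩, fun ⟨z, hz, h1⟩ => ⟨z, (hL z).2 hz, h1⟩⟩
  have e2 : ∀ x, Atd G R' x ↔ Atd G R x := fun x =>
    ⟨fun ⟨z, hz, h1⟩ => ⟨z, (hR z).1 hz, h1⟩, fun ⟨z, hz, h1⟩ => ⟨z, (hR z).2 hz, h1⟩⟩
  refine ⟨?_, ?_, ?_⟩
  · intro a b ha hb h1 h2
    exact h.adj ((hL a).1 ha) ((hR b).1 hb) ((e2 a).1 h1) ((e1 b).1 h2)
  · intro i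
    obtain ⟨a, h1, h2, h3⟩ := h.wL i
    exact ⟨a, (hL a).2 h1, (e2 a).2 h2, h3⟩
  · intro i
    obtain ⟨a, h1, h2, h3⟩ := h.wR i
    exact ⟨a, (hR a).2 h1, (e1 a).2 h2, h3⟩

theorem StM_fPs (i j : Bool) : fP i j ↔ fP j i := by
  unfold fP
  exact or_comm

theorem StM_fKs (i j : Bool) : fK i j ↔ fK j i := by
  unfold fK
  exact eq_comm

theorem StM_fEs (i j : Fin 3) : fE i j ↔ fE j i := by
  unfold fE
  fin_cases i <;> fin_cases j <;> decide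

theorem StM_fPc (i j : Bool) (h : ∀ k, fP k i ↔ fP k j) : i = j := by
  have h1 := h false
  unfold fP at h1
  cases i <;> cases j <;> simp_all

theorem StM_fKc (i j : Bool) (h : ∀ k, fK k i ↔ fK k j) : i = j := (h i).1 rfl

theorem StM_fEc (i j : Fin 3) (h : ∀ k, fE k i ↔ fE k j) : i = j := by
  have h0 := h 0
  have h1 := h 1
  have h2 := h 2
  unfold fE at h0 h1 h2
  fin_cases i <;> fin_cases j <;> simp_all

theorem stl_swap (h : StL G L R) : StL G R L := by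
  refine ⟨epl_swap h.ep, ?_⟩
  rcases h.ty with ⟨cl, h1⟩ | ⟨cl, h1⟩ | ⟨cl, h1⟩
  · exact Or.inl ⟨cl, StM_cswap StM_fPs h1⟩
  · exact Or.inr (Or.inl ⟨cl, StM_cswap StM_fKs h1⟩)
  · exact Or.inr (Or.inr ⟨cl, StM_cswap StM_fEs h1⟩)

theorem stl_perm (h : StL G L R) (hL : L'.Perm L) (hR : R'.Perm R) : StL G L' R' := by
  refine ⟨epl_mem h.ep (((hL.append hR).nodup_iff).2 h.ep.nd) (fun x hx => hL.mem_iff.1 hx) (fun x hx => hR.mem_iff.1 hx), ?_⟩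
  rcases h.ty with ⟨cl, h1⟩ | ⟨cl, h1⟩ | ⟨cl, h1⟩
  · exact Or.inl ⟨cl, StM_cperm h1 (fun _ => hL.mem_iff) (fun _ => hR.mem_iff)⟩
  · exact Or.inr (Or.inl ⟨cl, StM_cperm h1 (fun _ => hL.mem_iff) (fun _ => hR.mem_iff)⟩)
  · exact Or.inr (Or.inr ⟨cl, StM_cperm h1 (fun _ => hL.mem_iff) (fun _ => hR.mem_iff)⟩)

theorem StM_csub {α : Type} {f : α → α → Prop} {cl : ℕ → α} (hf : ∀ i j, (∀ k, f k i ↔ f k j) → i = j)
    (h : ClsL f (gN M) L R cl) (hm : ∀ y ∈ Y, Atd (gN M') L y → y ∈ R)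
    (ha : ∀ a ∈ L ++ R, ∀ b ∈ L ++ R, adjB M' a b = adjB M a b)
    (hc : ∀ y ∈ R, Atd (gN M) L y → ∃ q ∈ Y, q ∈ R ∧ SR (gN M) L y q) : ClsL f (gN M') L Y cl := by
  have hA : ∀ {a b : ℕ}, a ∈ L ++ R → b ∈ L ++ R → ((gN M').Adj a b ↔ (gN M).Adj a b) := by
    intro a b h1 h2
    show adjB M' a b = true ↔ adjB M a b = true
    rw [ha a h1 b h2]
  have iL : ∀ {x : ℕ}, x ∈ L → x ∈ L ++ R := fun hx => List.mem_append_left _ hx
  have iR : ∀ {x : ℕ}, x ∈ R → x ∈ L ++ R := fun hx => List.mem_append_right _ hx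
  have hY : ∀ {a y : ℕ}, a ∈ L → y ∈ Y → (gN M').Adj a y → y ∈ R := fun h1 h2 h3 => hm _ h2 ⟨_, h1, h3.symm⟩
  refine ⟨?_, ?_, ?_⟩
  · intro a b h1 h2 h3 h4
    have b1 : b ∈ R := hm b h2 h4
    obtain ⟨y, hy, h5⟩ := h3
    have y1 := hY h1 hy h5
    obtain ⟨z, hz, h6⟩ := h4
    rw [hA (iL h1) (iR b1)]
    exact h.adj h1 b1 ⟨y, y1, (hA (iL h1) (iR y1)).1 h5⟩ ⟨z, hz, (hA (iR b1) (iL hz)).1 h6⟩
  · intro i
    obtain ⟨a, h1, ⟨y, hy, h2⟩, h3⟩ := h.wL i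
    obtain ⟨q, q1, q2, q3⟩ := hc y hy ⟨a, h1, h2.symm⟩
    exact ⟨a, h1, ⟨q, q1, (hA (iL h1) (iR q2)).2 ((q3 a h1).1 h2.symm).symm⟩, h3⟩
  · intro i
    obtain ⟨y, hy, h2, h3⟩ := h.wR i
    obtain ⟨q, q1, q2, q3⟩ := hc y hy h2
    have h4 : Atd (gN M) L q := h2.of_SR q3
    obtain ⟨z, hz, h5⟩ := h4
    refine ⟨q, q1, ⟨z, hz, (hA (iR q2) (iL hz)).2 h5⟩, ?_⟩
    rw [← h3]
    apply hf
    intro k
    obtain ⟨a, a1, a2, a3⟩ := h.wL k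
    rw [← a3, ← h.adj a1 q2 a2 ⟨z, hz, h5⟩, ← h.adj a1 hy a2 h2, (gN M).adj_comm a q, (gN M).adj_comm a y]
    exact (q3 a a1).symm

/-- PROOF. epl_sub. Types: the same class function. adj: clear (a member of Y attached to L is in R). wL: a ∈ L with cl a = i is adjacent to some y ∈ R, y is attached, hc gives q ∈ Y with the same row, q is adjacent to a. wR: y ∈ R attached with cl y = i, q ∈ Y by hc with the same row: cl q = cl y, since for every class k there is an attached a ∈ L with cl a = k (wL of h)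
and f k (cl q) ↔ f k (cl y); the columns of fP, fK, fE are different (decide / cases). -/
theorem stl_sub (h : StL (gN M) L R) (hn : (L ++ Y).Nodup) (hm : ∀ y ∈ Y, Atd (gN M') L y → y ∈ R)
    (ha : ∀ a ∈ L ++ R, ∀ b ∈ L ++ R, adjB M' a b = adjB M a b)
    (hc : ∀ y ∈ R, Atd (gN M) L y → ∃ q ∈ Y, q ∈ R ∧ SR (gN M) L y q) : StL (gN M') L Y := by
  refine ⟨epl_sub h.ep hn hm ha, ?_⟩
  rcases h.ty with ⟨cl, h1⟩ | ⟨cl, h1⟩ | ⟨cl, h1⟩
  · exact Or.inl ⟨cl, StM_csub StM_fPc h1 hm ha hc⟩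
  · exact Or.inr (Or.inl ⟨cl, StM_csub StM_fKc h1 hm ha hc⟩)
  · exact Or.inr (Or.inr ⟨cl, StM_csub StM_fEc h1 hm ha hc⟩)

/-- vertices with different rows are adjacent. PROOF. x ~ z, y not ~ z for some z (or the other way round), y ~ w: rig for (x, z), (y, w) (x ≠ y, z ≠ w). -/
theorem epl_adj (h : EpL G L R) {x y : ℕ} (hx : x ∈ L) (hy : y ∈ L) (ax : Atd G R x) (ay : Atd G R y) (hn : ¬ SR G R x y) : G.Adj x y := by
  unfold SR at hn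
  push Not at hn
  obtain ⟨z, hz, h1⟩ := hn
  have hxy : x ≠ y := by
    rintro rfl
    rcases h1 with h1 | h1
    · exact h1.2 h1.1
    · exact h1.1 h1.2
  rcases h1 with ⟨h1, h2⟩ | ⟨h1, h2⟩
  · obtain ⟨w, hw, h3⟩ := ay
    have hzw : z ≠ w := by
      rintro rfl
      exact h2 h3
    rcases h.rig hx hz hy hw h1 h3 hxy hzw with ⟨a, _⟩ | ⟨_, b⟩
    · exact a
    · exact absurd b.symm h2
  · obtain ⟨w, hw, h3⟩ := ax
    have hzw : w ≠ z := by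
      rintro rfl
      exact h1 h3
    rcases h.rig hx hw hy hz h3 h2 hxy hzw with ⟨a, _⟩ | ⟨a, _⟩
    · exact a
    · exact absurd a h1

end Pool.Agent.SON
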