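import Pool.Agent.SOK.WdG
import Pool.Agent.SON.SdL
import Pool.Agent.SON.StM
import Pool.Agent.SON.Pal

/-! Project SON (MP_66ba69_lc, the rigid step), module Wd (size 3): words.
-/

set_option autoImplicit false

namespace Pool.Agent.SON

open Pool.Agent.SOC Pool.Agent.SOD Pool.Agent.SOS Pool.Agent.SOV Pool.Agent.SOF Pool.Agent.SOT Pool.Agent.SOK Pool.Agent.SOY FP

variable {M M' : Mat} {S S' L L' R R' B W Y O : Ord} {G : SimpleGraph ℕ}

theorem dst_snoc {β : Type} [DecidableEq β] (l : List β) (a b : β) :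
    dst (l ++ [a, b]) = dst (l ++ [a]) ++ (if a = b then [] else [b]) := by
  induction l with
  | nil =>
    rw [List.nil_append, List.nil_append, dst_cons, dst_one, dst_one]
    by_cases e : a = b <;> simp [e]
  | cons c l ih =>
    cases l with
    | nil =>
      rw [List.cons_append, List.nil_append, List.cons_append, List.nil_append]
      simp only [dst_cons, dst_one]
      by_cases e : a = b <;> simp [e]
    | cons d l =>
      rw [List.cons_append, List.cons_append, dst_cons, List.cons_append, List.cons_append, dst_cons]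
      rw [List.cons_append, List.cons_append] at ih
      rw [ih, List.append_assoc]

theorem dst_reverse {β : Type} [DecidableEq β] (l : List β) : dst l.reverse = (dst l).reverse := by
  induction l with
  | nil => rfl
  | cons a l ih =>
    cases l with
    | nil => rfl
    | cons b l =>
      rw [dst_cons, List.reverse_append, ← ih, List.reverse_cons, List.reverse_cons, List.append_assoc, List.cons_append,
        List.nil_append, dst_snoc]
      by_cases e : a = b
      · subst e
        simp
      · simp [e, Ne.symm e]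

theorem wordB_rev : wordB M B L.reverse = (wordB M B L).reverse := by
  unfold wordB
  rw [List.filter_reverse, List.map_reverse, dst_reverse]

theorem lep_of (h : EpL G L R) : LEp G L R := ⟨h.nd, h.rig, h.w4⟩

theorem lcl_of {α : Type} {f : α → α → Prop} {cl : ℕ → α} (h : ClsL f G L R cl) : LCl f G L R cl := ⟨h.adj, h.wL, h.wR⟩

theorem lcl_to {α : Type} {f : α → α → Prop} {cl : ℕ → α} (h : LCl f G L R cl) : ClsL f G L R cl := ⟨h.adj, h.wL, h.wR⟩

theorem lty_of (h : StL G L R) : (∃ cl, LCl fp G L R cl) ∨ (∃ cl, LCl fk G L R cl) ∨ ∃ cl, LCl fe G L R cl := by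
  rcases h.ty with ⟨cl, h1⟩ | ⟨cl, h1⟩ | ⟨cl, h1⟩
  · exact Or.inl ⟨cl, lcl_of h1⟩
  · exact Or.inr (Or.inl ⟨cl, lcl_of h1⟩)
  · exact Or.inr (Or.inr ⟨cl, lcl_of h1⟩)

theorem wd_sum (hs : StL (gN M) L R) (hR : RpL (gN M) L R B) (hV : Val (gN M) (L ++ B)) :
    B.length = 2 ∨ (B.length = 3 ∧ Wd3 (gN M) (adjB M) L R B) ∨
      (B.length = 4 ∧ ∃ X, ∀ L' : Ord, L'.Perm L → Val (gN M) (L' ++ B) → wordB M B L' = X) :=
  words_sum (ad := adjB M) (fun _ _ => Iff.rfl) (lep_of hs.ep) hR hV (lty_of hs)

theorem wd_three (hs : StL (gN M) L R) (hR : RpL (gN M) L R B) (hB : B.length = 3) (hV : Val (gN M) (L ++ B)) :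
    Wd3 (gN M) (adjB M) L R B := by
  rcases wd_sum hs hR hV with e | ⟨_, h⟩ | ⟨e, _⟩
  · omega
  · exact h
  · omega

theorem wd_ge (hs : StL (gN M) L R) (hR : RpL (gN M) L R B) : 2 ≤ B.length := by
  rcases lty_of hs with ⟨cl, h⟩ | ⟨cl, h⟩ | ⟨cl, h⟩
  · exact two_le ty_p h hR (i := true) (j := false) (by decide)
  · exact two_le ty_k h hR (i := true) (j := false) (by decide)
  · exact two_le ty_e h hR (i := 0) (j := 1) (by decide)

theorem wd3_len (hs : StL (gN M) L R) (hR : RpL (gN M) L R B) (hB : B.length = 3) (hV : Val (gN M) (L ++ B)) :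
    (wordB M B L).length = 2 ∨ (wordB M B L).length = 3 := by
  rcases wd_three hs hR hB hV with ⟨x, y, _, h, _⟩ | ⟨x, y, z, h⟩
  · rcases h L (List.Perm.refl _) hV with e | e | e
    · exact Or.inl (congrArg List.length e)
    · exact Or.inl (congrArg List.length e)
    · exact Or.inr (congrArg List.length e)
  · exact Or.inr (congrArg List.length (h L (List.Perm.refl _) hV))

theorem wd3_eq (hs : StL (gN M) L R) (hR : RpL (gN M) L R B) (hB : B.length = 3) (hp : L'.Perm L) (hV : Val (gN M) (L ++ B))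
    (hV' : Val (gN M) (L' ++ B)) (h3 : (wordB M B L).length = 3) (h3' : (wordB M B L').length = 3) : wordB M B L' = wordB M B L := by
  rcases wd_three hs hR hB hV with ⟨x, y, _, h, _⟩ | ⟨x, y, z, h⟩
  · have h1 := h L (List.Perm.refl _) hV
    have h2 := h L' hp hV'
    change wordB M B L = _ ∨ wordB M B L = _ ∨ wordB M B L = _ at h1
    change wordB M B L' = _ ∨ wordB M B L' = _ ∨ wordB M B L' = _ at h2
    rcases h1 with e | e | e
    · rw [e] at h3
      simp at h3
    · rw [e] at h3
      simp at h3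
    · rcases h2 with e' | e' | e'
      · rw [e'] at h3'
        simp at h3'
      · rw [e'] at h3'
        simp at h3'
      · rw [e, e']
  · exact (h L' hp hV').trans (h L (List.Perm.refl _) hV).symm

theorem wd3_two (hs : StL (gN M) L R) (hR : RpL (gN M) L R B) (hB : B.length = 3) (hp : L'.Perm L) (hV : Val (gN M) (L ++ B))
    (hV' : Val (gN M) (L' ++ B)) (h3 : (wordB M B L).length = 2) (h3' : (wordB M B L').length = 2) :
    wordB M B L' = wordB M B L ∨ wordB M B L' = (wordB M B L).reverse := by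
  rcases wd_three hs hR hB hV with ⟨x, y, _, h, _⟩ | ⟨x, y, z, h⟩
  · have h1 := h L (List.Perm.refl _) hV
    have h2 := h L' hp hV'
    change wordB M B L = _ ∨ wordB M B L = _ ∨ wordB M B L = _ at h1
    change wordB M B L' = _ ∨ wordB M B L' = _ ∨ wordB M B L' = _ at h2
    rcases h1 with e | e | e
    · rcases h2 with e' | e' | e'
      · exact Or.inl (e'.trans e.symm)
      · right
        rw [e, e']
        rfl
      · rw [e'] at h3'
        simp at h3'
    · rcases h2 with e' | e' | e'
      · right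
        rw [e, e']
        rfl
      · exact Or.inl (e'.trans e.symm)
      · rw [e'] at h3'
        simp at h3'
    · rw [e] at h3
      simp at h3
  · have h1 := h L (List.Perm.refl _) hV
    change wordB M B L = _ at h1
    rw [h1] at h3
    simp at h3

theorem wd3_sub (hs : StL (gN M) L R) (hR : RpL (gN M) L R B) (hB : B.length = 3) (hp : L'.Perm L) (hV : Val (gN M) (L ++ B))
    (hV' : Val (gN M) (L' ++ B)) (h3 : (wordB M B L).length = 3) (h3' : (wordB M B L').length = 2) :
    (wordB M B L').Sublist (wordB M B L) := by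
  rcases wd_three hs hR hB hV with ⟨x, y, _, h, _⟩ | ⟨x, y, z, h⟩
  · have h1 := h L (List.Perm.refl _) hV
    have h2 := h L' hp hV'
    change wordB M B L = _ ∨ wordB M B L = _ ∨ wordB M B L = _ at h1
    change wordB M B L' = _ ∨ wordB M B L' = _ ∨ wordB M B L' = _ at h2
    rcases h1 with e | e | e
    · rw [e] at h3
      simp at h3
    · rw [e] at h3
      simp at h3
    · rcases h2 with e' | e' | e'
      · rw [e, e']
        exact .cons_cons _ (.cons_cons _ (List.nil_sublist _))
      · rw [e, e']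
        exact .cons _ (List.Sublist.refl _)
      · rw [e'] at h3'
        simp at h3'
  · have h2 := h L' hp hV'
    change wordB M B L' = _ at h2
    rw [h2] at h3'
    simp at h3'

theorem wd3_pal (hs : StL (gN M) L R) (hR : RpL (gN M) L R B) (hB : B.length = 3) (hV : Val (gN M) (L ++ B))
    (h3 : (wordB M B L).length = 2) : ∃ b1 b2 b3, B = [b1, b2, b3] ∧ SR (gN M) L b1 b3 ∧ (gN M).Adj b1 b2 ∧ (gN M).Adj b2 b3 ∧
      ((∃ cl, ClsL fP (gN M) L R cl) ∨ ∃ cl, ClsL fK (gN M) L R cl) := by
  rcases wd_three hs hR hB hV with ⟨x, y, _, _, b1, b2, b3, e, h1, h2, h4, h5⟩ | ⟨x, y, z, h⟩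
  · refine ⟨b1, b2, b3, e, h1, h2, h4, ?_⟩
    rcases h5 with ⟨cl, h5⟩ | ⟨cl, h5⟩
    · exact Or.inl ⟨cl, lcl_to h5⟩
    · exact Or.inr ⟨cl, lcl_to h5⟩
  · have h1 := h L (List.Perm.refl _) hV
    change wordB M B L = _ at h1
    rw [h1] at h3
    simp at h3

theorem wd4 (hs : StL (gN M) L R) (hR : RpL (gN M) L R B) (hB : 4 ≤ B.length) (hp : L'.Perm L) (hV : Val (gN M) (L ++ B))
    (hV' : Val (gN M) (L' ++ B)) : wordB M B L' = wordB M B L := by
  rcases wd_sum hs hR hV with e | ⟨e, _⟩ | ⟨_, X, h⟩
  · omega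
  · omega
  · rw [h L' hp hV', h L (List.Perm.refl _) hV]

end Pool.Agent.SON
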