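import Pool.Agent.SOK.Mx
import Pool.Agent.SOK.ExtG
import Pool.Agent.SOK.TyDefs
import Pool.Agent.SOY.Defs
import Pool.Agent.SOT.HypE
import Pool.Agent.SOX.Tok
import Pool.Agent.SOZ.LemAB

/-! Project SON (MP_66ba69_lc, the rigid step), module Defs (size 0). Everything on lists of numbers; `gN M` is the graph of the matrix `M`.
A node has the parts `Ps` (the children, in the order of the base order) and `O` (the rest). For every child one entry of its table is chosen;
some children can be reversed, they are replaced by two vertices; the orders are found by the solver of SOY. -/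

set_option autoImplicit false

namespace Pool.Agent.SON

open Pool.Agent.SOC Pool.Agent.SOD Pool.Agent.SOS Pool.Agent.SOV Pool.Agent.SOF Pool.Agent.SOT Pool.Agent.SOK Pool.Agent.SOY FP

section static
variable {V : Type}

/-- the edges between the two lists form a complete bipartite graph -/
def Bic (G : SimpleGraph V) (X Y : List V) : Prop := ∀ a ∈ X, ∀ a' ∈ X, ∀ b ∈ Y, ∀ b' ∈ Y, G.Adj a b → G.Adj a' b' → G.Adj a b'

/-- the cut between the lists is an E-P-cut of the graph induced by the members of the lists -/
structure EpL (G : SimpleGraph V) (L R : List V) : Prop where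
  nd : (L ++ R).Nodup
  rig : ∀ {a b c d}, a ∈ L → b ∈ R → c ∈ L → d ∈ R → G.Adj a b → G.Adj c d → a ≠ c → b ≠ d →
    (G.Adj a c ∧ G.Adj b d) ∨ (G.Adj a d ∧ G.Adj b c)
  w4 : ∀ {p p' q q' r}, p ∈ L → p' ∈ R → q ∈ L → q' ∈ R → r ∈ L ++ R → ¬ Pool.Agent.SOW.W4 G p p' q q' r

/-- classes of the attached vertices; `f` says which classes are adjacent -/
structure ClsL {α : Type} (f : α → α → Prop) (G : SimpleGraph V) (L R : List V) (cl : V → α) : Prop where
  adj : ∀ {a b}, a ∈ L → b ∈ R → Atd G R a → Atd G L b → (G.Adj a b ↔ f (cl a) (cl b))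
  wL : ∀ i, ∃ a ∈ L, Atd G R a ∧ cl a = i
  wR : ∀ i, ∃ b ∈ R, Atd G L b ∧ cl b = i

/-- two rows, one contained in the other (`true` is the big class) -/
def fP (a b : Bool) : Prop := a = true ∨ b = true

/-- two disjoint rows -/
def fK (a b : Bool) : Prop := a = b

/-- `K2 + P4` -/
def fE (a b : Fin 3) : Prop := (a = 0 ∧ b = 0) ∨ (a ≠ 0 ∧ b ≠ 0 ∧ ¬ (a = 1 ∧ b = 1))

/-- E-P-cut of one of the three types -/
structure StL (G : SimpleGraph V) (L R : List V) : Prop where
  ep : EpL G L R
  ty : (∃ cl, ClsL fP G L R cl) ∨ (∃ cl, ClsL fK G L R cl) ∨ (∃ cl, ClsL fE G L R cl)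

/-- `W` are members of `L` which stand for the blocks of `L` -/
def WrL (G : SimpleGraph V) (R L W : List V) : Prop := ∃ sL rL, sL.flatten = L ∧ Sd G R sL rL ∧ W.length = rL.length ∧ W.Nodup ∧
  (∀ w ∈ W, w ∈ L) ∧ ∀ (i : ℕ) (w x : V), W[i]? = some w → rL[i]? = some x → SR G R w x

/-- `B` are members of `R`, one in every block of `R`, in this order -/
def RpL (G : SimpleGraph V) (L R B : List V) : Prop := ∃ sR, sR.flatten = R ∧ Sd G L sR B

end static

/-! ### the chosen entries -/

/-- the last members of the runs of equal rows -/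
def rep1 (M : Mat) (S A : Ord) : Ord :=
  ((A.zip A.tail).filter fun p => decide (rowB M S p.1 ≠ rowB M S p.2)).map (fun p => p.1) ++ A.getLast?.toList

/-- one member of `X` attached to `S` -/
def atp (M : Mat) (S X : Ord) : Ord := (X.filter (attB M S)).take 1

/-- representatives of the blocks of the concatenation of the lists in `Xs` -/
def repP (M : Mat) (S : Ord) (Xs : List Ord) : Ord := rep1 M S (Xs.flatMap (atp M S))

/-- two blocks, the first one is adjacent to the last member of `B`, the last one to the first member -/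
def parB (w : List (List Bool)) : Bool :=
  decide (w.length = 2) && (((w.getD 0 []).getLastD false) && ((w.getD 1 []).headD false))

/-- one of the orders with the new vertex is good -/
def gad (M : Mat) (L B : Ord) : Bool := ctx M L (1, B, []) || ctx M L (2, B, [])

/-- the entries which are good in the context -/
def cds (M : Mat) (B : Ord) (C : List Ord) : List Ord := C.filter fun L => tOk M (L ++ B)

/-- the chosen entry -/
def pick (M : Mat) (B : Ord) (C : List Ord) : Ord :=
  if B.length = 2 then
    (((cds M B C).filter fun L => parB (wordB M B L) && gad M L B) ++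
      (((cds M B C).filter fun L => parB (wordB M B L)) ++ cds M B C)).headD []
  else (((cds M B C).filter fun L => decide ((wordB M B L).length = 2)) ++ cds M B C).headD []

/-- the entry can be reversed -/
def flg (M : Mat) (B : Ord) (C : List Ord) : Bool := decide (B.length = 3) && decide ((wordB M B (pick M B C)).length = 2)

/-! ### the node -/

/-- the context of the child number `j` -/
def ctxB (M : Mat) (Ps : List Ord) (O : Ord) (j : ℕ) : Ord := repP M (Ps.getD j []) (Ps.drop (j + 1) ++ O :: Ps.take j)

/-- the chosen entry of the child number `j` -/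
def entE (M : Mat) (Ps : List Ord) (O : Ord) (Cs : List (List Ord)) (j : ℕ) : Ord := pick M (ctxB M Ps O j) (Cs.getD j [])

/-- the child number `j` can be reversed -/
def entB (M : Mat) (Ps : List Ord) (O : Ord) (Cs : List (List Ord)) (j : ℕ) : Bool := flg M (ctxB M Ps O j) (Cs.getD j [])

/-- representatives of the blocks of the chosen entry -/
def entW (M : Mat) (Ps : List Ord) (O : Ord) (Cs : List (List Ord)) (j : ℕ) : Ord :=
  rep1 M (ctxB M Ps O j) ((entE M Ps O Cs j).filter (attB M (ctxB M Ps O j)))

/-- the cell of the child number `j` -/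
def cel (M : Mat) (Ps : List Ord) (O : Ord) (Cs : List (List Ord)) (j : ℕ) : Cell :=
  if entB M Ps O Cs j then (entW M Ps O Cs j, (entW M Ps O Cs j).reverse) else (entE M Ps O Cs j, entE M Ps O Cs j)

/-- the cells; the last cell is the context of the node -/
def cells (M : Mat) (Ps : List Ord) (O : Ord) (Cs : List (List Ord)) (Z : Ord) : List Cell :=
  (List.range Ps.length).map (cel M Ps O Cs) ++ [(Z, Z)]

/-- the cells which can be reversed -/
def marks (M : Mat) (Ps : List Ord) (O : Ord) (Cs : List (List Ord)) : List ℕ := (List.range Ps.length).filter (entB M Ps O Cs)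

/-- the order of the child number `j` in state `u` -/
def ordE (M : Mat) (Ps : List Ord) (O : Ord) (Cs : List (List Ord)) (j : ℕ) (u : Bool) : Ord :=
  if entB M Ps O Cs j && u then (entE M Ps O Cs j).reverse else entE M Ps O Cs j

/-- the order given by the states -/
def outF (M : Mat) (Ps : List Ord) (O : Ord) (Cs : List (List Ord)) (f : ℕ → Bool) : Ord :=
  (List.range Ps.length).flatMap fun j => ordE M Ps O Cs j (f j)

/-- the matrix of a key -/
def mB (M : Mat) (k : Ky) : Mat := if k.1 = 0 then M else ext M k.2.1

/-- the context list of a key -/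
def zB (M : Mat) (k : Ky) : Ord := if k.1 = 0 then k.2.1 else if k.1 = 1 then M.length :: k.2.1 else k.2.1 ++ [M.length]

/-- the rest of the base order -/
def outO (s0 : Ord) (Ks : List Ivl) : Ord := s0.drop (Ks.getLastD (0, 0)).2 ++ s0.take (Ks.headD (0, 0)).1

/-! ### facts about a node -/

/-- the parts of a node -/
structure NdS (M : Mat) (Ps : List Ord) (O : Ord) : Prop where
  perm : (Ps.flatten ++ O).Perm (List.range M.length)
  ne : ∀ P ∈ Ps, P ≠ []
  bic : (O :: Ps).Pairwise (Bic (gN M))
  st : ∀ A P D, Ps = A ++ P :: D → 2 ≤ P.length → StL (gN M) P (D.flatten ++ (O ++ A.flatten))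
  con : ∀ A P D, Ps = A ++ P :: D → ∃ y ∈ D.flatten ++ (O ++ A.flatten), attB M P y = true

/-- the key of an order `L ++ R` -/
structure KeyR (M : Mat) (L R : Ord) (k : Ky) : Prop where
  mem : k ∈ keys M
  f3 : k.1 < 3
  good : good M L k = true
  all : ∀ L' : Ord, L'.Perm L → Pool.Agent.SOK.good M L' k = true → VO M (L' ++ R)
  nd : k.2.1.Nodup
  ne : k.2.1 ≠ []
  sub : ∀ b ∈ k.2.1, b ∈ R
  cov : ∀ y ∈ R, Atd (gN M) L y → ∃ b ∈ k.2.1, SR (gN M) L y b

/-! ### cells -/

/-- the members of the other cells, in cyclic order after the cell number `i`, in state `false` -/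
def rstC (C : List Cell) (i : ℕ) : Ord := ((C.drop (i + 1)).map Prod.fst).flatten ++ ((C.take i).map Prod.fst).flatten

/-- the hypotheses on cells for the solver: the marked cells are pairs -/
structure Star (M : Mat) (C : List Cell) (F : List ℕ) : Prop where
  ok : COk M C
  six : 6 ≤ (L0 C).length
  pl : ∀ i, i < C.length → i ∉ F → cst C i false = cst C i true
  lt : ∀ i ∈ F, i < C.length
  pr : ∀ i ∈ F, ∃ x y, C.getD i ([], []) = ([x, y], [y, x]) ∧ x ≠ y ∧ adjB M x y = true
  bic : ∀ i ∈ F, ∀ j, j < C.length → j ≠ i → Bic (gN M) (cst C i false) (cst C j false)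
  st : ∀ i ∈ F, StL (gN M) (cst C i false) (rstC C i)
  wd : ∀ i ∈ F, ∃ b1 b2 b3, RpL (gN M) (cst C i false) (rstC C i) [b1, b2, b3]

end Pool.Agent.SON
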