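import Pool.Agent.SON.Defs
import Pool.Agent.SOK.FinF
import Pool.Agent.SOM.Dom2

/-! Project SON (MP_66ba69_lc, the rigid step), module Ifc (size 0): statements from SOK and SOQ (helper74, helper85).
-/

set_option autoImplicit false

namespace Pool.Agent.SON

open Pool.Agent.SOC Pool.Agent.SOD Pool.Agent.SOS Pool.Agent.SOE Pool.Agent.SOV Pool.Agent.SOF Pool.Agent.SOT Pool.Agent.SOK Pool.Agent.SOZ Pool.Agent.SOY

variable {M M' : Mat} {S S' L L' R R' B W Y O : Ord} {G : SimpleGraph ℕ}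

/-- (N1) gluing with at least five blocks -/
theorem glue5 {B W : Ord} (hs : EpL G L R) (hR : RpL G L R B) (hW : WrL G R L W) (h5 : 5 ≤ B.length + W.length)
    (h1 : Val G (L ++ B)) (h2 : Val G (W ++ R)) : Val G (L ++ R) :=
  glue_5 ⟨hs.nd, hs.rig, hs.w4⟩ hR hW h1 h2 h5

/-- (N2) contexts with two blocks -/
theorem dom2 {B : Ord} (hs : StL (gN M) L R) (hp : L'.Perm L) (hm : ∀ x ∈ L ++ R, x < M.length) (hR : RpL (gN M) L R B)
    (hB : B.length = 2) (h1 : Val (gN M) (L ++ R)) (h2 : Val (gN M) (L' ++ B))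
    (hpar : parB (wordB M B L) = true → parB (wordB M B L') = true ∧ (gad M L B = true → gad M L' B = true)) :
    Val (gN M) (L' ++ R) := Pool.Agent.SOM.dom2 ruleF sixF glueF bothF hs hp hm hR hB h1 h2 hpar

/-- (N4) keys -/
theorem key_str (hc : (graphOf M).Connected) (hs : StrE (graphOf M) (setW M L)) (hV : VO M (L ++ R)) : ∃ k, KeyR M L R k := by
  have hA := edge_ex hc hs hV
  obtain ⟨k, hk⟩ := key_exF hs.epc hA hV
  have hn : (L ++ R).Nodup := (vo_perm hV).nodup_iff.2 List.nodup_range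
  have hcov : CovL (gN M) L R k.2.1 := LRp.cov hk.sd
  refine ⟨k, hk.mem, hk.f3, hk.good, hk.all, hk.sub.nodup (List.nodup_append.1 hn).2.1, ?_, hcov.1, hcov.2⟩
  obtain ⟨x, hx, y, hy, e⟩ := hA
  obtain ⟨b, hb, _⟩ := hcov.2 y hy ⟨x, hx, e.symm⟩
  exact List.ne_nil_of_mem hb

end Pool.Agent.SON
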