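import Pool.Agent.SON.Nod
import Pool.Agent.SON.Ifc
import Pool.Agent.SON.Pal

/-! Project SON (MP_66ba69_lc, the rigid step), module Back (size 4): gluing the children back.
-/

set_option autoImplicit false

namespace Pool.Agent.SON

open Pool.Agent.SOC Pool.Agent.SOD Pool.Agent.SOS Pool.Agent.SOV Pool.Agent.SOF Pool.Agent.SOT Pool.Agent.SOK Pool.Agent.SOY FP

variable {M : Mat} {Ps : List Ord} {Cs : List (List Ord)} {O R : Ord} {φ : ℕ → Bool} {k : Ky}

theorem back_f2 {R1 R2 R3 : Ord → Ord → Prop} {X Q Z : List Ord} (h1 : List.Forall₂ R1 X Q) (h2 : List.Forall₂ R2 X Z)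
    (h : ∀ x q z, R1 x q → R2 x z → R3 q z) : List.Forall₂ R3 Q Z := by
  rw [List.forall₂_iff_get] at h1 h2 ⊢
  refine ⟨h1.1.symm.trans h2.1, fun i h3 h4 => ?_⟩
  have h5 : i < X.length := by rw [h1.1]; exact h3
  exact h _ _ _ (h1.2 i h5 h3) (h2.2 i h5 h4)

/-- the list of the orders of the parts -/
theorem back_ls (h : Hyn M Ps O Cs R φ k) (f : ℕ → Bool) :
    List.Forall₂ List.Perm Ps ((List.range Ps.length).map fun i => ordE M Ps O Cs i (f i)) := by
  refine nod_f2 (by rw [List.length_map, List.length_range]) fun i hi => ?_
  have h1 : i < ((List.range Ps.length).map fun i => ordE M Ps O Cs i (f i)).length := by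
    rw [List.length_map, List.length_range]
    exact hi
  rw [List.getD_eq_getElem (hn := h1), List.getElem_map, List.getElem_range]
  exact (ordE_perm h hi (f i)).symm

theorem back_outF (f : ℕ → Bool) : outF M Ps O Cs f = ((List.range Ps.length).map fun i => ordE M Ps O Cs i (f i)).flatten := by
  unfold outF
  rw [List.flatMap_def]

theorem back_ndL (hP : Ps.flatten.Nodup) {Ls : List Ord} (hF : List.Forall₂ (fun L P => L.Nodup ∧ ∀ x ∈ L, x ∈ P) Ls Ps) :
    Ls.flatten.Nodup ∧ ∀ x ∈ Ls.flatten, x ∈ Ps.flatten := by
  induction hF with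
  | nil => exact ⟨List.nodup_nil, fun x hx => hx⟩
  | @cons L P Ls Ps h1 _ ih =>
    rw [List.flatten_cons, List.nodup_append] at hP
    obtain ⟨i1, i2⟩ := ih hP.2.1
    constructor
    · rw [List.flatten_cons, List.nodup_append]
      exact ⟨h1.1, i1, fun a ha b hb => hP.2.2 a (h1.2 a ha) b (i2 b hb)⟩
    · intro x hx
      rw [List.flatten_cons, List.mem_append] at hx ⊢
      rcases hx with h2 | h2
      · exact Or.inl (h1.2 x h2)
      · exact Or.inr (i2 x h2)

theorem back_zBnd (h : Hyn M Ps O Cs R φ k) : (zB M k).Nodup := by
  have h1 : M.length ∉ k.2.1 := fun hm => by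
    have h2 := nod_ltO h.nds (h.perm.mem_iff.1 (h.key.sub _ hm))
    exact absurd h2 (lt_irrefl _)
  unfold zB
  split
  · exact h.key.nd
  · split
    · exact List.nodup_cons.2 ⟨h1, h.key.nd⟩
    · rw [List.nodup_append]
      refine ⟨h.key.nd, List.nodup_singleton _, ?_⟩
      rintro a ha b hb rfl
      rw [List.mem_singleton.1 hb] at ha
      exact h1 ha

theorem back_nd (h : Hyn M Ps O Cs R φ k) {Ls : List Ord} (hF : List.Forall₂ (fun L P => L.Nodup ∧ ∀ x ∈ L, x ∈ P) Ls Ps) :
    (Ls.flatten ++ zB M k).Nodup := by
  obtain ⟨h1, h2⟩ := back_ndL (List.nodup_append.1 (nod_nd h.nds)).1 hF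
  rw [List.nodup_append]
  refine ⟨h1, back_zBnd h, ?_⟩
  rintro a ha b hb rfl
  have h3 := h2 a ha
  rcases zB_mem h hb with h4 | ⟨h4, _⟩
  · exact (List.nodup_append.1 (nod_nd h.nds)).2.2 a h3 a (h.perm.mem_iff.1 (h.key.sub a h4)) rfl
  · have h5 := nod_lt h.nds (List.mem_append_left O h3)
    omega

/-- one child. Y := the lists after j in cyclic order. PROOF. M' := mB M k, m := Ps.length. If entB .. j = false: the cell is (entE, entE) = ordE, nothing to do. Otherwise E := ordE .. j u, W := the cell in state u (entW or its reverse). Qs: the given lists, at j there is W. val_rot3: Val (gN M') (W ++ Y), Y := (Qs.drop (j + 1)).flatten ++ (Qs.take j).flatten (the last list is zB).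
EpL (gN M') E Y and RpL (gN M') E Y B', B' := repP .., B'.length = (ctxB ..).length = 3: rest_main (2 ≤ Ps[j].length: it contains x ≠ y), rpl_perm. WrL (gN M') Y E W: entW_pair gives RpL (gN M) (rest) (entE) [x, y]: Sd for the rest; for Y instead of the rest: rows of members of Ps[j] on Y: equal on Y iff equal on the rest (a member z of the rest attached to Ps[j] has a representative in Y with the same row on Ps[j]: CvL, as in rest_main), attached iff attached; rpl_rev for the state true.
Val (gN M') (E ++ B'): the given order h.val: outF φ ++ R rotated: Val (gN M) (ordE .. j (φ j) ++ (rest in this order)); B' is a sublist of the rest in this order: B' has at most one member of each part, in the order of the parts (rep_sub with the lists ordE .. i (φ i) and R: the members of atp M' P (Qs i) are in the part i; for i = m: in k.2.1 ⊆ R (zB_att)). So Val (gN M) (ordE .. j (φ j) ++ B'), the same for gN M' (Val_congr, mB_adj).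
If φ j ≠ u: B' = [b1, b2, b3], wd3_pal (the word of the entry has two letters), val_pal. glue5 (3 + 2). Then rotate back. -/
theorem back1 (h : Hyn M Ps O Cs R φ k) {j : ℕ} (hj : j < Ps.length) (u : Bool) {A D : List Ord} (hA : A.length = j) (hD : D.length + (j + 1) = Ps.length)
    (hcA : ∀ i < j, CvL M Ps O k i (A.getD i [])) (hcD : ∀ i < Ps.length, j < i → CvL M Ps O k i (D.getD (i - (j + 1)) []))
    (hn : ((A.flatten ++ (ordE M Ps O Cs j u ++ D.flatten)) ++ zB M k).Nodup)
    (hV : Val (gN (mB M k)) ((A.flatten ++ (cst (cells M Ps O Cs (zB M k)) j u ++ D.flatten)) ++ zB M k)) :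
    Val (gN (mB M k)) ((A.flatten ++ (ordE M Ps O Cs j u ++ D.flatten)) ++ zB M k) := by
  by_cases hb : entB M Ps O Cs j = true
  swap
  · -- nothing to do
    have e : cst (cells M Ps O Cs (zB M k)) j u = ordE M Ps O Cs j u := by
      rw [nod_cst_lt hj]
      unfold cel ordE
      rw [if_neg hb]
      have hb' : entB M Ps O Cs j = false := by simpa using hb
      rw [hb', Bool.false_and, ite_self]
      rfl
    rw [← e]
    exact hV
  · obtain ⟨x, y, eW, hx, hy, hxy, _, hRW, _⟩ := entW_pair h hj hb
    have h2 : 2 ≤ (Ps.getD j []).length := nod_two hx hy hxy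
    -- the lists
    have eQd : (A ++ [] :: (D ++ [zB M k])).drop (j + 1) = D ++ [zB M k] := by
      rw [List.drop_append, List.drop_eq_nil_of_le (by omega), List.nil_append]
      have e : j + 1 - A.length = 1 := by omega
      rw [e]
      rfl
    have eQt : (A ++ [] :: (D ++ [zB M k])).take j = A := by
      rw [← hA]
      exact List.take_left' rfl
    have hl : (A ++ [] :: (D ++ [zB M k])).length = Ps.length + 1 := by
      rw [List.length_append, List.length_cons, List.length_append, List.length_singleton]
      omega
    have hQ : ∀ i ≤ Ps.length, i ≠ j → CvL M Ps O k i ((A ++ [] :: (D ++ [zB M k])).getD i []) := by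
      intro i hi hij
      rcases lt_or_gt_of_ne hij with h3 | h3
      · rw [List.getD_append _ _ _ _ (by omega)]
        exact hcA i h3
      · have e : (A ++ [] :: (D ++ [zB M k])).getD i [] = ((A ++ [] :: (D ++ [zB M k])).drop (j + 1)).getD (i - (j + 1)) [] := by
          rw [nod_getD_drop]
          congr 1
          omega
        rw [e, eQd]
        rcases Nat.lt_or_ge i Ps.length with h4 | h4
        · rw [List.getD_append _ _ _ _ (by omega)]
          exact hcD i h4 h3
        · have e2 : i = Ps.length := by omega
          rw [List.getD_append_right _ _ _ _ (by omega)]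
          have e3 : i - (j + 1) - D.length = 0 := by omega
          rw [e3, List.getD_cons_zero]
          unfold CvL
          rw [if_neg (by omega)]
    have eY : ((A ++ [] :: (D ++ [zB M k])).drop (j + 1)).flatten ++ ((A ++ [] :: (D ++ [zB M k])).take j).flatten =
        D.flatten ++ (zB M k ++ A.flatten) := by
      rw [eQd, eQt, List.flatten_append, List.flatten_singleton, List.append_assoc]
    have pE : ∀ v, (ordE M Ps O Cs j v).Perm (Ps.getD j []) := fun v => ordE_perm h hj v
    have hnE : (ordE M Ps O Cs j u ++ (D.flatten ++ (zB M k ++ A.flatten))).Nodup := by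
      refine (List.Perm.nodup_iff ?_).1 hn
      rw [List.append_assoc, List.append_assoc]
      refine List.perm_append_comm.trans ?_
      rw [List.append_assoc, List.append_assoc]
    have hnP : (Ps.getD j [] ++ (D.flatten ++ (zB M k ++ A.flatten))).Nodup :=
      ((pE u).append_right _).nodup_iff.1 hnE
    have F := nod_cv_all h hj hl hQ
    have main := rest_main h hj h2 hl hQ (by rw [eY]; exact hnP)
    rw [eY] at main
    obtain ⟨m1, m2, m3⟩ := main
    rw [eQd, eQt] at m2 m3 F
    -- B'
    generalize eB : repP (mB M k) (Ps.getD j []) (D ++ [zB M k] ++ A) = B' at m2 m3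
    have hb' := hb
    unfold entB flg at hb'
    rw [Bool.and_eq_true, decide_eq_true_eq, decide_eq_true_eq] at hb'
    have hB3 : B'.length = 3 := m3.trans hb'.1
    -- members
    have e1 : (Ps.drop (j + 1) ++ O :: Ps.take j).flatten = (Ps.drop (j + 1)).flatten ++ (O ++ (Ps.take j).flatten) := by
      rw [List.flatten_append, List.flatten_cons]
    have e2 : (D ++ [zB M k] ++ A).flatten = D.flatten ++ (zB M k ++ A.flatten) := by
      rw [List.flatten_append, List.flatten_append, List.flatten_singleton, List.append_assoc]
    have hP : ∀ a ∈ Ps.getD j [], a < M.length := fun a ha => nod_ltP h.nds hj ha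
    have hXf : ∀ a ∈ (Ps.drop (j + 1) ++ O :: Ps.take j).flatten, a < M.length := by
      intro a ha
      rw [e1] at ha
      exact nod_ltR h.nds ha
    have ha : ∀ a < M.length, ∀ b < M.length, adjB (mB M k) a b = adjB M a b := fun a h1 b h2 => mB_adj h h1 h2
    -- blocks of the orders of the child
    have hEP : ∀ v, v ∈ entE M Ps O Cs j ↔ v ∈ Ps.getD j [] := fun v => (h.ent j hj).mem_iff
    have hR0 : RpL (gN (mB M k)) (D.flatten ++ (zB M k ++ A.flatten)) (entE M Ps O Cs j) [x, y] := by
      refine nod_rpl hRW (fun v hv => ?_) fun v hv w hw => ?_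
      · have h3 := nod_cv_atd F hXf hP ha ((hEP v).1 hv)
        rw [e1, e2] at h3
        exact h3
      · have h3 := nod_cv_sr F hXf hP ha ((hEP v).1 hv) ((hEP w).1 hw)
        rw [e1, e2] at h3
        exact h3
    have hRv : ∀ v : Bool, RpL (gN (mB M k)) (D.flatten ++ (zB M k ++ A.flatten)) (ordE M Ps O Cs j v)
        (if v then [y, x] else [x, y]) := by
      intro v
      unfold ordE
      rw [hb, Bool.true_and]
      cases v
      · exact hR0
      · have h3 := rpl_rev hR0
        exact h3
    have eC : cst (cells M Ps O Cs (zB M k)) j u = if u then [y, x] else [x, y] := by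
      rw [nod_cst_lt hj]
      unfold cel
      rw [if_pos hb, eW]
      cases u <;> rfl
    have hWn : (if u then [y, x] else [x, y] : Ord).Nodup := by
      cases u
      · simp [hxy]
      · simp [hxy.symm]
    have hWl : (if u then [y, x] else [x, y] : Ord).length = 2 := by
      cases u <;> rfl
    have hWm : ∀ v ∈ (if u then [y, x] else [x, y] : Ord), v ∈ ordE M Ps O Cs j u := by
      intro v hv
      refine (pE u).mem_iff.2 ?_
      have h3 : v = x ∨ v = y := by
        cases u
        · simpa using hv
        · have h4 : v = y ∨ v = x := by simpa using hv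
          exact h4.symm
      rcases h3 with h4 | h4
      · rw [h4]
        exact hx
      · rw [h4]
        exact hy
    -- the given order
    have v1 : Val (gN M) (ordE M Ps O Cs j (φ j) ++ B') ∧ (ordE M Ps O Cs j (φ j) ++ B').Nodup ∧
        ∀ a ∈ ordE M Ps O Cs j (φ j) ++ B', a < M.length := by
      have hLs := back_ls h φ
      have hLl : ((List.range Ps.length).map fun i => ordE M Ps O Cs i (φ i)).length = Ps.length := by
        rw [List.length_map, List.length_range]
      have hLj : ((List.range Ps.length).map fun i => ordE M Ps O Cs i (φ i)).getD j [] = ordE M Ps O Cs j (φ j) := by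
        have h3 : j < ((List.range Ps.length).map fun i => ordE M Ps O Cs i (φ i)).length := by
          rw [hLl]
          exact hj
        rw [List.getD_eq_getElem (hn := h3), List.getElem_map, List.getElem_range]
      have hv := h.val
      have hnd : (outF M Ps O Cs φ ++ R).Nodup := by
        refine (List.Perm.nodup_iff ?_).1 (nod_nd h.nds)
        rw [back_outF]
        exact (List.Perm.flatten_congr hLs).append h.perm.symm
      rw [back_outF] at hv hnd
      generalize eL : ((List.range Ps.length).map fun i => ordE M Ps O Cs i (φ i)) = Ls at hv hnd hLs hLl hLj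
      have hsp := nod_split (Ps := Ls) (j := j) (by omega)
      rw [hLj] at hsp
      have hfl : Ls.flatten = (Ls.take j).flatten ++ (ordE M Ps O Cs j (φ j) ++ (Ls.drop (j + 1)).flatten) := by
        conv_lhs => rw [hsp]
        rw [List.flatten_append, List.flatten_cons]
      rw [hfl] at hv hnd
      have hv2 := (val_rot3 hnd).1 hv
      have hperm : (((Ls.take j).flatten ++ (ordE M Ps O Cs j (φ j) ++ (Ls.drop (j + 1)).flatten)) ++ R).Perm
          (ordE M Ps O Cs j (φ j) ++ ((Ls.drop (j + 1)).flatten ++ (R ++ (Ls.take j).flatten))) := by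
        rw [List.append_assoc, List.append_assoc]
        refine List.perm_append_comm.trans ?_
        rw [List.append_assoc, List.append_assoc]
      have hn2 : (ordE M Ps O Cs j (φ j) ++ ((Ls.drop (j + 1)).flatten ++ (R ++ (Ls.take j).flatten))).Nodup :=
        hperm.nodup_iff.1 hnd
      have hp2 : List.Forall₂ List.Perm (Ps.drop (j + 1) ++ O :: Ps.take j) (Ls.drop (j + 1) ++ R :: Ls.take j) := by
        refine List.rel_append ?_ (List.Forall₂.cons h.perm.symm ?_)
        · exact List.forall₂_drop _ hLs
        · exact List.forall₂_take _ hLs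
      have hsub : B'.Sublist ((Ls.drop (j + 1)).flatten ++ (R ++ (Ls.take j).flatten)) := by
        have e3 : (Ls.drop (j + 1)).flatten ++ (R ++ (Ls.take j).flatten) = (Ls.drop (j + 1) ++ R :: Ls.take j).flatten := by
          rw [List.flatten_append, List.flatten_cons]
        rw [e3, ← eB]
        refine rep_sub (back_f2 F hp2 ?_)
        intro X Q Z h3 h4 v hv
        have h5 := List.mem_filter.1 (List.mem_of_mem_take hv)
        exact h4.mem_iff.1 (h3.2.1 v h5.1 (nod_att.1 h5.2))
      have hs2 := List.Sublist.append (List.Sublist.refl (ordE M Ps O Cs j (φ j))) hsub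
      refine ⟨Val_sublist hs2 hn2 hv2, hn2.sublist hs2, ?_⟩
      intro a h3
      have h4 : a ∈ Ls.flatten ++ R := by
        rw [hfl]
        exact hperm.mem_iff.2 (hs2.subset h3)
      refine nod_lt h.nds ?_
      rcases List.mem_append.1 h4 with h5 | h5
      · exact List.mem_append_left _ ((List.Perm.flatten_congr hLs).mem_iff.2 h5)
      · exact List.mem_append_right _ (h.perm.mem_iff.1 h5)
    have v2 : Val (gN (mB M k)) (ordE M Ps O Cs j (φ j) ++ B') := by
      refine (Val_congr fun a h3 b h4 => ?_).2 v1.1
      have h5 := mB_adj h (v1.2.2 a h3) (v1.2.2 b h4)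
      exact ⟨fun h6 => h5.symm.trans h6, fun h6 => h5.trans h6⟩
    have v3 : Val (gN (mB M k)) (ordE M Ps O Cs j u ++ B') := by
      by_cases hu : φ j = u
      · rw [← hu]
        exact v2
      · have s1 : StL (gN (mB M k)) (ordE M Ps O Cs j (φ j)) (D.flatten ++ (zB M k ++ A.flatten)) :=
          stl_perm m1 (pE _) (List.Perm.refl _)
        have s2 : RpL (gN (mB M k)) (ordE M Ps O Cs j (φ j)) (D.flatten ++ (zB M k ++ A.flatten)) B' := rpl_perm m2 (pE _)
        have s3 : (wordB (mB M k) B' (ordE M Ps O Cs j (φ j))).length = 2 := by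
          rw [← rpl_map s2 (hRv (φ j)), List.length_map]
          cases φ j <;> rfl
        obtain ⟨b1, b2, b3, g1, g2, g3, g4, _⟩ := wd3_pal s1 s2 hB3 v2 s3
        have g5 := v1.2.1
        rw [g1] at v2 g5 ⊢
        have g6 := val_pal g5 g2 g3 g4 v2
        have e3 : (ordE M Ps O Cs j (φ j)).reverse = ordE M Ps O Cs j u := by
          unfold ordE
          rw [hb, Bool.true_and, Bool.true_and]
          cases hf : φ j <;> cases hu' : u
          · rw [hf, hu'] at hu
            exact absurd rfl hu
          · rfl
          · simp
          · rw [hf, hu'] at hu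
            exact absurd rfl hu
        rw [e3] at g6
        exact g6
    have hWnd : ((A.flatten ++ ((if u then [y, x] else [x, y] : Ord) ++ D.flatten)) ++ zB M k).Nodup := by
      have h3 : ((if u then [y, x] else [x, y] : Ord) ++ (D.flatten ++ (zB M k ++ A.flatten))).Nodup := by
        rw [List.nodup_append] at hnE ⊢
        exact ⟨hWn, hnE.2.1, fun a h3 b h4 => hnE.2.2 a (hWm a h3) b h4⟩
      refine (List.Perm.nodup_iff ?_).2 h3
      rw [List.append_assoc, List.append_assoc]
      refine List.perm_append_comm.trans ?_
      rw [List.append_assoc, List.append_assoc]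
    rw [eC] at hV
    have v4 := (val_rot3 hWnd).1 hV
    refine (val_rot3 hn).2 ?_
    exact glue5 (stl_perm m1 (pE u) (List.Perm.refl _)).ep (rpl_perm m2 (pE u)) (rpl_wr (hRv u)) (by rw [hB3, hWl]) v3 v4

/-- PROOF. Induction on t ≤ Ps.length: the lists 0, .., t - 1 are ordE .. i (f i), the lists from t on are the cells in state f i. back1 (cov_ordE, cov_cel). Start: ordC (cells ..) f = (flatMap over range Ps.length of the cells) ++ zB. -/
theorem backA (h : Hyn M Ps O Cs R φ k) (f : ℕ → Bool) (hV : Val (gN (mB M k)) (ordC (cells M Ps O Cs (zB M k)) f)) :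
    Val (gN (mB M k)) (outF M Ps O Cs f ++ zB M k) := by
  -- the lists number i in step t
  have hnd1 : ∀ {i : ℕ}, i < Ps.length → (Ps.getD i []).Nodup := fun {i} hi =>
    (List.nodup_flatten.1 (List.nodup_append.1 (nod_nd h.nds)).1).1 _ (nod_getD_mem hi)
  have hco : ∀ {i : ℕ}, i < Ps.length → (ordE M Ps O Cs i (f i)).Nodup ∧ ∀ x ∈ ordE M Ps O Cs i (f i), x ∈ Ps.getD i [] :=
    fun {i} hi => ⟨(ordE_perm h hi _).nodup_iff.2 (hnd1 hi), fun x hx => (ordE_perm h hi _).mem_iff.1 hx⟩
  have hcc : ∀ {i : ℕ}, i < Ps.length → (cst (cells M Ps O Cs (zB M k)) i (f i)).Nodup ∧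
      ∀ x ∈ cst (cells M Ps O Cs (zB M k)) i (f i), x ∈ Ps.getD i [] := by
    intro i hi
    constructor
    · rw [nod_cst_lt hi]
      unfold cel
      by_cases hb : entB M Ps O Cs i = true
      · rw [if_pos hb]
        obtain ⟨x, y, eW, _, _, hxy, _⟩ := entW_pair h hi hb
        rw [eW]
        cases f i
        · simp [hxy]
        · simp [hxy.symm]
      · rw [if_neg hb, ite_self]
        exact (h.ent i hi).nodup_iff.2 (hnd1 hi)
    · have h1 := cov_cel h i (by omega) (f i)
      unfold CvL at h1
      rw [if_pos hi] at h1
      exact h1.1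
  let g : ℕ → ℕ → Ord := fun t i => if i < t then ordE M Ps O Cs i (f i) else cst (cells M Ps O Cs (zB M k)) i (f i)
  have hg : ∀ t, ∀ {i : ℕ}, i < Ps.length → (g t i).Nodup ∧ ∀ x ∈ g t i, x ∈ Ps.getD i [] := by
    intro t i hi
    by_cases h1 : i < t
    · have e : g t i = ordE M Ps O Cs i (f i) := if_pos h1
      rw [e]
      exact hco hi
    · have e : g t i = cst (cells M Ps O Cs (zB M k)) i (f i) := if_neg h1
      rw [e]
      exact hcc hi
  have hcv : ∀ t, ∀ {i : ℕ}, i < Ps.length → CvL M Ps O k i (g t i) := by
    intro t i hi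
    by_cases h1 : i < t
    · have e : g t i = ordE M Ps O Cs i (f i) := if_pos h1
      rw [e]
      exact cov_ordE h i hi _
    · have e : g t i = cst (cells M Ps O Cs (zB M k)) i (f i) := if_neg h1
      rw [e]
      exact cov_cel h i (by omega) _
  have hN : ∀ t, (((List.range Ps.length).map (g t)).flatten ++ zB M k).Nodup := by
    intro t
    refine back_nd h (nod_f2 (by rw [List.length_map, List.length_range]) fun i hi => ?_)
    have h1 := hi
    rw [List.length_map, List.length_range] at hi
    rw [List.getD_eq_getElem (hn := h1), List.getElem_map, List.getElem_range]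
    exact hg t hi
  have main : ∀ t, t ≤ Ps.length → Val (gN (mB M k)) (((List.range Ps.length).map (g t)).flatten ++ zB M k) := by
    intro t
    induction t with
    | zero =>
      intro _
      have e : ordC (cells M Ps O Cs (zB M k)) f = ((List.range Ps.length).map (g 0)).flatten ++ zB M k := by
        have hl : (cells M Ps O Cs (zB M k)).length = Ps.length + 1 := by
          unfold cells
          rw [List.length_append, List.length_map, List.length_range, List.length_singleton]
        unfold ordC
        rw [hl, List.range_succ, List.flatMap_append, List.flatMap_singleton, nod_cst_len, List.flatMap_def]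
        rfl
      rw [← e]
      exact hV
    | succ t ih =>
      intro ht
      have ih' := ih (by omega)
      have er : List.range Ps.length = List.range t ++ t :: List.range' (t + 1) (Ps.length - (t + 1)) := by
        rw [List.range_eq_range', List.range_eq_range', ← List.range'_succ]
        have e := List.range'_append_1 (s := 0) (m := t) (n := Ps.length - (t + 1) + 1)
        rw [Nat.zero_add] at e
        rw [e]
        congr 1
        omega
      have e1 : ∀ s, ((List.range Ps.length).map (g s)).flatten = ((List.range t).map (g s)).flatten ++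
          (g s t ++ ((List.range' (t + 1) (Ps.length - (t + 1))).map (g s)).flatten) := by
        intro s
        rw [er, List.map_append, List.map_cons, List.flatten_append, List.flatten_cons]
      have eA : (List.range t).map (g (t + 1)) = (List.range t).map (g t) := by
        refine List.map_congr_left fun i hi => ?_
        have h1 := List.mem_range.1 hi
        have e2 : g (t + 1) i = ordE M Ps O Cs i (f i) := if_pos (by omega)
        have e3 : g t i = ordE M Ps O Cs i (f i) := if_pos h1
        rw [e2, e3]
      have eD : (List.range' (t + 1) (Ps.length - (t + 1))).map (g (t + 1)) =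
          (List.range' (t + 1) (Ps.length - (t + 1))).map (g t) := by
        refine List.map_congr_left fun i hi => ?_
        have h1 := List.mem_range'_1.1 hi
        have e2 : g (t + 1) i = cst (cells M Ps O Cs (zB M k)) i (f i) := if_neg (by omega)
        have e3 : g t i = cst (cells M Ps O Cs (zB M k)) i (f i) := if_neg (by omega)
        rw [e2, e3]
      have e2 : g (t + 1) t = ordE M Ps O Cs t (f t) := if_pos (by omega)
      have e3 : g t t = cst (cells M Ps O Cs (zB M k)) t (f t) := if_neg (by omega)
      have hn := hN (t + 1)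
      rw [e1, eA, eD, e2] at hn ⊢
      rw [e1, e3] at ih'
      refine back1 h (by omega) (f t) (by rw [List.length_map, List.length_range]) ?_ ?_ ?_ hn ih'
      · rw [List.length_map, List.length_range']
        omega
      · intro i hi
        have h1 : i < ((List.range t).map (g t)).length := by
          rw [List.length_map, List.length_range]
          exact hi
        rw [List.getD_eq_getElem (hn := h1), List.getElem_map, List.getElem_range]
        exact hcv t (by omega)
      · intro i hi hti
        have h1 : i - (t + 1) < ((List.range' (t + 1) (Ps.length - (t + 1))).map (g t)).length := by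
          rw [List.length_map, List.length_range']
          omega
        rw [List.getD_eq_getElem (hn := h1), List.getElem_map, List.getElem_range']
        have e4 : t + 1 + 1 * (i - (t + 1)) = i := by omega
        rw [e4]
        exact hcv t hi
  have h1 := main Ps.length (le_refl _)
  have e : ((List.range Ps.length).map (g Ps.length)).flatten = outF M Ps O Cs f := by
    rw [back_outF]
    congr 1
    refine List.map_congr_left fun i hi => ?_
    exact if_pos (List.mem_range.1 hi)
  rw [e] at h1
  exact h1

/-- PROOF. good M (outF f) k: word: wordB M k.2.1 (outF f) = wordB M k.2.1 (outF φ) = k.2.2: word_perm (both are concatenations of permutations of the parts; all members of a part which are attached to k.2.1 have the same row on k.2.1: Bic (gN M) O P from h.nds.bic, k.2.1 ⊆ R, R.Perm O). ctx: ctx_val, backA. Then h.key.all (outF f is a permutation of outF φ). -/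
theorem back_vo (h : Hyn M Ps O Cs R φ k) (f : ℕ → Bool) (hV : Val (gN (mB M k)) (ordC (cells M Ps O Cs (zB M k)) f)) :
    VO M (outF M Ps O Cs f ++ R) := by
  have p1 := back_ls h f
  have p2 := back_ls h φ
  have hp : (outF M Ps O Cs f).Perm (outF M Ps O Cs φ) := by
    rw [back_outF, back_outF]
    exact (List.Perm.flatten_congr p1).symm.trans (List.Perm.flatten_congr p2)
  refine h.key.all _ hp ?_
  have hg := h.key.good
  unfold Pool.Agent.SOK.good at hg ⊢
  rw [Bool.and_eq_true, decide_eq_true_eq] at hg ⊢
  refine ⟨?_, ?_⟩
  · rw [← hg.1, back_outF, back_outF]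
    refine word_perm (back_f2 p1 p2 fun x q z h1 h2 => h1.symm.trans h2) ?_
    intro L hL x hx y hy ax ay
    obtain ⟨i, hi, eL⟩ := List.mem_map.1 hL
    have hi' := List.mem_range.1 hi
    rw [← eL] at hx hy
    have hx' := (ordE_perm h hi' _).mem_iff.1 hx
    have hy' := (ordE_perm h hi' _).mem_iff.1 hy
    have hsub : ∀ s ∈ k.2.1, s ∈ O := fun s hs => h.perm.mem_iff.1 (h.key.sub s hs)
    have hbic : Bic (gN M) k.2.1 (Ps.getD i []) := fun a ha a' ha' b hb b' hb' h1 h2 =>
      nod_bicS (nod_bicO h.nds hi') a (hsub a ha) a' (hsub a' ha') b hb b' hb' h1 h2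
    exact nod_row.2 (nod_bicR hbic hx' hy' (nod_att.1 ax) (nod_att.1 ay))
  · have hnd : (outF M Ps O Cs f ++ zB M k).Nodup := by
      rw [back_outF]
      refine back_nd h (nod_f2 (by rw [List.length_map, List.length_range]) fun i hi => ?_)
      have h1 := hi
      rw [List.length_map, List.length_range] at hi
      rw [List.getD_eq_getElem (hn := h1), List.getElem_map, List.getElem_range]
      refine ⟨(ordE_perm h hi _).nodup_iff.2 ?_, fun x hx => (ordE_perm h hi _).mem_iff.1 hx⟩
      exact (List.nodup_flatten.1 (List.nodup_append.1 (nod_nd h.nds)).1).1 _ (nod_getD_mem hi)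
    exact (ctx_val hnd).2 (backA h f hV)

end Pool.Agent.SON
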