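import Pool.Agent.SON.Ifc
import Pool.Agent.SON.Wd
import Pool.Agent.SON.Pal
import Pool.Agent.SON.SdL

/-! Project SON (MP_66ba69_lc, the rigid step), module Dom (size 3): the chosen entry of one child.
-/

set_option autoImplicit false

namespace Pool.Agent.SON

open Pool.Agent.SOC Pool.Agent.SOD Pool.Agent.SOS Pool.Agent.SOV Pool.Agent.SOF Pool.Agent.SOT Pool.Agent.SOK Pool.Agent.SOY FP

variable {M M' : Mat} {S S' L L' R R' B W Y O : Ord} {G : SimpleGraph ℕ}

theorem Dom_headD_mem {α : Type} {l : List α} {d : α} (h : l ≠ []) : l.headD d ∈ l := by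
  cases l with
  | nil => exact absurd rfl h
  | cons a l => exact List.mem_cons_self

/-- the head of a concatenation is in the first list, if it is not empty -/
theorem Dom_headD_app {α : Type} {l l' : List α} {d : α} (h : l ≠ []) : (l ++ l').headD d ∈ l := by
  cases l with
  | nil => exact absurd rfl h
  | cons a l => exact List.mem_cons_self

theorem Dom_mem_cds {C : List Ord} : L ∈ cds M B C ↔ L ∈ C ∧ tOk M (L ++ B) = true := by
  unfold cds
  rw [List.mem_filter]

/-- the chosen entry is a candidate -/
theorem Dom_pick_mem {C : List Ord} (h : cds M B C ≠ []) : pick M B C ∈ cds M B C := by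
  unfold pick
  split_ifs with h2
  · have h1 := Dom_headD_mem (d := ([] : Ord)) (l := ((cds M B C).filter fun L => parB (wordB M B L) && gad M L B) ++
      (((cds M B C).filter fun L => parB (wordB M B L)) ++ cds M B C)) (by
        intro e
        rw [List.append_eq_nil_iff, List.append_eq_nil_iff] at e
        exact h e.2.2)
    rcases List.mem_append.1 h1 with h3 | h3
    · exact (List.mem_filter.1 h3).1
    · rcases List.mem_append.1 h3 with h4 | h4
      · exact (List.mem_filter.1 h4).1
      · exact h4
  · have h1 := Dom_headD_mem (d := ([] : Ord)) (l := ((cds M B C).filter fun L => decide ((wordB M B L).length = 2)) ++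
      cds M B C) (by
        intro e
        rw [List.append_eq_nil_iff] at e
        exact h e.2)
    rcases List.mem_append.1 h1 with h3 | h3
    · exact (List.mem_filter.1 h3).1
    · exact h3

/-- contexts with two blocks: the chosen entry is at least as good -/
theorem Dom_pick_two {C : List Ord} (hB : B.length = 2) (hL : L ∈ cds M B C) (hp : parB (wordB M B L) = true) :
    parB (wordB M B (pick M B C)) = true ∧ (gad M L B = true → gad M (pick M B C) B = true) := by
  have h2 : L ∈ (cds M B C).filter fun L => parB (wordB M B L) := List.mem_filter.2 ⟨hL, hp⟩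
  by_cases h1 : ((cds M B C).filter fun L => parB (wordB M B L) && gad M L B) = []
  · have e : pick M B C = ((((cds M B C).filter fun L => parB (wordB M B L)) ++ cds M B C)).headD [] := by
      unfold pick
      rw [if_pos hB, h1, List.nil_append]
    have h3 := Dom_headD_app (d := ([] : Ord)) (l' := cds M B C) (List.ne_nil_of_mem h2)
    rw [← e] at h3
    refine ⟨(List.mem_filter.1 h3).2, fun hg => ?_⟩
    exfalso
    have h4 : L ∈ (cds M B C).filter fun L => parB (wordB M B L) && gad M L B :=
      List.mem_filter.2 ⟨hL, by simp only [hp, hg, Bool.and_self]⟩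
    rw [h1] at h4
    exact absurd h4 List.not_mem_nil
  · have e : pick M B C = (((cds M B C).filter fun L => parB (wordB M B L) && gad M L B) ++
        (((cds M B C).filter fun L => parB (wordB M B L)) ++ cds M B C)).headD [] := by
      unfold pick
      rw [if_pos hB]
    have h3 := Dom_headD_app (d := ([] : Ord)) (l' := ((cds M B C).filter fun L => parB (wordB M B L)) ++ cds M B C) h1
    rw [← e] at h3
    have h4 := (List.mem_filter.1 h3).2
    simp only [Bool.and_eq_true] at h4
    exact ⟨h4.1, fun _ => h4.2⟩

/-- other contexts: the chosen entry has a word with two letters, if there is such an entry -/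
theorem Dom_pick_big {C : List Ord} (hB : B.length ≠ 2) (hL : L ∈ cds M B C) (h2 : (wordB M B L).length = 2) :
    (wordB M B (pick M B C)).length = 2 := by
  have h1 : L ∈ (cds M B C).filter fun L => decide ((wordB M B L).length = 2) :=
    List.mem_filter.2 ⟨hL, by simpa using h2⟩
  have e : pick M B C = (((cds M B C).filter fun L => decide ((wordB M B L).length = 2)) ++ cds M B C).headD [] := by
    unfold pick
    rw [if_neg hB]
  have h3 := Dom_headD_app (d := ([] : Ord)) (l' := cds M B C) (List.ne_nil_of_mem h1)
  rw [← e] at h3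
  simpa using (List.mem_filter.1 h3).2

/-- gluing, with representatives from another order -/
theorem Dom_glue {E : Ord} (hst : StL (gN M) L Y) (hnd : (L ++ Y).Nodup) (hR : RpL (gN M) L Y B) (hp : E.Perm L)
    (hV : Val (gN M) (L ++ Y)) (hE : Val (gN M) (E ++ B)) (hW : W.Sublist L) (hne : W ≠ [])
    (hw : W.map (rowB M B) = wordB M B E) (h5 : 5 ≤ B.length + W.length) : Val (gN M) (E ++ Y) := by
  have hLn : L.Nodup := (List.nodup_append.1 hnd).1
  have hWr : WrL (gN M) Y E W :=
    wr_of_word hR hp (hp.nodup_iff.2 hLn) (hW.nodup hLn) (fun w hw => hW.subset hw) hne hw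
  exact glue5 (stl_perm hst hp (List.Perm.refl _)).ep (rpl_perm hR hp) hWr h5 hE
    (Val_sublist (hW.append (List.Sublist.refl _)) hnd hV)

/-- PROOF. E := pick M B C. L ∈ cds M B C: L ∈ C, tOk M (L ++ B): B.Sublist Y (rpl_sub), Val_sublist, tOk_iff. So the list in the definition of pick is not empty and E ∈ cds M B C: E ∈ C, E.Perm L, Val (gN M) (E ++ B). If L.length = 1: E = L. Otherwise StL; B.length ≥ 2 (wd_ge).
B.length = 2: if parB (wordB M B L): L is in the second list, so E is in the first or in the second list, parB (wordB M B E); if moreover gad M L B, the first list is not empty and gad M E B. dom2. 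
B.length = 3: B = [b1, b2, b3]. Words have 2 or 3 letters (wd3_len). If flg M B C (wordB M B E has two letters): wordB M B L has two letters: it is wordB M B E or its reverse (wd3_two), or three letters: wordB M B E is a sublist of it (wd3_sub). Let WL := rep1 M B (L.filter (attB M B)): representatives, WL.map (rowB M B) = wordB M B L, WL.Sublist L.
Equal words: W := WL, wr_of_word: WrL (gN M) Y E W, Val (W ++ Y) (sublist), glue5 (3 + 2). Sublist: W := the corresponding sublist of WL (List.sublist_map_iff or exists_sublist..), the same. Reverse: the same for E.reverse (wordB M B E.reverse = (wordB M B E).reverse: wordB_rev of Wd), Val (E.reverse ++ B): val_pal with wd3_pal. EpL for E, E.reverse: epl_mem.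
If not flg: wordB M B E has three letters, L is in cds, so L has no 2-letter word (otherwise the first list in pick is not empty and its head E has a 2-letter word): three letters, wd3_eq: equal words, glue5 (3 + 3).
B.length ≥ 4: wd4: equal words, glue5 (4 + 1). -/
theorem dom1 {C : List Ord} (hn : ∀ x ∈ L ++ Y, x < M.length) (hst : 2 ≤ L.length → StL (gN M) L Y) (hnd : (L ++ Y).Nodup)
    (hR : RpL (gN M) L Y B) (hC : ∀ L' ∈ C, L'.Perm L ∧ L'.reverse ∈ C) (hL : L ∈ C) (hne : L ≠ []) (hV : Val (gN M) (L ++ Y)) :
    pick M B C ∈ C ∧ (Val (gN M) (pick M B C ++ Y) ∨ (flg M B C = true ∧ Val (gN M) ((pick M B C).reverse ++ Y))) := by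
  have hLn : L.Nodup := (List.nodup_append.1 hnd).1
  have hBY : B.Sublist Y := rpl_sub hR
  have hLBs : (L ++ B).Sublist (L ++ Y) := (List.Sublist.refl _).append hBY
  have hLBn : (L ++ B).Nodup := hLBs.nodup hnd
  have hVL : Val (gN M) (L ++ B) := Val_sublist hLBs hnd hV
  have hLc : L ∈ cds M B C := Dom_mem_cds.2 ⟨hL, (tOk_iff hLBn).2 hVL⟩
  have hEc : pick M B C ∈ cds M B C := Dom_pick_mem (List.ne_nil_of_mem hLc)
  have hEC : pick M B C ∈ C := (Dom_mem_cds.1 hEc).1
  have hpE : (pick M B C).Perm L := (hC _ hEC).1
  have hEBn : (pick M B C ++ B).Nodup := (hpE.append_right B).nodup_iff.2 hLBn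
  have hVE : Val (gN M) (pick M B C ++ B) := (tOk_iff hEBn).1 (Dom_mem_cds.1 hEc).2
  refine ⟨hEC, ?_⟩
  by_cases h2 : 2 ≤ L.length
  swap
  · left
    have h1 : L.length = 1 := by
      have := List.length_pos_of_ne_nil hne
      omega
    obtain ⟨a, ha⟩ := List.length_eq_one_iff.1 h1
    have h3 : pick M B C = L := by
      rw [ha] at hpE ⊢
      exact List.perm_singleton.1 hpE
    rw [h3]
    exact hV
  have hs := hst h2
  have hRE : RpL (gN M) (pick M B C) Y B := rpl_perm hR hpE
  have hsE : StL (gN M) (pick M B C) Y := stl_perm hs hpE (List.Perm.refl _)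
  have hB2 : 2 ≤ B.length := wd_ge hs hR
  -- representatives of the blocks of L
  have hat : ∃ x ∈ L, attB M Y x = true := by
    obtain ⟨b, hb⟩ : ∃ b, b ∈ B := List.exists_mem_of_length_pos (by omega)
    obtain ⟨hbY, x, hx, hbx⟩ := rpl_att hR b hb
    exact ⟨x, hx, List.any_eq_true.2 ⟨b, hbY, hbx.symm⟩⟩
  have hWL : RpL (gN M) Y L (rep1 M Y (L.filter (attB M Y))) := rpl_rep1 hLn hat
  obtain ⟨WL, hWd⟩ : ∃ WL, WL = rep1 M Y (L.filter (attB M Y)) := ⟨_, rfl⟩
  rw [← hWd] at hWL
  have hWs : WL.Sublist L := rpl_sub hWL
  have hWm : WL.map (rowB M B) = wordB M B L := rpl_map hR hWL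
  have hWl : WL.length = (wordB M B L).length := by rw [← hWm, List.length_map]
  have hWne : WL ≠ [] := by
    intro e
    have h3 : wordB M B L = [] := by rw [← hWm, e]; rfl
    -- the word is not empty
    obtain ⟨b, hb⟩ : ∃ b, b ∈ B := List.exists_mem_of_length_pos (by omega)
    obtain ⟨hbY, x, hx, hbx⟩ := rpl_att hR b hb
    have h4 : x ∈ L.filter (attB M B) := List.mem_filter.2 ⟨hx, List.any_eq_true.2 ⟨b, hb, hbx.symm⟩⟩
    obtain ⟨c, l, hcl⟩ := List.exists_cons_of_ne_nil (List.ne_nil_of_mem h4)
    unfold wordB at h3
    rw [hcl, List.map_cons] at h3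
    obtain ⟨l', hl'⟩ := dst_head (rowB M B c) (l.map (rowB M B))
    rw [hl'] at h3
    exact absurd h3 (List.cons_ne_nil _ _)
  by_cases hb2 : B.length = 2
  · left
    exact dom2 hs hpE hn hR hb2 hV hVE fun hpar => Dom_pick_two hb2 hLc hpar
  by_cases hb3 : B.length = 3
  · rcases wd3_len hsE hRE hb3 hVE with hE2 | hE3
    · have hfl : flg M B C = true := by
        unfold flg
        simp [hb3, hE2]
      rcases wd3_len hs hR hb3 hVL with hL2 | hL3
      · rcases wd3_two hs hR hb3 hpE hVL hVE hL2 hE2 with he | he
        · left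
          exact Dom_glue hs hnd hR hpE hV hVE hWs hWne (by rw [hWm, he]) (by omega)
        · right
          refine ⟨hfl, ?_⟩
          obtain ⟨b1, b2, b3, hBe, h13, h12, h23, _⟩ := wd3_pal hsE hRE hb3 hVE hE2
          have hrev : Val (gN M) ((pick M B C).reverse ++ [b1, b2, b3]) :=
            val_pal (by rw [← hBe]; exact hEBn) h13 h12 h23 (by rw [← hBe]; exact hVE)
          rw [← hBe] at hrev
          have hpr : (pick M B C).reverse.Perm L := (List.reverse_perm _).trans hpE
          refine Dom_glue hs hnd hR hpr hV hrev hWs hWne ?_ (by omega)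
          rw [hWm, wordB_rev, he, List.reverse_reverse]
      · left
        have hsub := wd3_sub hs hR hb3 hpE hVL hVE hL3 hE2
        rw [← hWm] at hsub
        obtain ⟨W, hW1, hW2⟩ := List.sublist_map_iff.1 hsub
        have hWl2 : W.length = 2 := by
          rw [← hE2, hW2, List.length_map]
        refine Dom_glue hs hnd hR hpE hV hVE (hW1.trans hWs) ?_ hW2.symm (by omega)
        intro e
        rw [e] at hWl2
        simp at hWl2
    · left
      have hL3 : (wordB M B L).length = 3 := by
        rcases wd3_len hs hR hb3 hVL with hL2 | hL3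
        · have := Dom_pick_big (M := M) (C := C) (by omega : B.length ≠ 2) hLc hL2
          omega
        · exact hL3
      have he := wd3_eq hs hR hb3 hpE hVL hVE hL3 hE3
      exact Dom_glue hs hnd hR hpE hV hVE hWs hWne (by rw [hWm, he]) (by omega)
  · left
    have hb4 : 4 ≤ B.length := by omega
    have he := wd4 hs hR hb4 hpE hVL hVE
    have := List.length_pos_of_ne_nil hWne
    exact Dom_glue hs hnd hR hpE hV hVE hWs hWne (by rw [hWm, he]) (by omega)

end Pool.Agent.SON
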