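import Pool.Agent.SON.Runs
import Pool.Agent.SON.SdL

/-! Project SON (MP_66ba69_lc, the rigid step), module Rest (size 3): the blocks of the rest of a node.
-/

set_option autoImplicit false

namespace Pool.Agent.SON

open Pool.Agent.SOC Pool.Agent.SOD Pool.Agent.SOS Pool.Agent.SOV Pool.Agent.SOF Pool.Agent.SOT Pool.Agent.SOK Pool.Agent.SOY FP

variable {M : Mat}

theorem rest_atp_mem {S X : Ord} {x : ℕ} (h : x ∈ atp M S X) : x ∈ X ∧ attB M S x = true :=
  List.mem_filter.1 (List.mem_of_mem_take h)

theorem rest_atp_len (M : Mat) (S X : Ord) : (atp M S X).length ≤ 1 := by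
  unfold atp
  rw [List.length_take]
  exact min_le_left _ _

/-- PROOF. rep1_sub and one_sub. -/
theorem rest_one {S : Ord} {Xs Qs : List Ord} (h : List.Forall₂ (fun X Q => ∀ x ∈ atp M S X, x ∈ Q) Xs Qs) :
    (Xs.flatMap (atp M S)).Sublist Qs.flatten := by
  rw [List.flatMap_def]
  refine one_sub ?_
  rw [List.forall₂_map_left_iff]
  exact h.imp fun X Q hXQ => ⟨rest_atp_len M S X, hXQ⟩

/-- PROOF. rpl_word. Sublist: repP M S Xs = rep1 .. is a sublist of Xs.flatMap (atp M S) = (Xs.map (atp M S)).flatten (rep1_sub), which is a sublist of Qs.flatten (one_sub: atp has at most one member, it is in Q). Attached: members of atp. Not empty: he gives Q with an attached member, so atp M S X ≠ [] for its X (hx), rep1_ne.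
Word: (repP M S Xs).map (rowB M S) = dst ((Xs.flatMap (atp M S)).map (rowB M S)) (rep1_map). wordB M S Qs.flatten = dst ((Qs.map fun Q => (Q.filter (attB M S)).map (rowB M S)).flatten) (List.filter_flatten, List.map_flatten); all attached members of Q have the same row on S: for attached q, q' in Q and s in S with adjB M q s: q' is adjacent to some s' in S, Bic (gN M) S Q for s, s', q, q' gives adjB M s q'.
dst_flat: take 1 of each. For each Q: if atp M S X = [x]: x ∈ Q is attached, so take 1 of the rows of Q is [rowB M S x]; if atp M S X = []: no member of Q is attached (hx). So both flatMaps are equal. -/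
theorem rest_rp {S : Ord} {Xs Qs : List Ord} (hn : Qs.flatten.Nodup) (hb : ∀ Q ∈ Qs, Bic (gN M) S Q)
    (hx : List.Forall₂ (fun X Q => (∀ x ∈ atp M S X, x ∈ Q) ∧ (atp M S X = [] → ∀ q ∈ Q, attB M S q = false)) Xs Qs)
    (he : ∃ q ∈ Qs.flatten, attB M S q = true) : RpL (gN M) S Qs.flatten (repP M S Xs) := by
  have hx1 : List.Forall₂ (fun X Q => ∀ x ∈ atp M S X, x ∈ Q) Xs Qs := hx.imp fun X Q h => h.1
  have hsub := rep1_sub M S (Xs.flatMap (atp M S))
  -- equal rows
  have hrow : ∀ Q ∈ Qs, ∀ q ∈ Q, ∀ q' ∈ Q, attB M S q = true → attB M S q' = true → rowB M S q = rowB M S q' := by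
    intro Q hQ
    have half : ∀ q ∈ Q, ∀ q' ∈ Q, attB M S q' = true → ∀ s ∈ S, adjB M q s = true → adjB M q' s = true := by
      intro q hq q' hq' ha' s hs hqs
      obtain ⟨s', hs', h'⟩ := sdl_att.1 ha'
      have e1 : (gN M).Adj s q := (show (gN M).Adj q s from hqs).symm
      have e2 : (gN M).Adj s' q' := h'.symm
      exact (hb Q hQ s hs s' hs' q hq q' hq' e1 e2).symm
    intro q hq q' hq' ha ha'
    rw [runs_row_iff]
    intro s hs
    rw [Bool.eq_iff_iff]
    exact ⟨half q hq q' hq' ha' s hs, half q' hq' q hq ha s hs⟩
  refine rpl_word hn (hsub.trans (rest_one hx1)) ?_ ?_ ?_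
  · intro b hb'
    obtain ⟨X, _, hbX⟩ := List.mem_flatMap.1 (hsub.subset hb')
    exact (rest_atp_mem hbX).2
  · unfold repP
    rw [rep1_map]
    unfold wordB
    rw [List.filter_flatten, List.map_flatten, List.map_map]
    have e1 : (List.map (rowB M S) ∘ List.filter (attB M S)) = fun s => (s.filter (attB M S)).map (rowB M S) := rfl
    rw [e1, dst_flat]
    · congr 1
      rw [List.map_flatMap, List.flatMap_map]
      clear hsub hx1 he hb hn
      induction hx with
      | nil => rfl
      | @cons X Q Xs Qs h1 h2 ih =>
        rw [List.flatMap_cons, List.flatMap_cons, ih fun Q' hQ' => hrow Q' (List.mem_cons_of_mem _ hQ')]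
        congr 1
        have hrQ := hrow Q List.mem_cons_self
        cases hX : atp M S X with
        | nil =>
          have h3 : Q.filter (attB M S) = [] := by
            rw [List.filter_eq_nil_iff]
            intro q hq
            rw [h1.2 hX q hq]
            simp
          rw [h3]
          rfl
        | cons x t =>
          have ht : t = [] := by
            have := rest_atp_len M S X
            rw [hX, List.length_cons] at this
            exact List.length_eq_zero_iff.1 (by omega)
          subst ht
          have hxm : x ∈ atp M S X := by rw [hX]; exact List.mem_cons_self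
          have g1 := h1.1 x hxm
          have g2 := (rest_atp_mem hxm).2
          have hne : Q.filter (attB M S) ≠ [] := List.ne_nil_of_mem (List.mem_filter.2 ⟨g1, g2⟩)
          obtain ⟨y, u, hu⟩ := List.exists_cons_of_ne_nil hne
          have hy : y ∈ Q.filter (attB M S) := by rw [hu]; exact List.mem_cons_self
          have hy' := List.mem_filter.1 hy
          rw [hu]
          simp [hrQ x g1 y hy'.1 g2 hy'.2]
    · intro T hT x hx0 y hy0
      obtain ⟨s, hs, rfl⟩ := List.mem_map.1 hT
      obtain ⟨x', hx1, rfl⟩ := List.mem_map.1 hx0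
      obtain ⟨y', hy1, rfl⟩ := List.mem_map.1 hy0
      have hx2 := List.mem_filter.1 hx1
      have hy2 := List.mem_filter.1 hy1
      exact hrow s hs x' hx2.1 y' hy2.1 hx2.2 hy2.2
  · refine rep1_ne ?_
    obtain ⟨q, hq, haq⟩ := he
    clear hsub hx1 hb hn hrow
    induction hx with
    | nil => simp at hq
    | @cons X Q Xs Qs h1 h2 ih =>
      rw [List.flatMap_cons]
      rw [List.flatten_cons, List.mem_append] at hq
      rcases hq with hq | hq
      · intro e
        have e' := (List.append_eq_nil_iff.1 e).1
        rw [h1.2 e' q hq] at haq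
        exact absurd haq (by decide)
      · intro e
        exact ih hq (List.append_eq_nil_iff.1 e).2

/-- PROOF. rep1_map; the flatMaps of the rows are equal. -/
theorem rep_rows {S : Ord} {Xs Xs' : List Ord}
    (h : List.Forall₂ (fun X X' => (atp M S X).map (rowB M S) = (atp M S X').map (rowB M S)) Xs Xs') :
    (repP M S Xs).map (rowB M S) = (repP M S Xs').map (rowB M S) := by
  unfold repP
  rw [rep1_map, rep1_map, List.map_flatMap, List.map_flatMap]
  congr 1
  induction h with
  | nil => rfl
  | @cons X X' Xs Xs' h1 h2 ih => rw [List.flatMap_cons, List.flatMap_cons, ih, h1]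

/-- PROOF. rep1_sub and one_sub. -/
theorem rep_sub {S : Ord} {Xs Qs : List Ord} (h : List.Forall₂ (fun X Q => ∀ x ∈ atp M S X, x ∈ Q) Xs Qs) :
    (repP M S Xs).Sublist Qs.flatten :=
  (rep1_sub M S _).trans (rest_one h)

/-- PROOF. wordB M B of the concatenation = dst of the concatenation of the lists of rows; each list is constant (hc), dst_flat; for L.Perm L' the first elements are equal since the lists are constant with the same members (or both empty). -/
theorem word_perm {B : Ord} {Ls Ls' : List Ord} (h : List.Forall₂ List.Perm Ls Ls')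
    (hc : ∀ L ∈ Ls, ∀ x ∈ L, ∀ y ∈ L, attB M B x = true → attB M B y = true → rowB M B x = rowB M B y) :
    wordB M B Ls.flatten = wordB M B Ls'.flatten := by
  have hc' : ∀ L ∈ Ls', ∀ x ∈ L, ∀ y ∈ L, attB M B x = true → attB M B y = true → rowB M B x = rowB M B y := by
    induction h with
    | nil => intro L hL; simp at hL
    | @cons L L' Ls Ls' h1 h2 ih =>
      intro T hT
      rcases List.mem_cons.1 hT with rfl | hT
      · intro x hx y hy
        exact hc L List.mem_cons_self x (h1.mem_iff.2 hx) y (h1.mem_iff.2 hy)
      · exact ih (fun L hL => hc L (List.mem_cons_of_mem _ hL)) T hT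
  have aux : ∀ Ts : List Ord, (∀ L ∈ Ts, ∀ x ∈ L, ∀ y ∈ L, attB M B x = true → attB M B y = true → rowB M B x = rowB M B y) →
      wordB M B Ts.flatten = dst ((Ts.map fun s => (s.filter (attB M B)).map (rowB M B)).flatMap fun s => s.take 1) := by
    intro Ts hTs
    unfold wordB
    rw [List.filter_flatten, List.map_flatten, List.map_map]
    have e1 : (List.map (rowB M B) ∘ List.filter (attB M B)) = fun s => (s.filter (attB M B)).map (rowB M B) := rfl
    rw [e1, dst_flat]
    intro T hT x hx0 y hy0
    obtain ⟨s, hs, rfl⟩ := List.mem_map.1 hT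
    obtain ⟨x', hx1, rfl⟩ := List.mem_map.1 hx0
    obtain ⟨y', hy1, rfl⟩ := List.mem_map.1 hy0
    have hx2 := List.mem_filter.1 hx1
    have hy2 := List.mem_filter.1 hy1
    exact hTs s hs x' hx2.1 y' hy2.1 hx2.2 hy2.2
  rw [aux Ls hc, aux Ls' hc']
  congr 1
  clear hc' aux
  induction h with
  | nil => rfl
  | @cons L L' Ls Ls' h1 h2 ih =>
    rw [List.map_cons, List.map_cons, List.flatMap_cons, List.flatMap_cons, ih fun T hT => hc T (List.mem_cons_of_mem _ hT)]
    congr 1
    have hL := hc L List.mem_cons_self
    have hp := h1.filter (attB M B)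
    cases h3 : L.filter (attB M B) with
    | nil =>
      rw [h3] at hp
      rw [hp.nil_eq]
    | cons x t =>
      cases h4 : L'.filter (attB M B) with
      | nil =>
        rw [h4] at hp
        rw [hp.eq_nil] at h3
        exact absurd h3.symm (List.cons_ne_nil _ _)
      | cons y u =>
        have hx : x ∈ L.filter (attB M B) := by rw [h3]; exact List.mem_cons_self
        have hy : y ∈ L.filter (attB M B) := hp.mem_iff.2 (by rw [h4]; exact List.mem_cons_self)
        have hx' := List.mem_filter.1 hx
        have hy' := List.mem_filter.1 hy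
        simp [hL x hx'.1 y hy'.1 hx'.2 hy'.2]

end Pool.Agent.SON
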