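import Pool.Agent.SON.Dom
import Pool.Agent.SON.Rest

/-! Project SON (MP_66ba69_lc, the rigid step), module DomA (size 3): the chosen entries of all children.
-/

set_option autoImplicit false

namespace Pool.Agent.SON

open Pool.Agent.SOC Pool.Agent.SOD Pool.Agent.SOS Pool.Agent.SOV Pool.Agent.SOF Pool.Agent.SOT Pool.Agent.SOK Pool.Agent.SOY FP

variable {M M' : Mat} {S S' L L' R R' B W Y O : Ord} {G : SimpleGraph ℕ}

theorem domA_f2mem {α β : Type} {r : α → β → Prop} {l1 : List α} {l2 : List β} (h : List.Forall₂ r l1 l2) :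
    ∀ b ∈ l2, ∃ a ∈ l1, r a b := by
  induction h with
  | nil => intro b hb; exact absurd hb (List.not_mem_nil)
  | cons h1 h2 ih =>
    intro b hb
    rcases List.mem_cons.1 hb with rfl | hb
    · exact ⟨_, List.mem_cons_self, h1⟩
    · obtain ⟨a, ha, hr⟩ := ih b hb
      exact ⟨a, List.mem_cons_of_mem _ ha, hr⟩

theorem domA_bic_symm {V : Type} {G : SimpleGraph V} {X Y : List V} (h : Bic G X Y) : Bic G Y X :=
  fun b hb b' hb' a ha a' ha' e e' => (h a' ha' a ha b' hb' b hb e'.symm e.symm).symm

theorem domA_bic_mem {V : Type} {G : SimpleGraph V} {X Y X' Y' : List V} (h : Bic G X Y) (hX : ∀ x ∈ X', x ∈ X)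
    (hY : ∀ y ∈ Y', y ∈ Y) : Bic G X' Y' :=
  fun a ha a' ha' b hb b' hb' e e' => h a (hX a ha) a' (hX a' ha') b (hY b hb) b' (hY b' hb') e e'

theorem domA_split {α : Type} (l : List α) (j : ℕ) (d : α) (hj : j < l.length) :
    l = l.take j ++ l.getD j d :: l.drop (j + 1) := by
  rw [List.getD_eq_getElem l d hj]
  conv_lhs => rw [← List.take_append_drop j l]
  congr 1
  exact List.drop_eq_getElem_cons hj

theorem domA_f2flat {Xs Ys : List Ord} (h : List.Forall₂ List.Perm Xs Ys) : Xs.flatten.Perm Ys.flatten := by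
  induction h with
  | nil => exact List.Perm.refl _
  | cons h1 h2 ih => 
    rw [List.flatten_cons, List.flatten_cons]
    exact h1.append ih

theorem domA_att {x : ℕ} : attB M S x = true ↔ Atd (gN M) S x := by
  unfold attB
  rw [List.any_eq_true]
  constructor
  · rintro ⟨y, hy, h⟩
    exact ⟨y, hy, h⟩
  · rintro ⟨y, hy, h⟩
    exact ⟨y, hy, h⟩

/-- the context of the child number j in an order of this form. PROOF. As above (rest_rp). -/
theorem ctx_rp {Ps Qs : List Ord} (hN : NdS M Ps O) (hQ : List.Forall₂ List.Perm Qs Ps) (hR : R.Perm O) {j : ℕ} (hj : j < Ps.length) :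
    RpL (gN M) (Ps.getD j []) ((Qs.drop (j + 1)).flatten ++ (R ++ (Qs.take j).flatten)) (ctxB M Ps O j) := by
  have hjQ : j < Qs.length := hQ.length_eq ▸ hj
  have eP := domA_split Ps j [] hj
  have eQ := domA_split Qs j [] hjQ
  have eF : (Qs.drop (j + 1)).flatten ++ (R ++ (Qs.take j).flatten) = (Qs.drop (j + 1) ++ R :: Qs.take j).flatten := by
    rw [List.flatten_append, List.flatten_cons]
  have hX : List.Forall₂ List.Perm (Qs.drop (j + 1) ++ R :: Qs.take j) (Ps.drop (j + 1) ++ O :: Ps.take j) :=
    List.rel_append (List.forall₂_drop (j + 1) hQ) (List.Forall₂.cons hR (List.forall₂_take j hQ))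
  have hbP : ∀ X ∈ Ps.drop (j + 1) ++ O :: Ps.take j, Bic (gN M) (Ps.getD j []) X := by
    have hp := hN.bic
    rw [eP] at hp
    rw [List.pairwise_cons, List.pairwise_append, List.pairwise_cons] at hp
    obtain ⟨h1, h2, ⟨h3, h4⟩, h5⟩ := hp
    intro X hX
    rcases List.mem_append.1 hX with hX | hX
    · exact h3 X hX
    · rcases List.mem_cons.1 hX with rfl | hX
      · exact domA_bic_symm (h1 _ (List.mem_append_right _ List.mem_cons_self))
      · exact domA_bic_symm (h5 X hX _ List.mem_cons_self)
  have hnd : (Qs.flatten ++ R).Nodup :=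
    ((((domA_f2flat hQ).append hR).trans hN.perm).nodup_iff).2 List.nodup_range
  rw [eF]
  have key := rest_rp (M := M) (S := Ps.getD j []) (Xs := Ps.drop (j + 1) ++ O :: Ps.take j)
    (Qs := Qs.drop (j + 1) ++ R :: Qs.take j) ?_ ?_ ?_ ?_
  · exact key
  · rw [← eF]
    have h1 : ((Qs.take j).flatten ++ (Qs.getD j [] ++ (Qs.drop (j + 1)).flatten) ++ R).Nodup := by
      have := hnd
      rw [eQ, List.flatten_append, List.flatten_cons] at this
      exact this
    have h2 : ((Qs.getD j []) ++ ((Qs.drop (j + 1)).flatten ++ (R ++ (Qs.take j).flatten))).Nodup := by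
      refine (List.Perm.nodup_iff ?_).1 h1
      have e1 : (Qs.take j).flatten ++ (Qs.getD j [] ++ (Qs.drop (j + 1)).flatten) ++ R =
        (Qs.take j).flatten ++ (Qs.getD j [] ++ ((Qs.drop (j + 1)).flatten ++ R)) := by simp
      have e2 : (Qs.getD j []) ++ ((Qs.drop (j + 1)).flatten ++ (R ++ (Qs.take j).flatten)) =
        (Qs.getD j [] ++ ((Qs.drop (j + 1)).flatten ++ R)) ++ (Qs.take j).flatten := by simp
      rw [e1, e2]
      exact List.perm_append_comm
    exact (List.nodup_append.1 h2).2.1
  · intro Q hQm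
    obtain ⟨X, hXm, hXQ⟩ := domA_f2mem hX.flip Q hQm
    exact domA_bic_mem (hbP X hXm) (fun x hx => hx) (fun y hy => hXQ.mem_iff.1 hy)
  · have h3 := hX.flip
    refine h3.imp ?_
    intro X Q hXQ
    have hXQ' : Q.Perm X := hXQ
    constructor
    · intro x hx
      have : x ∈ X.filter (attB M (Ps.getD j [])) := List.mem_of_mem_take hx
      exact hXQ'.mem_iff.2 (List.mem_filter.1 this).1
    · intro h q hq
      by_contra hc
      have hc' : attB M (Ps.getD j []) q = true := by
        cases hh : attB M (Ps.getD j []) q with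
        | false => exact absurd hh hc
        | true => rfl
      have hm : q ∈ X.filter (attB M (Ps.getD j [])) := List.mem_filter.2 ⟨hXQ'.mem_iff.1 hq, hc'⟩
      have hne : X.filter (attB M (Ps.getD j [])) ≠ [] := List.ne_nil_of_mem hm
      unfold atp at h
      rcases List.take_eq_nil_iff.1 h with h | h
      · exact absurd h one_ne_zero
      · exact hne h
  · obtain ⟨y, hy, hay⟩ := hN.con _ _ _ eP
    rw [← eF]
    refine ⟨y, ?_, hay⟩
    have hpp : ((Qs.drop (j + 1)).flatten ++ (R ++ (Qs.take j).flatten)).Perm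
        ((Ps.drop (j + 1)).flatten ++ (O ++ (Ps.take j).flatten)) :=
      (domA_f2flat (List.forall₂_drop (j + 1) hQ)).append (hR.append (domA_f2flat (List.forall₂_take j hQ)))
    exact hpp.mem_iff.2 hy

theorem domA_step {Ps : List Ord} {Cs : List (List Ord)} {Ls : List Ord} (hN : NdS M Ps O)
    (hC : List.Forall₂ (fun (C : List Ord) P => ∀ L ∈ C, L.Perm P ∧ L.reverse ∈ C) Cs Ps) (hL : List.Forall₂ (fun L (C : List Ord) => L ∈ C) Ls Cs)
    (hR : R.Perm O) (hV : Val (gN M) (Ls.flatten ++ R)) (k : ℕ) (hk : k ≤ Ps.length) :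
    ∃ (φ : ℕ → Bool) (Qs : List Ord), Qs.length = Ps.length ∧ (∀ j < k, Qs.getD j [] = ordE M Ps O Cs j (φ j)) ∧
      (∀ j, k ≤ j → j < Ps.length → Qs.getD j [] ∈ Cs.getD j []) ∧ Val (gN M) (Qs.flatten ++ R) ∧
      ∀ j < k, entE M Ps O Cs j ∈ Cs.getD j [] := by
  have lC : Cs.length = Ps.length := hC.length_eq
  have lL : Ls.length = Cs.length := hL.length_eq
  have hCj : ∀ j < Ps.length, ∀ L ∈ Cs.getD j [], L.Perm (Ps.getD j []) ∧ L.reverse ∈ Cs.getD j [] := by
    intro j hj
    have h1 := (List.forall₂_iff_get.1 hC).2 j (lC ▸ hj) hj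
    rw [List.getD_eq_getElem Ps [] hj, List.getD_eq_getElem Cs [] (lC ▸ hj)]
    exact h1
  induction k with
  | zero =>
    refine ⟨fun _ => false, Ls, lL.trans lC, fun j hj => absurd hj (Nat.not_lt_zero j), ?_, hV,
      fun j hj => absurd hj (Nat.not_lt_zero j)⟩
    intro j _ hj
    have hj1 : j < Cs.length := lC ▸ hj
    have hj2 : j < Ls.length := lL ▸ hj1
    have h1 := (List.forall₂_iff_get.1 hL).2 j hj2 hj1
    rw [List.getD_eq_getElem Ls [] hj2, List.getD_eq_getElem Cs [] hj1]
    exact h1
  | succ k ih =>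
    obtain ⟨φ, Qs, lQ, h1, h2, h3, h4⟩ := ih (Nat.le_of_succ_le hk)
    have hkP : k < Ps.length := hk
    have hkQ : k < Qs.length := lQ ▸ hkP
    have hperm : ∀ j < Ps.length, (Qs.getD j []).Perm (Ps.getD j []) := by
      intro j hj
      rcases lt_or_ge j k with h | h
      · rw [h1 j h]
        have hm := (hCj j hj _ (h4 j h)).1
        unfold ordE
        split
        · exact (List.reverse_perm _).trans hm
        · exact hm
      · exact (hCj j hj _ (h2 j h hj)).1
    have hQP : List.Forall₂ List.Perm Qs Ps := by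
      rw [List.forall₂_iff_get]
      refine ⟨lQ, ?_⟩
      intro i hi1 hi2
      have := hperm i hi2
      rw [List.getD_eq_getElem Ps [] hi2, List.getD_eq_getElem Qs [] hi1] at this
      exact this
    have eP := domA_split Ps k [] hkP
    have eQ := domA_split Qs k [] hkQ
    have hnd : (Qs.flatten ++ R).Perm (List.range M.length) := ((domA_f2flat hQP).append hR).trans hN.perm
    have eF : Qs.flatten ++ R = ((Qs.take k).flatten ++ (Qs.getD k [] ++ (Qs.drop (k + 1)).flatten)) ++ R := by
      conv_lhs => rw [eQ, List.flatten_append, List.flatten_cons]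
    have hnd1 : (((Qs.take k).flatten ++ (Qs.getD k [] ++ (Qs.drop (k + 1)).flatten)) ++ R).Nodup := by
      rw [← eF]
      exact (hnd.nodup_iff).2 List.nodup_range
    have hV1 : Val (gN M) (Qs.getD k [] ++ ((Qs.drop (k + 1)).flatten ++ (R ++ (Qs.take k).flatten))) := by
      rw [← val_rot3 hnd1, ← eF]
      exact h3
    have hrot : (Qs.getD k [] ++ ((Qs.drop (k + 1)).flatten ++ (R ++ (Qs.take k).flatten))).Perm (Qs.flatten ++ R) := by
      have e1 : Qs.flatten ++ R =
        (Qs.take k).flatten ++ (Qs.getD k [] ++ ((Qs.drop (k + 1)).flatten ++ R)) := by rw [eF]; simp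
      have e2 : (Qs.getD k []) ++ ((Qs.drop (k + 1)).flatten ++ (R ++ (Qs.take k).flatten)) =
        (Qs.getD k [] ++ ((Qs.drop (k + 1)).flatten ++ R)) ++ (Qs.take k).flatten := by simp
      rw [e1, e2]
      exact List.perm_append_comm
    have hLP : (Qs.getD k []).Perm (Ps.getD k []) := hperm k hkP
    have hYY : ((Qs.drop (k + 1)).flatten ++ (R ++ (Qs.take k).flatten)).Perm
        ((Ps.drop (k + 1)).flatten ++ (O ++ (Ps.take k).flatten)) :=
      (domA_f2flat (List.forall₂_drop (k + 1) hQP)).append (hR.append (domA_f2flat (List.forall₂_take k hQP)))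
    have hmain := dom1 (M := M) (L := Qs.getD k []) (Y := (Qs.drop (k + 1)).flatten ++ (R ++ (Qs.take k).flatten))
      (B := ctxB M Ps O k) (C := Cs.getD k []) ?_ ?_ ?_ ?_ ?_ ?_ ?_ hV1
    · have hstep : ∃ u : Bool, Val (gN M) (ordE M Ps O Cs k u ++ ((Qs.drop (k + 1)).flatten ++ (R ++ (Qs.take k).flatten))) := by
        rcases hmain.2 with h | ⟨hf, h⟩
        · refine ⟨false, ?_⟩
          have e : ordE M Ps O Cs k false = pick M (ctxB M Ps O k) (Cs.getD k []) := by
            unfold ordE entE
            rw [Bool.and_false, if_neg (by decide)]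
          rw [e]
          exact h
        · refine ⟨true, ?_⟩
          have e : ordE M Ps O Cs k true = (pick M (ctxB M Ps O k) (Cs.getD k [])).reverse := by
            have hf' : entB M Ps O Cs k = true := hf
            unfold ordE
            rw [hf', Bool.true_and, if_pos rfl]
            rfl
          rw [e]
          exact h
      obtain ⟨u, hu⟩ := hstep
      have hEm : entE M Ps O Cs k ∈ Cs.getD k [] := hmain.1
      have hOP : (ordE M Ps O Cs k u).Perm (Qs.getD k []) := by
        have hm := (hCj k hkP _ hEm).1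
        refine List.Perm.trans ?_ hLP.symm
        unfold ordE
        split
        · exact (List.reverse_perm _).trans hm
        · exact hm
      refine ⟨Function.update φ k u, Qs.set k (ordE M Ps O Cs k u), by rw [List.length_set]; exact lQ, ?_, ?_, ?_, ?_⟩
      · intro j hj
        rcases Nat.lt_succ_iff_lt_or_eq.1 hj with h | h
        · have hne : k ≠ j := (ne_of_lt h).symm
          rw [Function.update_of_ne (ne_of_lt h), ← h1 j h]
          simp only [List.getD_eq_getElem?_getD]
          rw [List.getElem?_set_ne hne]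
        · subst h
          rw [Function.update_self]
          simp only [List.getD_eq_getElem?_getD]
          rw [List.getElem?_set_self hkQ]
          rfl
      · intro j hj hj'
        have hne : k ≠ j := ne_of_lt hj
        simp only [List.getD_eq_getElem?_getD]
        rw [List.getElem?_set_ne hne]
        have := h2 j (Nat.le_of_succ_le hj) hj'
        simp only [List.getD_eq_getElem?_getD] at this
        exact this
      · have eS : (Qs.set k (ordE M Ps O Cs k u)).flatten ++ R =
            ((Qs.take k).flatten ++ (ordE M Ps O Cs k u ++ (Qs.drop (k + 1)).flatten)) ++ R := by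
          rw [List.set_eq_take_append_cons_drop, if_pos hkQ, List.flatten_append, List.flatten_cons]
        rw [eS]
        refine (val_rot3 ?_).2 hu
        refine (List.Perm.nodup_iff ?_).2 hnd1
        exact (((List.Perm.refl _).append (hOP.append (List.Perm.refl _)))).append (List.Perm.refl _)
      · intro j hj
        rcases Nat.lt_succ_iff_lt_or_eq.1 hj with h | h
        · exact h4 j h
        · subst h
          exact hEm
    · intro x hx
      exact List.mem_range.1 (hnd.mem_iff.1 (hrot.mem_iff.1 hx))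
    · intro hl
      have hs := hN.st _ _ _ eP (by rw [← hLP.length_eq]; exact hl)
      exact stl_perm hs hLP hYY
    · exact (hrot.nodup_iff).2 ((hnd.nodup_iff).2 List.nodup_range)
    · exact rpl_perm (ctx_rp hN hQP hR hkP) hLP
    · intro L' hL'
      have := hCj k hkP L' hL'
      exact ⟨this.1.trans hLP.symm, this.2⟩
    · exact h2 k le_rfl hkP
    · intro h
      rw [h] at hLP
      have hP0 : Ps.getD k [] = [] := List.nil_perm.1 hLP
      refine hN.ne (Ps.getD k []) ?_ hP0
      rw [List.getD_eq_getElem Ps [] hkP]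
      exact List.getElem_mem hkP

/-- PROOF. By induction on k: for k ≤ Ps.length there are φ and a list Qs of orders, Qs.length = Ps.length, Qs[j] = ordE M Ps O Cs j (φ j) for j < k, Qs[j] ∈ Cs[j] for k ≤ j, with Val (gN M) (Qs.flatten ++ R), and entE .. j ∈ Cs[j] for j < k. Step: Qs = A ++ L :: D with A.length = k. All lists of Qs are permutations of the members of Ps (ordE is an entry or a reversed entry, hC).
val_rot3: Val (gN M) (L ++ (D.flatten ++ (R ++ A.flatten))). With P := Ps[k], Ps = A' ++ P :: D': Y := D.flatten ++ (R ++ A.flatten) = (D ++ R :: A).flatten. RpL (gN M) P Y (ctxB M Ps O k): rest_rp with Xs := Ps.drop (k + 1) ++ O :: Ps.take k, Qs := D ++ R :: A (memberwise permutations: atp members are in the permuted list, no attached members if atp = [] since atp = (filter ..).take 1), Bic (gN M) P Q from hN.bic (Pairwise; Bic is symmetric) and memberwise permutation,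
he from hN.con. rpl_perm to L. StL: hN.st, stl_perm. dom1 (C := Cs[k]; L ≠ [] since P ≠ []). Set φ k := false or true according to the result. -/
theorem domA {Ps : List Ord} {Cs : List (List Ord)} {Ls : List Ord} (hN : NdS M Ps O)
    (hC : List.Forall₂ (fun (C : List Ord) P => ∀ L ∈ C, L.Perm P ∧ L.reverse ∈ C) Cs Ps) (hL : List.Forall₂ (fun L (C : List Ord) => L ∈ C) Ls Cs)
    (hR : R.Perm O) (hV : Val (gN M) (Ls.flatten ++ R)) :
    (∃ φ : ℕ → Bool, Val (gN M) (outF M Ps O Cs φ ++ R)) ∧ ∀ j < Ps.length, entE M Ps O Cs j ∈ Cs.getD j [] := by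
  obtain ⟨φ, Qs, lQ, h1, _, h3, h4⟩ := domA_step hN hC hL hR hV Ps.length le_rfl
  refine ⟨⟨φ, ?_⟩, h4⟩
  have e : Qs = (List.range Ps.length).map fun j => ordE M Ps O Cs j (φ j) := by
    apply List.ext_getElem
    · rw [List.length_map, List.length_range]; exact lQ
    · intro i hi1 hi2
      rw [List.getElem_map, List.getElem_range]
      have := h1 i (lQ ▸ hi1)
      rw [List.getD_eq_getElem Qs [] hi1] at this
      exact this
  have e2 : outF M Ps O Cs φ = Qs.flatten := by
    unfold outF
    rw [e, List.flatMap_def]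
  rw [e2]
  exact h3

end Pool.Agent.SON
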