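import Pool.Agent.SOI.Defs
import Pool.Agent.SOY.YP

/-! Project SON (MP_66ba69_lc, the rigid step), module PolI (size 2): polynomial time of the parameters.
-/

set_option autoImplicit false

namespace Pool.Agent.SON

open Pool.Agent.SOC Pool.Agent.SOD Pool.Agent.SOS Pool.Agent.SOV Pool.Agent.SOF Pool.Agent.SOT Pool.Agent.SOK Pool.Agent.SOY FP Pool.Agent.SOX Pool.Agent.SOI

/-- auxiliary: exclusive or -/
theorem PolI_xor {α : Type} [Code α] {u v : α → Bool} (hu : Poly u) (hv : Poly v) : Poly (fun p => xor (u p) (v p)) := by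
  have h : Poly (fun p => (u p && !(v p)) || (!(u p) && v p)) :=
    Poly.or (Poly.and hu (Poly.not hv)) (Poly.and (Poly.not hu) hv)
  refine h.congr (fun p => ?_)
  cases u p <;> cases v p <;> rfl

/-- auxiliary: the constant state -/
theorem PolI_rd : rd [] [] = fun _ : ℕ => false := by
  funext v
  simp [rd]

theorem PolI_crC {α : Type} [Code α] {C : α → List Cell} {a b c d : α → ℕ} (hC : Poly C) (ha : Poly a) (hb : Poly b) (hc : Poly c)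
    (hd : Poly d) : Poly (fun p => crC (C p) (fun _ => false) (a p) (b p) (c p) (d p)) := by
  have h := poly_crC (sc := fun _ : α => []) (r := fun _ : α => []) hC (FP.Poly.const []) (FP.Poly.const []) ha hb hc hd
  refine h.congr (fun p => ?_)
  rw [PolI_rd]

theorem PolI_sep {α : Type} [Code α] {M : α → Mat} {C : α → List Cell} {x y a b : α → ℕ} (hM : Poly M) (hC : Poly C) (hx : Poly x)
    (hy : Poly y) (ha : Poly a) (hb : Poly b) : Poly (fun p => sepB (M p) (C p) (x p) (y p) (a p) (b p)) := by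
  unfold sepB
  have h0 : Poly (fun p => L0 (C p)) := poly_ordC0 hC
  refine Poly.any (f := fun p => L0 (C p)) (g := fun p f => decide (f ≠ x p) && (decide (f ≠ y p) && (xor (adjB (M p) f (x p))
    (adjB (M p) f (y p)) && crC (C p) (fun _ => false) (a p) (b p) f (x p)))) h0 ?_
  have hM' : Poly (fun q : α × ℕ => M q.1) := hM.comp Poly.fst'
  have hC' : Poly (fun q : α × ℕ => C q.1) := hC.comp Poly.fst'
  have hx' : Poly (fun q : α × ℕ => x q.1) := hx.comp Poly.fst'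
  have hy' : Poly (fun q : α × ℕ => y q.1) := hy.comp Poly.fst'
  have ha' : Poly (fun q : α × ℕ => a q.1) := ha.comp Poly.fst'
  have hb' : Poly (fun q : α × ℕ => b q.1) := hb.comp Poly.fst'
  have h2 : Poly (fun q : α × ℕ => q.2) := Poly.snd'
  exact Poly.and (poly_ne h2 hx') (Poly.and (poly_ne h2 hy') (Poly.and (PolI_xor (AlgoPoly_adjB hM' h2 hx') (AlgoPoly_adjB hM' h2 hy'))
    (PolI_crC hC' ha' hb' h2 hx')))

theorem PolI_prs {α : Type} [Code α] {C : α → List Cell} {F : α → List ℕ} (hC : Poly C) (hF : Poly F) :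
    Poly (fun p => prsF (C p) (F p)) := by
  unfold prsF
  refine Poly.flatMap (f := F) (g := fun p i => (cst (C p) i false).flatMap fun x => ((cst (C p) i false).filter fun y =>
    decide (x ≠ y)).map fun y => (x, y)) hF ?_
  have hC' : Poly (fun q : α × ℕ => C q.1) := hC.comp Poly.fst'
  have h1 : Poly (fun q : α × ℕ => cst (C q.1) q.2 false) := poly_cst hC' Poly.snd' (FP.Poly.const false)
  refine Poly.flatMap (f := fun q : α × ℕ => cst (C q.1) q.2 false) (g := fun (q : α × ℕ) x => ((cst (C q.1) q.2 false).filter fun y =>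
    decide (x ≠ y)).map fun y => (x, y)) h1 ?_
  have h2 : Poly (fun q : (α × ℕ) × ℕ => cst (C q.1.1) q.1.2 false) := h1.comp Poly.fst'
  have h3 : Poly (fun q : (α × ℕ) × ℕ => (cst (C q.1.1) q.1.2 false).filter fun y => decide (q.2 ≠ y)) := by
    refine Poly.filter (f := fun q : (α × ℕ) × ℕ => cst (C q.1.1) q.1.2 false) (g := fun (q : (α × ℕ) × ℕ) y => decide (q.2 ≠ y)) h2 ?_
    exact poly_ne (by fun_prop) (by fun_prop)
  refine FP.Poly.map (f := fun q : (α × ℕ) × ℕ => (cst (C q.1.1) q.1.2 false).filter fun y => decide (q.2 ≠ y))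
    (g := fun (q : (α × ℕ) × ℕ) y => (q.2, y)) h3 ?_
  fun_prop

theorem PolI_u1a {α : Type} [Code α] {M : α → Mat} {C : α → List Cell} {F : α → List ℕ} (t : Bool) (hM : Poly M) (hC : Poly C)
    (hF : Poly F) : Poly (fun p => u1a (M p) (C p) (F p) t) := by
  unfold u1a
  have h0 : Poly (fun p => L0 (C p)) := poly_ordC0 hC
  refine Poly.flatMap (f := fun p => prsF (C p) (F p)) (g := fun p (w : ℕ × ℕ) => (L0 (C p)).flatMap fun a =>
    ((L0 (C p)).filter fun b => k4B (M p) w.1 w.2 a b && decide (sepB (M p) (C p) w.1 w.2 a b = t)).map fun b => (w.1, w.2, a, b))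
    (PolI_prs hC hF) ?_
  have h1 : Poly (fun q : α × (ℕ × ℕ) => L0 (C q.1)) := h0.comp Poly.fst'
  refine Poly.flatMap (f := fun q : α × (ℕ × ℕ) => L0 (C q.1)) (g := fun (q : α × (ℕ × ℕ)) a =>
    ((L0 (C q.1)).filter fun b => k4B (M q.1) q.2.1 q.2.2 a b && decide (sepB (M q.1) (C q.1) q.2.1 q.2.2 a b = t)).map
      fun b => (q.2.1, q.2.2, a, b)) h1 ?_
  have h2 : Poly (fun q : (α × (ℕ × ℕ)) × ℕ => L0 (C q.1.1)) := h1.comp Poly.fst'
  have h3 : Poly (fun q : (α × (ℕ × ℕ)) × ℕ => (L0 (C q.1.1)).filter fun b => k4B (M q.1.1) q.1.2.1 q.1.2.2 q.2 b &&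
      decide (sepB (M q.1.1) (C q.1.1) q.1.2.1 q.1.2.2 q.2 b = t)) := by
    refine Poly.filter (f := fun q : (α × (ℕ × ℕ)) × ℕ => L0 (C q.1.1)) (g := fun (q : (α × (ℕ × ℕ)) × ℕ) b =>
      k4B (M q.1.1) q.1.2.1 q.1.2.2 q.2 b && decide (sepB (M q.1.1) (C q.1.1) q.1.2.1 q.1.2.2 q.2 b = t)) h2 ?_
    have hM' : Poly (fun q : ((α × (ℕ × ℕ)) × ℕ) × ℕ => M q.1.1.1) :=
      hM.comp (f := fun q : ((α × (ℕ × ℕ)) × ℕ) × ℕ => q.1.1.1) (by fun_prop)
    have hC' : Poly (fun q : ((α × (ℕ × ℕ)) × ℕ) × ℕ => C q.1.1.1) :=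
      hC.comp (f := fun q : ((α × (ℕ × ℕ)) × ℕ) × ℕ => q.1.1.1) (by fun_prop)
    have e1 : Poly (fun q : ((α × (ℕ × ℕ)) × ℕ) × ℕ => q.1.1.2.1) := by fun_prop
    have e2 : Poly (fun q : ((α × (ℕ × ℕ)) × ℕ) × ℕ => q.1.1.2.2) := by fun_prop
    have e3 : Poly (fun q : ((α × (ℕ × ℕ)) × ℕ) × ℕ => q.1.2) := by fun_prop
    have e4 : Poly (fun q : ((α × (ℕ × ℕ)) × ℕ) × ℕ => q.2) := by fun_prop
    exact Poly.and (poly_k4B hM' e1 e2 e3 e4) (Poly.decideEq (PolI_sep hM' hC' e1 e2 e3 e4) (FP.Poly.const t))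
  refine FP.Poly.map (f := fun q : (α × (ℕ × ℕ)) × ℕ => (L0 (C q.1.1)).filter fun b => k4B (M q.1.1) q.1.2.1 q.1.2.2 q.2 b &&
      decide (sepB (M q.1.1) (C q.1.1) q.1.2.1 q.1.2.2 q.2 b = t)) (g := fun (q : (α × (ℕ × ℕ)) × ℕ) b =>
      (q.1.2.1, q.1.2.2, q.2, b)) h3 ?_
  fun_prop

theorem PolI_u1b {α : Type} [Code α] {M : α → Mat} {C : α → List Cell} {F : α → List ℕ} (hM : Poly M) (hC : Poly C)
    (hF : Poly F) : Poly (fun p => u1b (M p) (C p) (F p)) := by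
  unfold u1b
  have h0 : Poly (fun p => L0 (C p)) := poly_ordC0 hC
  refine Poly.flatMap (f := fun p => prsF (C p) (F p)) (g := fun p (w : ℕ × ℕ) => (L0 (C p)).flatMap fun a => (L0 (C p)).flatMap fun b =>
    ((L0 (C p)).filter fun c => k5B (M p) w.1 w.2 a b c && (sepB (M p) (C p) w.1 w.2 a b && sepB (M p) (C p) w.1 w.2 a c)).map
      fun c => (w.1, a, b, c)) (PolI_prs hC hF) ?_
  have h1 : Poly (fun q : α × (ℕ × ℕ) => L0 (C q.1)) := h0.comp Poly.fst'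
  refine Poly.flatMap (f := fun q : α × (ℕ × ℕ) => L0 (C q.1)) (g := fun (q : α × (ℕ × ℕ)) a => (L0 (C q.1)).flatMap fun b =>
    ((L0 (C q.1)).filter fun c => k5B (M q.1) q.2.1 q.2.2 a b c && (sepB (M q.1) (C q.1) q.2.1 q.2.2 a b &&
      sepB (M q.1) (C q.1) q.2.1 q.2.2 a c)).map fun c => (q.2.1, a, b, c)) h1 ?_
  have h2 : Poly (fun q : (α × (ℕ × ℕ)) × ℕ => L0 (C q.1.1)) := h1.comp Poly.fst'
  refine Poly.flatMap (f := fun q : (α × (ℕ × ℕ)) × ℕ => L0 (C q.1.1)) (g := fun (q : (α × (ℕ × ℕ)) × ℕ) b =>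
    ((L0 (C q.1.1)).filter fun c => k5B (M q.1.1) q.1.2.1 q.1.2.2 q.2 b c && (sepB (M q.1.1) (C q.1.1) q.1.2.1 q.1.2.2 q.2 b &&
      sepB (M q.1.1) (C q.1.1) q.1.2.1 q.1.2.2 q.2 c)).map fun c => (q.1.2.1, q.2, b, c)) h2 ?_
  have h3 : Poly (fun q : ((α × (ℕ × ℕ)) × ℕ) × ℕ => L0 (C q.1.1.1)) := h2.comp Poly.fst'
  have h4 : Poly (fun q : ((α × (ℕ × ℕ)) × ℕ) × ℕ => (L0 (C q.1.1.1)).filter fun c => k5B (M q.1.1.1) q.1.1.2.1 q.1.1.2.2 q.1.2 q.2 c &&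
      (sepB (M q.1.1.1) (C q.1.1.1) q.1.1.2.1 q.1.1.2.2 q.1.2 q.2 && sepB (M q.1.1.1) (C q.1.1.1) q.1.1.2.1 q.1.1.2.2 q.1.2 c)) := by
    refine Poly.filter (f := fun q : ((α × (ℕ × ℕ)) × ℕ) × ℕ => L0 (C q.1.1.1)) (g := fun (q : ((α × (ℕ × ℕ)) × ℕ) × ℕ) c =>
      k5B (M q.1.1.1) q.1.1.2.1 q.1.1.2.2 q.1.2 q.2 c &&
      (sepB (M q.1.1.1) (C q.1.1.1) q.1.1.2.1 q.1.1.2.2 q.1.2 q.2 && sepB (M q.1.1.1) (C q.1.1.1) q.1.1.2.1 q.1.1.2.2 q.1.2 c)) h3 ?_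
    have hM' : Poly (fun q : (((α × (ℕ × ℕ)) × ℕ) × ℕ) × ℕ => M q.1.1.1.1) :=
      hM.comp (f := fun q : (((α × (ℕ × ℕ)) × ℕ) × ℕ) × ℕ => q.1.1.1.1) (by fun_prop)
    have hC' : Poly (fun q : (((α × (ℕ × ℕ)) × ℕ) × ℕ) × ℕ => C q.1.1.1.1) :=
      hC.comp (f := fun q : (((α × (ℕ × ℕ)) × ℕ) × ℕ) × ℕ => q.1.1.1.1) (by fun_prop)
    have e1 : Poly (fun q : (((α × (ℕ × ℕ)) × ℕ) × ℕ) × ℕ => q.1.1.1.2.1) := by fun_prop
    have e2 : Poly (fun q : (((α × (ℕ × ℕ)) × ℕ) × ℕ) × ℕ => q.1.1.1.2.2) := by fun_prop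
    have e3 : Poly (fun q : (((α × (ℕ × ℕ)) × ℕ) × ℕ) × ℕ => q.1.1.2) := by fun_prop
    have e4 : Poly (fun q : (((α × (ℕ × ℕ)) × ℕ) × ℕ) × ℕ => q.1.2) := by fun_prop
    have e5 : Poly (fun q : (((α × (ℕ × ℕ)) × ℕ) × ℕ) × ℕ => q.2) := by fun_prop
    exact Poly.and (poly_k5B hM' e1 e2 e3 e4 e5) (Poly.and (PolI_sep hM' hC' e1 e2 e3 e4) (PolI_sep hM' hC' e1 e2 e3 e5))
  refine FP.Poly.map (f := fun q : ((α × (ℕ × ℕ)) × ℕ) × ℕ => (L0 (C q.1.1.1)).filter fun c =>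
      k5B (M q.1.1.1) q.1.1.2.1 q.1.1.2.2 q.1.2 q.2 c &&
      (sepB (M q.1.1.1) (C q.1.1.1) q.1.1.2.1 q.1.1.2.2 q.1.2 q.2 && sepB (M q.1.1.1) (C q.1.1.1) q.1.1.2.1 q.1.1.2.2 q.1.2 c))
      (g := fun (q : ((α × (ℕ × ℕ)) × ℕ) × ℕ) c => (q.1.1.2.1, q.1.2, q.2, c)) h4 ?_
  fun_prop

/-- PROOF. L0 = ordC with the constant state (poly_ordC0), sepB: Poly.any over L0 C, poly_crC needs a state given by a list: (fun _ => false) = val [] or rd [] [] (look at YP.lean), or prove it as in YP. prsF: flatMap over F, poly_cst. u1a, u1b: flatMap, filter, map; k4B, k5B: SOV (poly_k4B, poly_k5B), crB. -/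
theorem poly_prm {α : Type} [Code α] {M : α → Mat} {C : α → List Cell} {F : α → List ℕ} (hM : Poly M) (hC : Poly C) (hF : Poly F) :
    Poly (fun a => Pool.Agent.SOI.prm (M a) (C a) (F a)) := by
  unfold Pool.Agent.SOI.prm
  exact Poly.pair hF (Poly.pair (FP.Poly.const []) (Poly.pair (Poly.append (PolI_u1a false hM hC hF) (PolI_u1b hM hC hF))
    (PolI_u1a true hM hC hF)))

end Pool.Agent.SON
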