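import Pool.Agent.SON.Main
import Pool.Agent.SON.PolI
import Pool.Agent.SOY.YP
import Pool.Agent.SOT.PolE
import Pool.Agent.SOX.FP

/-! Project SON (MP_66ba69_lc, the rigid step), module Pol (size 3): polynomial time.
-/

set_option autoImplicit false

namespace Pool.Agent.SON

open Pool.Agent.SOC Pool.Agent.SOD Pool.Agent.SOS Pool.Agent.SOV Pool.Agent.SOF Pool.Agent.SOT Pool.Agent.SOK Pool.Agent.SOY FP Pool.Agent.SOB Pool.Agent.SOX

variable {α : Type} [Code α] {M : α → Mat} {S A X B E Z O : α → Ord} {Xs Ps : α → List Ord} {C : α → List Ord} {Cs : α → List (List Ord)} {k : α → Ky} {j : α → ℕ} {u : α → Bool}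

/-- PROOF. As SOK.poly_dst, with poly_rowB. -/
theorem poly_rep1 (hM : Poly M) (hS : Poly S) (hA : Poly A) : Poly (fun a => rep1 (M a) (S a) (A a)) := by
  unfold rep1
  refine Poly.append ?_ ?_
  · refine FP.Poly.map (f := fun a => ((A a).zip (A a).tail).filter fun p =>
      decide (rowB (M a) (S a) p.1 ≠ rowB (M a) (S a) p.2)) (g := fun _ p => p.1) ?_ (by fun_prop)
    refine Poly.filter (f := fun a => (A a).zip (A a).tail)
      (g := fun a p => decide (rowB (M a) (S a) p.1 ≠ rowB (M a) (S a) p.2)) (Poly.zip hA (by fun_prop)) ?_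
    have h1 : Poly (fun q : α × (ℕ × ℕ) => rowB (M q.1) (S q.1) q.2.1) :=
      poly_rowB (by fun_prop) (by fun_prop) (by fun_prop)
    have h2 : Poly (fun q : α × (ℕ × ℕ) => rowB (M q.1) (S q.1) q.2.2) :=
      poly_rowB (by fun_prop) (by fun_prop) (by fun_prop)
    exact (PolyPred.not (PolyPred.eq h1 h2)).dec
  · exact Poly.optionToList (Poly.getLast? hA)

theorem poly_atp (hM : Poly M) (hS : Poly S) (hX : Poly X) : Poly (fun a => atp (M a) (S a) (X a)) := by
  unfold atp
  refine Poly.take (FP.Poly.const 1) ?_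
  refine Poly.filter (f := X) (g := fun a x => attB (M a) (S a) x) hX ?_
  exact poly_attB (by fun_prop) (by fun_prop) (by fun_prop)

theorem poly_repP (hM : Poly M) (hS : Poly S) (hX : Poly Xs) : Poly (fun a => repP (M a) (S a) (Xs a)) := by
  unfold repP
  refine poly_rep1 hM hS ?_
  refine Poly.flatMap (f := Xs) (g := fun a X => atp (M a) (S a) X) hX ?_
  exact poly_atp (by fun_prop) (by fun_prop) (by fun_prop)

theorem Pol_parB {w : α → List (List Bool)} (hw : Poly w) : Poly (fun a => parB (w a)) := by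
  unfold parB
  have h0 : Poly (fun a => (w a).getD 0 []) := Poly.getD hw (FP.Poly.const 0) (FP.Poly.const [])
  have h1 : Poly (fun a => (w a).getD 1 []) := Poly.getD hw (FP.Poly.const 1) (FP.Poly.const [])
  refine Poly.and (by fun_prop) (Poly.and ?_ (Poly.headD h1 (FP.Poly.const false)))
  refine FP.Poly.congr (f := fun a => (((w a).getD 0 []).getLast?).getD false)
    (Poly.optionGetD (Poly.getLast? h0) (FP.Poly.const false)) ?_
  intro a
  exact (List.getLastD_eq_getLast? ..).symm

theorem Pol_gad {L : α → Ord} (hM : Poly M) (hL : Poly L) (hB : Poly B) : Poly (fun a => gad (M a) (L a) (B a)) := by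
  unfold gad
  refine Poly.or ?_ ?_
  · exact poly_ctx (k := fun a => (1, B a, [])) hM hL (by fun_prop)
  · exact poly_ctx (k := fun a => (2, B a, [])) hM hL (by fun_prop)

theorem Pol_cds (hM : Poly M) (hB : Poly B) (hC : Poly C) : Poly (fun a => cds (M a) (B a) (C a)) := by
  unfold cds
  refine Poly.filter (f := C) (g := fun a L => tOk (M a) (L ++ B a)) hC ?_
  exact poly_tOk (by fun_prop) (by fun_prop)

theorem poly_pick (hM : Poly M) (hB : Poly B) (hC : Poly C) : Poly (fun a => pick (M a) (B a) (C a)) := by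
  unfold pick
  have hc : Poly (fun a => cds (M a) (B a) (C a)) := Pol_cds hM hB hC
  have hw : Poly (fun q : α × Ord => wordB (M q.1) (B q.1) q.2) :=
    poly_wordB (by fun_prop) (by fun_prop) (by fun_prop)
  have hp : Poly (fun q : α × Ord => parB (wordB (M q.1) (B q.1) q.2)) := Pol_parB hw
  have hg : Poly (fun q : α × Ord => gad (M q.1) q.2 (B q.1)) := Pol_gad (by fun_prop) (by fun_prop) (by fun_prop)
  refine Poly.ite (PolyPred.eq (by fun_prop) (by fun_prop)) ?_ ?_
  · refine Poly.headD (Poly.append ?_ (Poly.append ?_ hc)) (FP.Poly.const [])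
    · exact Poly.filter (f := fun a => cds (M a) (B a) (C a))
        (g := fun a L => parB (wordB (M a) (B a) L) && gad (M a) L (B a)) hc (Poly.and hp hg)
    · exact Poly.filter (f := fun a => cds (M a) (B a) (C a)) (g := fun a L => parB (wordB (M a) (B a) L)) hc hp
  · refine Poly.headD (Poly.append ?_ hc) (FP.Poly.const [])
    refine Poly.filter (f := fun a => cds (M a) (B a) (C a))
      (g := fun a L => decide ((wordB (M a) (B a) L).length = 2)) hc ?_
    exact Poly.decideEq (Poly.length hw) (FP.Poly.const 2)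

theorem poly_flg (hM : Poly M) (hB : Poly B) (hC : Poly C) : Poly (fun a => flg (M a) (B a) (C a)) := by
  unfold flg
  have hp : Poly (fun a => pick (M a) (B a) (C a)) := poly_pick hM hB hC
  have hw : Poly (fun a => wordB (M a) (B a) (pick (M a) (B a) (C a))) := poly_wordB hM hB hp
  exact Poly.and (Poly.decideEq (Poly.length hB) (FP.Poly.const 3))
    (Poly.decideEq (Poly.length hw) (FP.Poly.const 2))

theorem poly_ctxB (hM : Poly M) (hP : Poly Ps) (hO : Poly O) (hj : Poly j) : Poly (fun a => ctxB (M a) (Ps a) (O a) (j a)) := by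
  unfold ctxB
  refine poly_repP hM (Poly.getD hP hj (FP.Poly.const [])) ?_
  exact Poly.append (Poly.drop (by fun_prop) hP) (Poly.cons hO (Poly.take hj hP))

theorem poly_entE (hM : Poly M) (hP : Poly Ps) (hO : Poly O) (hC : Poly Cs) (hj : Poly j) : Poly (fun a => entE (M a) (Ps a) (O a) (Cs a) (j a)) := by
  unfold entE
  exact poly_pick hM (poly_ctxB hM hP hO hj) (Poly.getD hC hj (FP.Poly.const []))

theorem poly_entB (hM : Poly M) (hP : Poly Ps) (hO : Poly O) (hC : Poly Cs) (hj : Poly j) : Poly (fun a => entB (M a) (Ps a) (O a) (Cs a) (j a)) := by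
  unfold entB
  exact poly_flg hM (poly_ctxB hM hP hO hj) (Poly.getD hC hj (FP.Poly.const []))

theorem Pol_entW (hM : Poly M) (hP : Poly Ps) (hO : Poly O) (hC : Poly Cs) (hj : Poly j) : Poly (fun a => entW (M a) (Ps a) (O a) (Cs a) (j a)) := by
  unfold entW
  have hx : Poly (fun a => ctxB (M a) (Ps a) (O a) (j a)) := poly_ctxB hM hP hO hj
  refine poly_rep1 hM hx ?_
  refine Poly.filter (f := fun a => entE (M a) (Ps a) (O a) (Cs a) (j a))
    (g := fun a x => attB (M a) (ctxB (M a) (Ps a) (O a) (j a)) x) (poly_entE hM hP hO hC hj) ?_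
  exact poly_attB (by fun_prop) (hx.comp Poly.fst') (by fun_prop)

theorem Pol_cel (hM : Poly M) (hP : Poly Ps) (hO : Poly O) (hC : Poly Cs) (hj : Poly j) : Poly (fun a => cel (M a) (Ps a) (O a) (Cs a) (j a)) := by
  unfold cel
  have hw : Poly (fun a => entW (M a) (Ps a) (O a) (Cs a) (j a)) := Pol_entW hM hP hO hC hj
  have he : Poly (fun a => entE (M a) (Ps a) (O a) (Cs a) (j a)) := poly_entE hM hP hO hC hj
  have hb : Poly (fun a => entB (M a) (Ps a) (O a) (Cs a) (j a)) := poly_entB hM hP hO hC hj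
  exact Poly.ite (Poly.pred hb) (Poly.pair hw (Poly.listReverse hw)) (Poly.pair he he)

theorem poly_cells (hM : Poly M) (hP : Poly Ps) (hO : Poly O) (hC : Poly Cs) (hZ : Poly Z) : Poly (fun a => cells (M a) (Ps a) (O a) (Cs a) (Z a)) := by
  unfold cells
  refine Poly.append ?_ (Poly.cons (Poly.pair hZ hZ) (FP.Poly.const []))
  have hr : Poly (fun a => List.range (Ps a).length) := Poly.range (by fun_prop) (PolyBdd.length hP)
  refine FP.Poly.map (f := fun a => List.range (Ps a).length) (g := fun a i => cel (M a) (Ps a) (O a) (Cs a) i) hr ?_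
  exact Pol_cel (by fun_prop) (by fun_prop) (by fun_prop) (by fun_prop) (by fun_prop)

theorem poly_marks (hM : Poly M) (hP : Poly Ps) (hO : Poly O) (hC : Poly Cs) : Poly (fun a => marks (M a) (Ps a) (O a) (Cs a)) := by
  unfold marks
  have hr : Poly (fun a => List.range (Ps a).length) := Poly.range (by fun_prop) (PolyBdd.length hP)
  refine Poly.filter (f := fun a => List.range (Ps a).length) (g := fun a i => entB (M a) (Ps a) (O a) (Cs a) i) hr ?_
  exact poly_entB (by fun_prop) (by fun_prop) (by fun_prop) (by fun_prop) (by fun_prop)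

theorem Pol_ordE (hM : Poly M) (hP : Poly Ps) (hO : Poly O) (hC : Poly Cs) (hj : Poly j) (hu : Poly u) : Poly (fun a => ordE (M a) (Ps a) (O a) (Cs a) (j a) (u a)) := by
  unfold ordE
  have he : Poly (fun a => entE (M a) (Ps a) (O a) (Cs a) (j a)) := poly_entE hM hP hO hC hj
  have hb : Poly (fun a => entB (M a) (Ps a) (O a) (Cs a) (j a)) := poly_entB hM hP hO hC hj
  exact Poly.ite (Poly.pred (Poly.and hb hu)) (Poly.listReverse he) he

theorem poly_outF (hM : Poly M) (hP : Poly Ps) (hO : Poly O) (hC : Poly Cs) (hS : Poly S) : Poly (fun a => outF (M a) (Ps a) (O a) (Cs a) (val (S a))) := by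
  unfold outF
  have hr : Poly (fun a => List.range (Ps a).length) := Poly.range (by fun_prop) (PolyBdd.length hP)
  refine Poly.flatMap (f := fun a => List.range (Ps a).length)
    (g := fun a i => ordE (M a) (Ps a) (O a) (Cs a) i (val (S a) i)) hr ?_
  exact Pol_ordE (by fun_prop) (by fun_prop) (by fun_prop) (by fun_prop) (by fun_prop)
    (poly_val (by fun_prop) (by fun_prop))

theorem poly_mB (hM : Poly M) (hk : Poly k) : Poly (fun a => mB (M a) (k a)) := by
  unfold mB
  exact Poly.ite (PolyPred.eq (by fun_prop) (by fun_prop)) hM (poly_ext hM (by fun_prop))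

theorem poly_zB (hM : Poly M) (hk : Poly k) : Poly (fun a => zB (M a) (k a)) := by
  unfold zB
  refine Poly.ite (PolyPred.eq (by fun_prop) (by fun_prop)) (by fun_prop)
    (Poly.ite (PolyPred.eq (by fun_prop) (by fun_prop)) (by fun_prop) ?_)
  exact Poly.append (by fun_prop) (Poly.cons (Poly.length hM) (FP.Poly.const []))

theorem Pol_outO {Ks : α → List Ivl} (hs : Poly O) (hK : Poly Ks) : Poly (fun a => outO (O a) (Ks a)) := by
  unfold outO
  have h1 : Poly (fun a => ((Ks a).getLastD (0, 0)).2) := by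
    refine Poly.snd (FP.Poly.congr (f := fun a => ((Ks a).getLast?).getD (0, 0))
      (Poly.optionGetD (Poly.getLast? hK) (FP.Poly.const (0, 0))) ?_)
    intro a
    exact (List.getLastD_eq_getLast? ..).symm
  have h2 : Poly (fun a => ((Ks a).headD (0, 0)).1) := Poly.fst (Poly.headD hK (FP.Poly.const (0, 0)))
  exact Poly.append (Poly.drop h1 hs) (Poly.take h2 hs)

theorem poly_rigA : Poly (fun x : Mat × Ord × List Ivl × List (List Ord) => rigA x.1 x.2.1 x.2.2.1 x.2.2.2) := by
  unfold rigA
  refine Poly.flatMap (f := fun x : Mat × Ord × List Ivl × List (List Ord) => keys x.1)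
    (g := fun (x : Mat × Ord × List Ivl × List (List Ord)) (k : Ky) =>
      match solC (mB x.1 k) (cells x.1 (x.2.2.1.map (seg x.2.1)) (outO x.2.1 x.2.2.1) x.2.2.2 (zB x.1 k))
          (Pool.Agent.SOI.prm (mB x.1 k) (cells x.1 (x.2.2.1.map (seg x.2.1)) (outO x.2.1 x.2.2.1) x.2.2.2 (zB x.1 k))
            (marks x.1 (x.2.2.1.map (seg x.2.1)) (outO x.2.1 x.2.2.1) x.2.2.2)) with
      | none => []
      | some u => [outF x.1 (x.2.2.1.map (seg x.2.1)) (outO x.2.1 x.2.2.1) x.2.2.2 (val u)])
    (poly_keys (by fun_prop)) ?_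
  have hM : Poly (fun p : (Mat × Ord × List Ivl × List (List Ord)) × Ky => p.1.1) := by fun_prop
  have hP : Poly (fun p : (Mat × Ord × List Ivl × List (List Ord)) × Ky => p.1.2.2.1.map (seg p.1.2.1)) := by
    refine FP.Poly.map (f := fun p : (Mat × Ord × List Ivl × List (List Ord)) × Ky => p.1.2.2.1)
      (g := fun p I => seg p.1.2.1 I) (by fun_prop) ?_
    exact poly_seg (by fun_prop) (by fun_prop)
  have hO : Poly (fun p : (Mat × Ord × List Ivl × List (List Ord)) × Ky => outO p.1.2.1 p.1.2.2.1) :=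
    Pol_outO (by fun_prop) (by fun_prop)
  have hC : Poly (fun p : (Mat × Ord × List Ivl × List (List Ord)) × Ky => p.1.2.2.2) := by fun_prop
  have hB : Poly (fun p : (Mat × Ord × List Ivl × List (List Ord)) × Ky => mB p.1.1 p.2) :=
    poly_mB hM (by fun_prop)
  have hZ : Poly (fun p : (Mat × Ord × List Ivl × List (List Ord)) × Ky => zB p.1.1 p.2) :=
    poly_zB hM (by fun_prop)
  have hcl := poly_cells hM hP hO hC hZ
  have hmk := poly_marks hM hP hO hC
  have hsol := poly_solC hB hcl (poly_prm hB hcl hmk)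
  refine FP.Poly.congr (Poly.optionCases (f := fun p : (Mat × Ord × List Ivl × List (List Ord)) × Ky =>
      solC (mB p.1.1 p.2) (cells p.1.1 (p.1.2.2.1.map (seg p.1.2.1)) (outO p.1.2.1 p.1.2.2.1) p.1.2.2.2 (zB p.1.1 p.2))
        (Pool.Agent.SOI.prm (mB p.1.1 p.2) (cells p.1.1 (p.1.2.2.1.map (seg p.1.2.1)) (outO p.1.2.1 p.1.2.2.1) p.1.2.2.2 (zB p.1.1 p.2))
          (marks p.1.1 (p.1.2.2.1.map (seg p.1.2.1)) (outO p.1.2.1 p.1.2.2.1) p.1.2.2.2)))
    (g := fun _ => []) (h := fun p u => [outF p.1.1 (p.1.2.2.1.map (seg p.1.2.1)) (outO p.1.2.1 p.1.2.2.1) p.1.2.2.2 (val u)])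
    hsol (FP.Poly.const []) ?_) ?_
  · refine Poly.cons ?_ (FP.Poly.const [])
    exact poly_outF (hM.comp Poly.fst') (hP.comp Poly.fst') (hO.comp Poly.fst') (hC.comp Poly.fst') Poly.snd'
  · intro p
    generalize solC _ _ _ = o
    cases o <;> rfl

end Pool.Agent.SON
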