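import Pool.Agent.SON.Main
import Pool.Agent.SON.Pol
import Pool.Agent.SOT.HypE
import Pool.Agent.SOT.PolE
import Pool.Agent.SOX.Tok
import Pool.Agent.SOK.FinF
import Pool.Agent.SOS.AlgSor
import Pool.Agent.SOS.AlgPoly

/-! Project SON (MP_66ba69_lc), module Fin: the test for prime graphs and the recognition algorithm. -/

set_option autoImplicit false

namespace Pool.Agent.SON

open Pool.Agent.SOC Pool.Agent.SOD Pool.Agent.SOS Pool.Agent.SOE Pool.Agent.SOV Pool.Agent.SOT Pool.Agent.SOK Pool.Agent.SOZ Pool.Agent.SOX Pool.Agent.SOW FP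

/-- the fixed order test, with a test that the list is an order of all vertices -/
def tokP (M : Mat) (l : Ord) : Bool := permB l (List.range M.length) && tOk M l

theorem tokP_vo {M : Mat} {l : Ord} (hl : l.Perm (List.range M.length)) : tokP M l = true ↔ VO M l := by
  unfold tokP
  rw [Bool.and_eq_true, permB_iff List.nodup_range, ← tok_vo hl]
  exact ⟨fun h => h.2, fun h => ⟨hl, h⟩⟩

theorem tokP_sound {M : Mat} {l : Ord} (h : tokP M l = true) : SOR (graphOf M) := by
  unfold tokP at h
  rw [Bool.and_eq_true, permB_iff List.nodup_range] at h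
  obtain ⟨s, _, hs, hT⟩ := (tok_vo h.1).1 h.2
  exact sor_iff_list.2 ⟨s, hs, hT⟩

/-- the test for prime graphs -/
def primeA : List (List Bool) → Bool := primeD (parE rigA good keys) tokP eOrder strL

/-- when the test for prime graphs says yes, there is an order, for every graph -/
theorem primeA_sound {M : Mat} (h : primeA M = true) : SOR (graphOf M) := by
  unfold primeA primeD at h
  cases hb : eOrder M with
  | none => rw [hb] at h; exact absurd h (by simp)
  | some s0 =>
    rw [hb] at h
    simp only [solve, List.any_eq_true, Bool.and_eq_true] at h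
    obtain ⟨L, -, -, ht⟩ := h
    exact tokP_sound ht

theorem primeA_iff {M : List (List Bool)} (h4 : 4 ≤ M.length) (hG : PrimeG (graphOf M)) (hc : CFree (graphOf M))
    (hk : NoK6P4 (graphOf M)) : primeA M = true ↔ SOR (graphOf M) :=
  primeE_iff hG hc h4 (fun _ hs => rigA_ok hG hc hs h4 hk) (repS hG.1) (fun _ hl => tokP_vo hl)

theorem poly_primeA : Poly primeA := by
  unfold primeA
  refine poly_primeE poly_rigA ?_ ?_ ?_
  · exact poly_good (by fun_prop) (by fun_prop) (by fun_prop)
  · exact poly_keys Poly.ident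
  · unfold tokP
    exact Poly.and (poly_permB (by fun_prop) (Poly.range (by fun_prop) (PolyBdd.length (by fun_prop)))) (poly_tOk (by fun_prop) (by fun_prop))

/-- a graph without W4 has no centre -/
theorem cfree_now4 {V : Type} {G : SimpleGraph V} (h : ∀ p p' q q' r, ¬ W4 G p p' q q' r) : CFree G :=
  fun _ _ hz => hz.nepc ⟨hz.cut, fun hw => absurd hw (h _ _ _ _ _)⟩

/-- the graph of the submatrix is an induced subgraph -/
theorem emb_sub {M : List (List Bool)} {W : List ℕ} (hW : W.Nodup) (hr : ∀ w ∈ W, w < M.length) :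
    Nonempty (graphOf (sub M W) ↪g graphOf M) := by
  have hl : (sub M W).length = W.length := sub_length
  refine ⟨⟨⟨fun i => ⟨W[i.val]'(by have := i.isLt; omega), hr _ (List.getElem_mem _)⟩, ?_⟩, ?_⟩⟩
  · intro i j h
    have h1 : W[i.val]'(by have := i.isLt; omega) = W[j.val]'(by have := j.isLt; omega) := by
      have := congrArg (fun x : Fin M.length => x.val) h
      simpa using this
    exact Fin.ext ((List.Nodup.getElem_inj_iff hW).1 h1)
  · intro i j
    have hi : i.val < W.length := by have := i.isLt; omega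
    have hj : j.val < W.length := by have := j.isLt; omega
    have h1 := adjB_sub (M := M) hW hi hj
    show adjB M (W[i.val]) (W[j.val]) = true ↔ adjB (sub M W) i.val j.val = true
    rw [h1]

/-- the algorithm, with a test for prime graphs which is right for the prime induced subgraphs -/
theorem allSOR_of {prime : List (List Bool) → Bool} {M : List (List Bool)}
    (hp : ∀ N : List (List Bool), 4 ≤ N.length → PrimeG (graphOf N) → Nonempty (graphOf N ↪g graphOf M) →
      (prime N = true ↔ SOR (graphOf N))) : allSOR prime M = true ↔ SOR (graphOf M) := by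
  rw [rounds_iff M.length]
  unfold allSOR
  rw [List.all_eq_true]
  refine forall₂_congr ?_
  intro W hW
  have hs := rounds_sub hW
  have hn : W.Nodup := List.Nodup.sublist hs List.nodup_range
  have hr : ∀ w ∈ W, w < M.length := fun w hw => List.mem_range.1 (hs.subset hw)
  simp only [Bool.or_eq_true, decide_eq_true_eq]
  constructor
  · rintro (h | h)
    · exact sor_small _ (algsor_ncard.trans h)
    · rcases rounds_final hW with h1 | h1
      · exact sor_small _ (algsor_ncard.trans h1)
      · have h4 := (step_final hn h1).1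
        rw [sorw_iff hn hr]
        exact (hp _ (by rw [sub_length]; exact h4) (prime_sub hn h1) (emb_sub hn hr)).1 h
  · intro h
    rcases rounds_final hW with h1 | h1
    · exact Or.inl h1
    · right
      have h4 := (step_final hn h1).1
      rw [sorw_iff hn hr] at h
      exact (hp _ (by rw [sub_length]; exact h4) (prime_sub hn h1) (emb_sub hn hr)).2 h

/-- THE ALGORITHM -/
def algA : List (List Bool) → Bool := allSOR primeA

theorem poly_algA : Poly algA := poly_allSOR poly_primeA

theorem algA_iff {M : List (List Bool)} (h : ∀ (n : ℕ) (H : SimpleGraph (Fin n)), Nonempty (H ↪g graphOf M) → PrimeG H →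
    CFree H ∧ NoK6P4 H) : algA M = true ↔ SOR (graphOf M) :=
  allSOR_of fun _ h4 hG he => primeA_iff h4 hG (h _ _ he hG).1 (h _ _ he hG).2

/-- when the algorithm says yes, there is an order, for every graph -/
theorem algA_sound {M : List (List Bool)} (h : algA M = true) : SOR (graphOf M) := by
  rw [rounds_iff M.length]
  unfold algA allSOR at h
  rw [List.all_eq_true] at h
  intro W hW
  have hs := rounds_sub hW
  have hn : W.Nodup := List.Nodup.sublist hs List.nodup_range
  have hr : ∀ w ∈ W, w < M.length := fun w hw => List.mem_range.1 (hs.subset hw)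
  have h1 := h W hW
  simp only [Bool.or_eq_true, decide_eq_true_eq] at h1
  rcases h1 with h1 | h1
  · exact sor_small _ (algsor_ncard.trans h1)
  · rw [sorw_iff hn hr]
    exact primeA_sound h1

/-- hereditary conditions -/
theorem w4_emb {V W : Type} {G : SimpleGraph V} {H : SimpleGraph W} (e : H ↪g G) {p p' q q' r : W} (h : W4 H p p' q q' r) :
    W4 G (e p) (e p') (e q) (e q') (e r) :=
  ⟨fun k => h.n1 (e.map_rel_iff.1 k), fun k => h.n2 (e.map_rel_iff.1 k), fun k => h.d1 (e.injective k), fun k => h.d2 (e.injective k),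
    e.map_rel_iff.2 h.pq, e.map_rel_iff.2 h.pq', e.map_rel_iff.2 h.p'q, e.map_rel_iff.2 h.p'q', e.map_rel_iff.2 h.rp,
    e.map_rel_iff.2 h.rp', e.map_rel_iff.2 h.rq, e.map_rel_iff.2 h.rq'⟩

theorem k6p4_emb {V W : Type} {G : SimpleGraph V} {H : SimpleGraph W} (e : H ↪g G) {a b c d x y : W} (h : K6P4 H a b c d x y) :
    K6P4 G (e a) (e b) (e c) (e d) (e x) (e y) :=
  ⟨e.map_rel_iff.2 h.ab, e.map_rel_iff.2 h.bc, e.map_rel_iff.2 h.cd, fun k => h.ac (e.map_rel_iff.1 k), fun k => h.ad (e.map_rel_iff.1 k),
    fun k => h.bd (e.map_rel_iff.1 k), e.map_rel_iff.2 h.xy, e.map_rel_iff.2 h.xa, e.map_rel_iff.2 h.xb, e.map_rel_iff.2 h.xc,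
    e.map_rel_iff.2 h.xd, e.map_rel_iff.2 h.ya, e.map_rel_iff.2 h.yb, e.map_rel_iff.2 h.yc, e.map_rel_iff.2 h.yd⟩

/-- the algorithm is right for graphs without induced W4 and without induced K6 - P4 -/
theorem algA_free {M : List (List Bool)} (h1 : ∀ p p' q q' r, ¬ W4 (graphOf M) p p' q q' r) (h2 : NoK6P4 (graphOf M)) :
    algA M = true ↔ SOR (graphOf M) :=
  algA_iff fun _ _ ⟨e⟩ _ => ⟨cfree_now4 fun _ _ _ _ _ hw => h1 _ _ _ _ _ (w4_emb e hw), fun _ _ _ _ _ _ hk => h2 _ _ _ _ _ _ (k6p4_emb e hk)⟩

end Pool.Agent.SON
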