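import Pool.Agent.SON.Ifc
import Pool.Agent.SON.Pal

/-! Project SON (MP_66ba69_lc, the rigid step), module KeyN (size 2): keys of a node.
-/

set_option autoImplicit false

namespace Pool.Agent.SON

open Pool.Agent.SOC Pool.Agent.SOD Pool.Agent.SOS Pool.Agent.SOP Pool.Agent.SOE Pool.Agent.SOV Pool.Agent.SOF Pool.Agent.SOT Pool.Agent.SOK Pool.Agent.SOZ Pool.Agent.SOY

variable {M M' : Mat} {S S' L L' R R' B W Y O : Ord} {G : SimpleGraph ℕ}

theorem KeyN_dst_const {β : Type} [DecidableEq β] (c : β) (l : List β) (h : ∀ x ∈ l, x = c) : (dst l).length ≤ 1 := by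
  induction l with
  | nil => simp [dst_nil]
  | cons a l ih =>
    cases l with
    | nil => simp [dst_one]
    | cons b l =>
      rw [dst_cons]
      have ha : a = c := h a (by simp)
      have hb : b = c := h b (by simp)
      rw [if_neg (by rw [ha, hb]; simp), List.nil_append]
      exact ih fun x hx => h x (List.mem_cons_of_mem _ hx)

/-- PROOF. k := (0, R, wordB M R L) with R = [v]. keys: mem_keys (the word is dst of lists of length 1: every row is [true], so it has at most one letter: dst of a constant list). good: the word is clear, ctx: tOk M (L ++ R) from hV (vo_val, tOk_iff). all: ctx M L' k = tOk M (L' ++ R), vo_val (L' ++ R is a permutation of range). cov: y = v: b := v. -/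
theorem key_one {v : ℕ} (hV : VO M (L ++ [v])) : ∃ k, KeyR M L [v] k := by
  have hp := vo_perm hV
  have hn : (L ++ [v]).Nodup := hp.nodup_iff.2 List.nodup_range
  have hv : v < M.length := List.mem_range.1 (hp.subset (by simp))
  have hrow : ∀ r ∈ ((L.filter (attB M [v])).map (rowB M [v])), r = [true] := by
    intro r hr
    obtain ⟨x, hx, rfl⟩ := List.mem_map.1 hr
    have h2 := (List.mem_filter.1 hx).2
    unfold attB at h2
    unfold rowB
    simp only [List.any_cons, List.any_nil, Bool.or_false] at h2
    simp [h2]
  refine ⟨(0, [v], wordB M [v] L), ?_, by simp, ?_, ?_, by simp, by simp, ?_, ?_⟩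
  · refine mem_keys (by omega) (by simp) (by simpa using hv) ?_ ?_
    · have := KeyN_dst_const [true] _ hrow
      unfold wordB
      omega
    · intro r hr
      rw [hrow r (mem_dst hr)]
      simp
  · unfold Pool.Agent.SOK.good Pool.Agent.SOK.ctx
    simp only [decide_true, Bool.true_and, cond_true]
    exact (tOk_iff hn).2 ((vo_val hp).1 hV)
  · intro L' hL' hg
    have hp' : (L' ++ [v]).Perm (List.range M.length) := (hL'.append_right [v]).trans hp
    have hn' : (L' ++ [v]).Nodup := hp'.nodup_iff.2 List.nodup_range
    unfold Pool.Agent.SOK.good Pool.Agent.SOK.ctx at hg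
    simp only [decide_true, cond_true, Bool.and_eq_true] at hg
    exact (vo_val hp').2 ((tOk_iff hn').1 hg.2)
  · intro b hb
    exact hb
  · intro y hy _
    exact ⟨y, hy, fun z _ => Iff.rfl⟩

/-- PROOF. I ∈ strL: str_mem (setW M L = setW M (seg ..)), key_str. I = (1, n): L is a permutation of all but the first element of the base order, so R = [v] (vo_perm, lengths). key_one. -/
theorem key_nod {s : List (Fin M.length)} (hG : PrimeG (graphOf M)) (hc : CFree (graphOf M)) (hs : EWO (graphOf M) s) (h4 : 4 ≤ M.length)
    {I : Ivl} (hI : Nod s.length (strL M (s.map Fin.val)) I) (hL : L.Perm (seg (s.map Fin.val) I)) (hV : VO M (L ++ R)) :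
    ∃ k, KeyR M L R k := by
  rcases hI with hI | rfl
  · have h1 := str_mem hG hc hs hI
    have e : setW M L = setW M (seg (s.map Fin.val) I) := by
      ext x
      exact hL.mem_iff
    rw [← e] at h1
    exact key_str hG.1 h1 hV
  · have hl : s.length = M.length := by
      have := hs.enum
      have h2 := (List.perm_ext_iff_of_nodup this.1 (List.nodup_finRange M.length)).2
        (fun x => ⟨fun _ => List.mem_finRange x, fun _ => this.2 x⟩)
      rw [h2.length_eq, List.length_finRange]
    have h1 : L.length = M.length - 1 := by
      rw [hL.length_eq]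
      unfold seg
      rw [List.length_take, List.length_drop, List.length_map]
      omega
    have h2 := (vo_perm hV).length_eq
    rw [List.length_append, List.length_range] at h2
    have h3 : R.length = 1 := by omega
    obtain ⟨v, rfl⟩ := List.length_eq_one_iff.1 h3
    exact key_one hV

end Pool.Agent.SON
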