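import Pool.Agent.SON.Nod

/-! Project SON (MP_66ba69_lc, the rigid step), module StarN (size 4): the cells of a node satisfy the hypotheses of the solver.
-/

set_option autoImplicit false

namespace Pool.Agent.SON

open Pool.Agent.SOC Pool.Agent.SOD Pool.Agent.SOS Pool.Agent.SOV Pool.Agent.SOF Pool.Agent.SOT Pool.Agent.SOK Pool.Agent.SOY FP

variable {M : Mat} {Ps : List Ord} {Cs : List (List Ord)} {O R : Ord} {φ : ℕ → Bool} {k : Ky}

theorem starN_bic_symm {V : Type} {G : SimpleGraph V} {X Y : List V} (h : Bic G X Y) : Bic G Y X :=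
  fun b hb b' hb' a ha a' ha' e e' => (h a' ha' a ha b' hb' b hb e'.symm e.symm).symm

theorem starN_fm_sub {α β : Type} {f g : α → List β} : ∀ l : List α, (∀ a ∈ l, (f a).Sublist (g a)) →
    (l.flatMap f).Sublist (l.flatMap g)
  | [], _ => List.Sublist.refl _
  | a :: l, h => by
    rw [List.flatMap_cons, List.flatMap_cons]
    exact List.Sublist.append (h a List.mem_cons_self) (starN_fm_sub l fun b hb => h b (List.mem_cons_of_mem _ hb))

theorem starN_fm_perm {α β : Type} {f g : α → List β} : ∀ l : List α, (∀ a ∈ l, (f a).Perm (g a)) →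
    (l.flatMap f).Perm (l.flatMap g)
  | [], _ => List.Perm.refl _
  | a :: l, h => by
    rw [List.flatMap_cons, List.flatMap_cons]
    exact List.Perm.append (h a List.mem_cons_self) (starN_fm_perm l fun b hb => h b (List.mem_cons_of_mem _ hb))

theorem starN_fm_len {α β : Type} {f : α → List β} : ∀ l : List α, (∀ a ∈ l, f a ≠ []) → l.length ≤ (l.flatMap f).length
  | [], _ => Nat.zero_le _
  | a :: l, h => by
    rw [List.flatMap_cons, List.length_append, List.length_cons]
    have h1 := starN_fm_len l fun b hb => h b (List.mem_cons_of_mem _ hb)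
    have h2 := List.length_pos_iff.2 (h a List.mem_cons_self)
    omega

theorem starN_flat (Xs : List Ord) : Xs.flatten = (List.range Xs.length).flatMap fun i => Xs.getD i [] := by
  rw [List.flatMap_def]
  congr 1
  apply List.ext_getElem
  · simp
  · intro i h1 h2
    rw [List.getElem_map, List.getElem_range, List.getD_eq_getElem _ _ h1]

theorem starN_len {Z : Ord} : (cells M Ps O Cs Z).length = Ps.length + 1 := by
  unfold cells
  simp

theorem starN_get {Z : Ord} {i : ℕ} (hi : i < Ps.length) : (cells M Ps O Cs Z).getD i ([], []) = cel M Ps O Cs i := by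
  unfold cells
  have h1 : i < ((List.range Ps.length).map (cel M Ps O Cs)).length := by
    rw [List.length_map, List.length_range]; exact hi
  rw [List.getD_append _ _ _ _ h1, List.getD_eq_getElem _ _ h1, List.getElem_map, List.getElem_range]

theorem starN_getZ {Z : Ord} : (cells M Ps O Cs Z).getD Ps.length ([], []) = (Z, Z) := by
  unfold cells
  rw [List.getD_append_right _ _ _ _ (by rw [List.length_map, List.length_range])]
  simp only [List.length_map, List.length_range, Nat.sub_self, List.getD_cons_zero]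

theorem starN_cst {Z : Ord} {i : ℕ} (hi : i < Ps.length) (u : Bool) : cst (cells M Ps O Cs Z) i u =
    if entB M Ps O Cs i then (if u then (entW M Ps O Cs i).reverse else entW M Ps O Cs i) else entE M Ps O Cs i := by
  unfold cst
  rw [starN_get hi]
  unfold cel
  cases entB M Ps O Cs i <;> cases u <;> rfl

theorem starN_cstZ {Z : Ord} (u : Bool) : cst (cells M Ps O Cs Z) Ps.length u = Z := by
  unfold cst
  rw [starN_getZ]
  cases u <;> rfl

theorem starN_sub {Z : Ord} {i : ℕ} (hi : i < Ps.length) (u : Bool) :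
    (cst (cells M Ps O Cs Z) i u).Sublist (ordE M Ps O Cs i u) := by
  rw [starN_cst hi]
  have h1 : (entW M Ps O Cs i).Sublist (entE M Ps O Cs i) := by
    unfold entW
    exact (rep1_sub _ _ _).trans List.filter_sublist
  unfold ordE
  cases entB M Ps O Cs i <;> cases u
  · exact List.Sublist.refl _
  · exact List.Sublist.refl _
  · exact h1
  · exact h1.reverse

theorem starN_ordC {Z : Ord} (f : ℕ → Bool) : ordC (cells M Ps O Cs Z) f =
    ((List.range Ps.length).flatMap fun i => cst (cells M Ps O Cs Z) i (f i)) ++ Z := by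
  unfold ordC
  rw [starN_len, List.range_succ, List.flatMap_append]
  congr 1
  rw [List.flatMap_cons, List.flatMap_nil, List.append_nil, starN_cstZ]

theorem starN_ordC_sub {Z : Ord} (f : ℕ → Bool) : (ordC (cells M Ps O Cs Z) f).Sublist (outF M Ps O Cs f ++ Z) := by
  rw [starN_ordC]
  unfold outF
  refine List.Sublist.append (starN_fm_sub _ fun i hi => ?_) (List.Sublist.refl _)
  exact starN_sub (List.mem_range.1 hi) _

theorem starN_outF (h : Hyn M Ps O Cs R φ k) (f : ℕ → Bool) : (outF M Ps O Cs f).Perm Ps.flatten := by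
  rw [starN_flat Ps]
  unfold outF
  exact starN_fm_perm _ fun i hi => ordE_perm h (List.mem_range.1 hi) _

theorem starN_memP (h : Hyn M Ps O Cs R φ k) {j : ℕ} (hj : j < Ps.length) {x : ℕ} (hx : x ∈ Ps.getD j []) : x ∈ Ps.flatten := by
  rw [starN_flat Ps]
  exact List.mem_flatMap.2 ⟨j, List.mem_range.2 hj, hx⟩

theorem starN_ltP (h : Hyn M Ps O Cs R φ k) {x : ℕ} (hx : x ∈ Ps.flatten) : x < M.length :=
  List.mem_range.1 (h.nds.perm.mem_iff.1 (List.mem_append_left _ hx))

theorem starN_ltO (h : Hyn M Ps O Cs R φ k) {x : ℕ} (hx : x ∈ O) : x < M.length :=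
  List.mem_range.1 (h.nds.perm.mem_iff.1 (List.mem_append_right _ hx))

theorem starN_kO (h : Hyn M Ps O Cs R φ k) {x : ℕ} (hx : x ∈ k.2.1) : x ∈ O := h.perm.mem_iff.1 (h.key.sub x hx)

theorem starN_zne (h : Hyn M Ps O Cs R φ k) : zB M k ≠ [] := by
  have h1 := h.key.ne
  unfold zB
  split
  · exact h1
  · split
    · exact List.cons_ne_nil _ _
    · intro e
      exact h1 (List.append_eq_nil_iff.1 e).1

theorem starN_znd (h : Hyn M Ps O Cs R φ k) : (zB M k).Nodup := by
  have h1 := h.key.nd
  have h2 : M.length ∉ k.2.1 := fun e => lt_irrefl _ (starN_ltO h (starN_kO h e))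
  unfold zB
  split
  · exact h1
  · split
    · exact List.nodup_cons.2 ⟨h2, h1⟩
    · refine List.nodup_append.2 ⟨h1, List.nodup_singleton _, ?_⟩
      intro a ha b hb e
      rw [List.mem_singleton.1 hb] at e
      exact h2 (e ▸ ha)

theorem starN_znP (h : Hyn M Ps O Cs R φ k) {z : ℕ} (hz : z ∈ zB M k) : z ∉ Ps.flatten := by
  intro hp
  rcases zB_mem h hz with h1 | ⟨h1, _⟩
  · have h2 : (Ps.flatten ++ O).Nodup := h.nds.perm.nodup_iff.2 List.nodup_range
    exact (List.nodup_append.1 h2).2.2 z hp z (starN_kO h h1) rfl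
  · have := starN_ltP h hp
    omega

theorem starN_nd (h : Hyn M Ps O Cs R φ k) (f : ℕ → Bool) : (outF M Ps O Cs f ++ zB M k).Nodup := by
  have h2 : (Ps.flatten ++ O).Nodup := h.nds.perm.nodup_iff.2 List.nodup_range
  have h3 := starN_outF h f
  refine List.nodup_append.2 ⟨h3.nodup_iff.2 (List.nodup_append.1 h2).1, starN_znd h, ?_⟩
  intro a ha b hb e
  exact starN_znP h hb (e ▸ h3.mem_iff.1 ha)

theorem starN_mlen : M.length ≤ (mB M k).length ∧ (k.1 ≠ 0 → M.length < (mB M k).length) := by
  unfold mB
  split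
  · next e => exact ⟨le_refl _, fun h => absurd e h⟩
  · unfold ext
    simp

theorem starN_cP (h : Hyn M Ps O Cs R φ k) {Z : Ord} {i : ℕ} (hi : i < Ps.length) (u : Bool) {x : ℕ}
    (hx : x ∈ cst (cells M Ps O Cs Z) i u) : x ∈ Ps.getD i [] :=
  (ordE_perm h hi u).mem_iff.1 ((starN_sub hi u).subset hx)

theorem starN_mark {i : ℕ} (hi : i ∈ marks M Ps O Cs) : i < Ps.length ∧ entB M Ps O Cs i = true := by
  unfold marks at hi
  rw [List.mem_filter, List.mem_range] at hi
  exact hi

theorem starN_cst_false (h : Hyn M Ps O Cs R φ k) {i : ℕ} (hi : i < Ps.length) (hb : entB M Ps O Cs i = true) {Z : Ord} :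
    cst (cells M Ps O Cs Z) i false = entW M Ps O Cs i := by
  rw [starN_cst hi, hb]
  rfl

theorem starN_bicP (h : Hyn M Ps O Cs R φ k) {i j : ℕ} (hi : i < Ps.length) (hj : j < Ps.length) (hij : i ≠ j) :
    Bic (gN M) (Ps.getD i []) (Ps.getD j []) := by
  have h1 := (List.pairwise_cons.1 h.nds.bic).2
  rw [List.pairwise_iff_getElem] at h1
  rw [List.getD_eq_getElem _ _ hi, List.getD_eq_getElem _ _ hj]
  rcases lt_or_gt_of_ne hij with h2 | h2
  · exact h1 i j hi hj h2
  · exact starN_bic_symm (h1 j i hj hi h2)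

theorem starN_bicO (h : Hyn M Ps O Cs R φ k) {i : ℕ} (hi : i < Ps.length) : Bic (gN M) (Ps.getD i []) O := by
  refine starN_bic_symm ((List.pairwise_cons.1 h.nds.bic).1 _ ?_)
  rw [List.getD_eq_getElem _ _ hi]
  exact List.getElem_mem hi

theorem starN_adj (h : Hyn M Ps O Cs R φ k) {a b : ℕ} (ha : a < M.length) (hb : b < M.length) :
    (gN (mB M k)).Adj a b ↔ (gN M).Adj a b := by
  show adjB (mB M k) a b = true ↔ adjB M a b = true
  rw [mB_adj h ha hb]

theorem starN_memQ {C : List Cell} {j w : ℕ} (hw : w ∈ rstC C j) : ∃ i, i < C.length ∧ i ≠ j ∧ w ∈ cst C i false := by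
  unfold rstC at hw
  have key : ∀ i, i < C.length → ∀ p, C[i]? = some p → cst C i false = p.1 := by
    intro i hi p hp
    unfold cst
    rw [List.getD_eq_getElem?_getD, hp]
    rfl
  rcases List.mem_append.1 hw with h1 | h1
  · obtain ⟨X, hX, hx⟩ := List.mem_flatten.1 h1
    obtain ⟨p, hp, rfl⟩ := List.mem_map.1 hX
    obtain ⟨n, hn⟩ := List.mem_iff_getElem?.1 hp
    rw [List.getElem?_drop] at hn
    have hl := (List.getElem?_eq_some_iff.1 hn).1
    exact ⟨j + 1 + n, hl, by omega, by rw [key _ hl p hn]; exact hx⟩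
  · obtain ⟨X, hX, hx⟩ := List.mem_flatten.1 h1
    obtain ⟨p, hp, rfl⟩ := List.mem_map.1 hX
    obtain ⟨n, hn⟩ := List.mem_iff_getElem?.1 hp
    rw [List.getElem?_take] at hn
    by_cases hnj : n < j
    · rw [if_pos hnj] at hn
      have hl := (List.getElem?_eq_some_iff.1 hn).1
      exact ⟨n, hl, by omega, by rw [key _ hl p hn]; exact hx⟩
    · rw [if_neg hnj] at hn
      exact absurd hn (by simp)

theorem starN_part {i j : ℕ} (hi : i < Ps.length) (hij : i ≠ j) {w : ℕ} (hw : w ∈ Ps.getD i []) :
    w ∈ (Ps.drop (j + 1)).flatten ++ (O ++ (Ps.take j).flatten) := by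
  rw [List.getD_eq_getElem _ _ hi] at hw
  rcases lt_or_gt_of_ne hij with h1 | h1
  · refine List.mem_append_right _ (List.mem_append_right _ (List.mem_flatten.2 ⟨_, ?_, hw⟩))
    refine List.mem_iff_getElem?.2 ⟨i, ?_⟩
    rw [List.getElem?_take, if_pos h1, List.getElem?_eq_getElem hi]
  · refine List.mem_append_left _ (List.mem_flatten.2 ⟨_, ?_, hw⟩)
    refine List.mem_iff_getElem?.2 ⟨i - (j + 1), ?_⟩
    rw [List.getElem?_drop, show j + 1 + (i - (j + 1)) = i by omega, List.getElem?_eq_getElem hi]

/-- members of the other cells which are attached to the part are members of the rest -/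
theorem starN_rest (h : Hyn M Ps O Cs R φ k) {j : ℕ} (hj : j < Ps.length) {w : ℕ}
    (hw : w ∈ rstC (cells M Ps O Cs (zB M k)) j) (ha : Atd (gN (mB M k)) (Ps.getD j []) w) :
    w ∈ (Ps.drop (j + 1)).flatten ++ (O ++ (Ps.take j).flatten) ∧ w < M.length := by
  obtain ⟨i, hi, hij, hm⟩ := starN_memQ hw
  rw [starN_len] at hi
  rcases Nat.lt_succ_iff_lt_or_eq.1 hi with h1 | h1
  · have h2 := starN_cP h h1 false hm
    exact ⟨starN_part h1 hij h2, starN_ltP h (starN_memP h h1 h2)⟩
  · rw [h1, starN_cstZ] at hm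
    have h2 := starN_kO h (zB_att h hj hm ha)
    exact ⟨List.mem_append_right _ (List.mem_append_left _ h2), starN_ltO h h2⟩

theorem starN_SR (h : Hyn M Ps O Cs R φ k) {j : ℕ} (hj : j < Ps.length) {v u : ℕ} (hv : v ∈ Ps.getD j [])
    (hu : u ∈ Ps.getD j []) (hs : SR (gN M) ((Ps.drop (j + 1)).flatten ++ (O ++ (Ps.take j).flatten)) v u) :
    SR (gN (mB M k)) (rstC (cells M Ps O Cs (zB M k)) j) v u := by
  have lv := starN_ltP h (starN_memP h hj hv)
  have lu := starN_ltP h (starN_memP h hj hu)
  intro w hw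
  constructor
  · intro e
    obtain ⟨h1, h2⟩ := starN_rest h hj hw ⟨v, hv, e.symm⟩
    exact (starN_adj h lu h2).2 ((hs w h1).1 ((starN_adj h lv h2).1 e))
  · intro e
    obtain ⟨h1, h2⟩ := starN_rest h hj hw ⟨u, hu, e.symm⟩
    exact (starN_adj h lv h2).2 ((hs w h1).2 ((starN_adj h lu h2).1 e))

/-- the two members of a marked cell -/
theorem starN_pair (h : Hyn M Ps O Cs R φ k) {j : ℕ} (hj : j < Ps.length) (hb : entB M Ps O Cs j = true) :
    ∃ x y, entW M Ps O Cs j = [x, y] ∧ x ∈ Ps.getD j [] ∧ y ∈ Ps.getD j [] ∧ x ≠ y ∧ adjB (mB M k) x y = true ∧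
      ∀ v ∈ Ps.getD j [], Atd (gN (mB M k)) (rstC (cells M Ps O Cs (zB M k)) j) v →
        SR (gN (mB M k)) (rstC (cells M Ps O Cs (zB M k)) j) v x ∨
          SR (gN (mB M k)) (rstC (cells M Ps O Cs (zB M k)) j) v y := by
  obtain ⟨x, y, e, hx, hy, hne, ha, _, hc⟩ := entW_pair h hj hb
  refine ⟨x, y, e, hx, hy, hne, ?_, ?_⟩
  · rw [mB_adj h (starN_ltP h (starN_memP h hj hx)) (starN_ltP h (starN_memP h hj hy))]
    exact ha
  · rintro v hv ⟨w, hw, hvw⟩
    obtain ⟨h1, h2⟩ := starN_rest h hj hw ⟨v, hv, hvw.symm⟩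
    have lv := starN_ltP h (starN_memP h hj hv)
    rcases hc v hv ⟨w, h1, (starN_adj h lv h2).1 hvw⟩ with h3 | h3
    · exact Or.inl (starN_SR h hj hv hx h3)
    · exact Or.inr (starN_SR h hj hv hy h3)

theorem starN_f2 {α : Type} {Xs Ys : List (List α)} (h : List.Forall₂ List.Sublist Xs Ys) : Xs.flatten.Sublist Ys.flatten := by
  induction h with
  | nil => exact List.Sublist.refl _
  | cons h1 _ ih =>
    rw [List.flatten_cons, List.flatten_cons]
    exact List.Sublist.append h1 ih

theorem starN_rst_eq {C : List Cell} {j : ℕ} : rstC C j = ((C.map Prod.fst).drop (j + 1)).flatten ++ ((C.map Prod.fst).take j).flatten := by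
  unfold rstC
  rw [List.map_drop, List.map_take]

theorem starN_q {C : List Cell} {i : ℕ} : (C.map Prod.fst).getD i [] = cst C i false := by
  unfold cst
  rw [List.getD_eq_getElem?_getD, List.getElem?_map, List.getD_eq_getElem?_getD]
  cases C[i]? <;> rfl

theorem starN_ndR (h : Hyn M Ps O Cs R φ k) {j : ℕ} (hj : j < Ps.length) :
    ((Ps.getD j []) ++ rstC (cells M Ps O Cs (zB M k)) j).Nodup := by
  rw [starN_rst_eq]
  have hl : ((cells M Ps O Cs (zB M k)).map Prod.fst).length = Ps.length + 1 := by rw [List.length_map, starN_len]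
  have h1 : (((cells M Ps O Cs (zB M k)).map Prod.fst).set j (ordE M Ps O Cs j false)).flatten.Sublist
      ((List.range Ps.length).map (fun i => ordE M Ps O Cs i false) ++ [zB M k]).flatten := by
    refine starN_f2 (List.forall₂_iff_get.2 ⟨?_, ?_⟩)
    · rw [List.length_set, hl]
      simp
    · intro i g1 g2
      rw [List.get_eq_getElem, List.get_eq_getElem, List.getElem_set]
      rw [List.length_set, hl] at g1
      by_cases hji : j = i
      · subst hji
        rw [if_pos rfl, List.getElem_append_left (by rw [List.length_map, List.length_range]; exact hj), List.getElem_map,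
          List.getElem_range]
      · rw [if_neg hji]
        have e1 : ((cells M Ps O Cs (zB M k)).map Prod.fst)[i]'(by rw [hl]; exact g1) =
            cst (cells M Ps O Cs (zB M k)) i false := by
          rw [← starN_q, List.getD_eq_getElem _ _ (by rw [hl]; exact g1)]
        rw [e1]
        rcases Nat.lt_succ_iff_lt_or_eq.1 g1 with h2 | h2
        · rw [List.getElem_append_left (by rw [List.length_map, List.length_range]; exact h2), List.getElem_map,
            List.getElem_range]
          exact starN_sub h2 false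
        · subst h2
          rw [starN_cstZ, List.getElem_append_right (by rw [List.length_map, List.length_range])]
          simp
  have h2 : ((List.range Ps.length).map (fun i => ordE M Ps O Cs i false) ++ [zB M k]).flatten =
      outF M Ps O Cs (fun _ => false) ++ zB M k := by
    rw [List.flatten_append]
    unfold outF
    rw [List.flatMap_def]
    simp
  rw [h2] at h1
  have h3 := h1.nodup (starN_nd h fun _ => false)
  rw [List.set_eq_take_append_cons_drop, if_pos (by rw [hl]; omega), List.flatten_append, List.flatten_cons] at h3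
  refine (List.Perm.nodup_iff ?_).1 h3
  refine (List.perm_append_comm).trans ?_
  rw [List.append_assoc]
  exact List.Perm.append (ordE_perm h hj false) (List.Perm.refl _)

theorem starN_main (h : Hyn M Ps O Cs R φ k) {j : ℕ} (hj : j < Ps.length) (hb : entB M Ps O Cs j = true) :
    StL (gN (mB M k)) (cst (cells M Ps O Cs (zB M k)) j false) (rstC (cells M Ps O Cs (zB M k)) j) ∧
    ∃ b1 b2 b3, RpL (gN (mB M k)) (cst (cells M Ps O Cs (zB M k)) j false) (rstC (cells M Ps O Cs (zB M k)) j) [b1, b2, b3] := by
  obtain ⟨x, y, e, hx, hy, hne, ha, hc⟩ := starN_pair h hj hb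
  rw [starN_cst_false h hj hb, e]
  have hn := starN_ndR h hj
  have h2 : 2 ≤ (Ps.getD j []).length := by
    by_contra hlt
    push Not at hlt
    rcases hP : Ps.getD j [] with _ | ⟨a, _ | ⟨b, l⟩⟩
    · rw [hP] at hx
      exact absurd hx List.not_mem_nil
    · rw [hP] at hx hy
      exact hne ((List.mem_singleton.1 hx).trans (List.mem_singleton.1 hy).symm)
    · rw [hP] at hlt
      simp at hlt
  have hn' := hn
  rw [starN_rst_eq] at hn'
  have hmain := rest_main h hj h2 (Qs := (cells M Ps O Cs (zB M k)).map Prod.fst) (by rw [List.length_map, starN_len])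
    (fun i hi _ => by rw [starN_q]; exact cov_cel h i hi false) hn'
  rw [← starN_rst_eq] at hmain
  obtain ⟨m1, m2, m3⟩ := hmain
  have sub2 : ∀ z ∈ [x, y], z ∈ Ps.getD j [] := by
    intro z hz
    rcases List.mem_cons.1 hz with rfl | hz
    · exact hx
    · rw [List.mem_singleton.1 hz]
      exact hy
  refine ⟨?_, ?_⟩
  · refine stl_swap (stl_sub (M := mB M k) (M' := mB M k) (stl_swap m1) ?_ (fun z hz _ => sub2 z hz) (fun _ _ _ _ => rfl) ?_)
    · refine List.nodup_append.2 ⟨(List.nodup_append.1 hn).2.1, List.nodup_cons.2 ⟨fun k1 => hne (List.mem_singleton.1 k1),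
        List.nodup_singleton _⟩, ?_⟩
      intro a ha b hb' e'
      exact (List.nodup_append.1 hn).2.2 b (sub2 b hb') a ha e'.symm
    · intro z hz haz
      rcases hc z hz haz with h3 | h3
      · exact ⟨x, List.mem_cons_self, hx, h3⟩
      · exact ⟨y, List.mem_cons_of_mem _ List.mem_cons_self, hy, h3⟩
  · have hlen : (ctxB M Ps O j).length = 3 := by
      unfold entB flg at hb
      rw [Bool.and_eq_true, decide_eq_true_eq] at hb
      exact hb.1
    rw [hlen] at m3
    obtain ⟨b1, b2, b3, hB⟩ := List.length_eq_three.1 m3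
    rw [hB] at m2
    refine ⟨b1, b2, b3, ?_⟩
    obtain ⟨sR, s1, s2⟩ := m2
    have inY : ∀ {i w}, InS sR i w → w ∈ rstC (cells M Ps O Cs (zB M k)) j := fun hw => by rw [← s1]; exact inS_mem hw
    have key : ∀ {w}, w ∈ rstC (cells M Ps O Cs (zB M k)) j → ∀ z ∈ Ps.getD j [], (gN (mB M k)).Adj w z →
        ∃ q ∈ [x, y], SR (gN (mB M k)) (rstC (cells M Ps O Cs (zB M k)) j) z q := by
      intro w hw z hz hwz
      rcases hc z hz ⟨w, hw, hwz.symm⟩ with h3 | h3
      · exact ⟨x, List.mem_cons_self, h3⟩
      · exact ⟨y, List.mem_cons_of_mem _ List.mem_cons_self, h3⟩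
    refine ⟨sR, s1, ⟨s2.nd, ?_, s2.len, ?_, ?_⟩⟩
    · intro i w w' hw hw' aw aw'
      obtain ⟨z, hz, hwz⟩ := aw
      obtain ⟨z', hz', hwz'⟩ := aw'
      have h3 := s2.same hw hw' ⟨z, sub2 z hz, hwz⟩ ⟨z', sub2 z' hz', hwz'⟩
      exact fun t ht => h3 t (sub2 t ht)
    · intro i b hb'
      obtain ⟨k1, z, hz, hbz⟩ := s2.rep hb'
      obtain ⟨q, hq, hs⟩ := key (inY k1) z hz hbz
      exact ⟨k1, q, hq, ((hs b (inY k1)).1 hbz.symm).symm⟩
    · intro i b c hb' hc' hs
      obtain ⟨kb, _⟩ := s2.rep hb'
      obtain ⟨kc, _⟩ := s2.rep hc'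
      refine s2.mx hb' hc' ?_
      intro z hz
      constructor
      · intro hbz
        obtain ⟨q, hq, hsq⟩ := key (inY kb) z hz hbz
        have h4 := ((hsq b (inY kb)).1 hbz.symm).symm
        have h5 := (hs q hq).1 h4
        exact ((hsq c (inY kc)).2 h5.symm).symm
      · intro hcz
        obtain ⟨q, hq, hsq⟩ := key (inY kc) z hz hcz
        have h4 := ((hsq c (inY kc)).1 hcz.symm).symm
        have h5 := (hs q hq).2 h4
        exact ((hsq b (inY kb)).2 h5.symm).symm

/-- PROOF. C := cells .., m := Ps.length; C.length = m + 1; cst C i u for i < m is the first or second component of cel .. i, for i = m: zB.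
ok.perm: entW and its reverse, or equal lists. ne: entW = [x, y] (entW_pair), entries are permutations of parts (h.nds.ne), zB contains k.2.1 ≠ []. nd: the lists are nodup (sublists of permutations of parts; [x, y] with x ≠ y; zB: k.2.1 nodup, M.length not in it since k.2.1 ⊆ R ⊆ range), pairwise disjoint (h.nds.perm, R.Perm O). lt: parts are < M.length ≤ (mB M k).length; M.length < (ext ..).length.
six: every cell has a member. pl, lt: marks = filter entB of range. pr: entW_pair and mB_adj. bic: h.nds.bic (members of cells are members of parts; zB: zB_att and R.Perm O). st: rest_main for Qs := cells in state false gives StL (gN (mB M k)) Ps[i] (rstC C i); then restrict the side Ps[i] to [x, y]: stl_swap, stl_sub (cover: entW_pair: every attached v has the row of x or of y; the rows on the rest and on rstC: a member of rstC attached to Ps[i] is in the rest), stl_swap.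
wd: rest_main: RpL .. (repP ..) with three members; for [x, y] instead of Ps[i]: attached to Ps[i] iff attached to x or y, rows on [x, y] equal iff rows on Ps[i] equal (for members of rstC): Sd with S replaced. -/
theorem star_node (h : Hyn M Ps O Cs R φ k) : Star (mB M k) (cells M Ps O Cs (zB M k)) (marks M Ps O Cs) := by
  have hlen : (cells M Ps O Cs (zB M k)).length = Ps.length + 1 := starN_len
  have hcase : ∀ {i : ℕ}, i < (cells M Ps O Cs (zB M k)).length → i < Ps.length ∨ i = Ps.length := by
    intro i hi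
    rw [hlen] at hi
    omega
  have hne : ∀ i < Ps.length, cst (cells M Ps O Cs (zB M k)) i false ≠ [] := by
    intro i hi
    rw [starN_cst hi]
    by_cases hb : entB M Ps O Cs i = true
    · obtain ⟨x, y, e, _⟩ := entW_pair h hi hb
      rw [hb, e]
      simp
    · rw [if_neg hb]
      intro e
      have h1 := h.ent i hi
      rw [e, List.nil_perm, List.getD_eq_getElem _ _ hi] at h1
      exact h.nds.ne _ (List.getElem_mem hi) h1
  have hmem : ∀ p ∈ cells M Ps O Cs (zB M k), (∃ i < Ps.length, p = cel M Ps O Cs i) ∨ p = (zB M k, zB M k) := by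
    intro p hp
    unfold cells at hp
    rcases List.mem_append.1 hp with h1 | h1
    · obtain ⟨i, hi, rfl⟩ := List.mem_map.1 h1
      exact Or.inl ⟨i, List.mem_range.1 hi, rfl⟩
    · exact Or.inr (List.mem_singleton.1 h1)
  have hfst : ∀ i < Ps.length, (cel M Ps O Cs i).1 = cst (cells M Ps O Cs (zB M k)) i false := by
    intro i hi
    unfold cst
    rw [starN_get hi]
    rfl
  refine ⟨⟨?_, ?_, ?_, ?_⟩, ?_, ?_, ?_, ?_, ?_, ?_, ?_⟩
  · intro p hp
    rcases hmem p hp with ⟨i, hi, rfl⟩ | rfl
    · unfold cel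
      split
      · exact (List.reverse_perm _).symm
      · exact List.Perm.refl _
    · exact List.Perm.refl _
  · intro p hp
    rcases hmem p hp with ⟨i, hi, rfl⟩ | rfl
    · rw [hfst i hi]
      exact hne i hi
    · exact starN_zne h
  · exact (starN_ordC_sub _).nodup (starN_nd h _)
  · intro x hx
    have h1 := (starN_ordC_sub (M := M) (Ps := Ps) (Cs := Cs) (O := O) (Z := zB M k) fun _ => false).subset hx
    obtain ⟨l1, l2⟩ := starN_mlen (M := M) (k := k)
    rcases List.mem_append.1 h1 with h2 | h2
    · have := starN_ltP h ((starN_outF h _).mem_iff.1 h2)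
      omega
    · rcases zB_mem h h2 with h3 | ⟨h3, h4⟩
      · have := starN_ltO h (starN_kO h h3)
        omega
      · have := l2 h4
        omega
  · show 6 ≤ (ordC (cells M Ps O Cs (zB M k)) fun _ => false).length
    rw [starN_ordC, List.length_append]
    have h1 := starN_fm_len (f := fun i => cst (cells M Ps O Cs (zB M k)) i false) (List.range Ps.length)
      fun i hi => hne i (List.mem_range.1 hi)
    rw [List.length_range] at h1
    have := h.six
    omega
  · intro i hi hF
    rcases hcase hi with h1 | h1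
    · have h2 : ¬ entB M Ps O Cs i = true := by
        intro hb
        refine hF ?_
        unfold marks
        rw [List.mem_filter, List.mem_range]
        exact ⟨h1, hb⟩
      rw [starN_cst h1, starN_cst h1, if_neg h2, if_neg h2]
    · rw [h1, starN_cstZ, starN_cstZ]
  · intro i hi
    rw [hlen]
    have := (starN_mark hi).1
    omega
  · intro i hi
    obtain ⟨h1, hb⟩ := starN_mark hi
    obtain ⟨x, y, e, hx, hy, hxy, ha, _⟩ := starN_pair h h1 hb
    refine ⟨x, y, ?_, hxy, ha⟩
    rw [starN_get h1]
    unfold cel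
    rw [if_pos hb, e]
    rfl
  · intro i hi j hj hji
    obtain ⟨h1, hb⟩ := starN_mark hi
    intro a ha a' ha' b hb1 b' hb1' e1 e2
    have pa := starN_cP h h1 false ha
    have pa' := starN_cP h h1 false ha'
    have la := starN_ltP h (starN_memP h h1 pa)
    have la' := starN_ltP h (starN_memP h h1 pa')
    rcases hcase hj with h2 | h2
    · have pb := starN_cP h h2 false hb1
      have pb' := starN_cP h h2 false hb1'
      have lb := starN_ltP h (starN_memP h h2 pb)
      have lb' := starN_ltP h (starN_memP h h2 pb')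
      exact (starN_adj h la lb').2 (starN_bicP h h1 h2 (Ne.symm hji) a pa a' pa' b pb b' pb' ((starN_adj h la lb).1 e1)
        ((starN_adj h la' lb').1 e2))
    · rw [h2, starN_cstZ] at hb1 hb1'
      have ob := starN_kO h (zB_att h h1 hb1 ⟨a, pa, e1.symm⟩)
      have ob' := starN_kO h (zB_att h h1 hb1' ⟨a', pa', e2.symm⟩)
      have lb := starN_ltO h ob
      have lb' := starN_ltO h ob'
      exact (starN_adj h la lb').2 (starN_bicO h h1 a pa a' pa' b ob b' ob' ((starN_adj h la lb).1 e1)
        ((starN_adj h la' lb').1 e2))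
  · intro i hi
    obtain ⟨h1, hb⟩ := starN_mark hi
    exact (starN_main h h1 hb).1
  · intro i hi
    obtain ⟨h1, hb⟩ := starN_mark hi
    exact (starN_main h h1 hb).2

/-- PROOF. The key is good for outF φ: ctx_val: Val (gN (mB M k)) (outF φ ++ zB). ordC cells φ is a sublist of this list: every cell in state φ j is a sublist of ordE .. j (φ j): entW is a sublist of entE (rep1_sub), entW.reverse of entE.reverse; if not flippable equal. Val_sublist. -/
theorem val_cells (h : Hyn M Ps O Cs R φ k) : Val (gN (mB M k)) (ordC (cells M Ps O Cs (zB M k)) φ) := by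
  have h1 := h.key.good
  unfold good at h1
  rw [Bool.and_eq_true] at h1
  exact Val_sublist (starN_ordC_sub φ) (starN_nd h φ) ((ctx_val (starN_nd h φ)).1 h1.2)

end Pool.Agent.SON
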