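import Pool.Agent.SOI.Main
import Pool.Agent.SON.StarN
import Pool.Agent.SON.Back
import Pool.Agent.SON.KeyN
import Pool.Agent.SON.NodF
import Pool.Agent.SOY.YK

/-! Project SON (MP_66ba69_lc, the rigid step), module Main (size 2): the rigid step.
-/

set_option autoImplicit false

namespace Pool.Agent.SON

open Pool.Agent.SOC Pool.Agent.SOD Pool.Agent.SOS Pool.Agent.SOP Pool.Agent.SOE Pool.Agent.SOV Pool.Agent.SOF Pool.Agent.SOT Pool.Agent.SOK Pool.Agent.SOZ Pool.Agent.SOY Pool.Agent.SOB Pool.Agent.SOI FP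

variable {M : Mat} {s : List (Fin M.length)}

/-- THE RIGID STEP -/
def rigA (M : Mat) (s0 : Ord) (Ks : List Ivl) (Cs : List (List Ord)) : List Ord :=
  (keys M).flatMap fun k =>
    match solC (mB M k) (cells M (Ks.map (seg s0)) (outO s0 Ks) Cs (zB M k))
        (prm (mB M k) (cells M (Ks.map (seg s0)) (outO s0 Ks) Cs (zB M k)) (marks M (Ks.map (seg s0)) (outO s0 Ks) Cs)) with
    | none => []
    | some u => [outF M (Ks.map (seg s0)) (outO s0 Ks) Cs (val u)]

/-- the solver on the cells of a node. PROOF. star_node, star_pok, star_maj, star_norm for val_cells: QC for φ; solC_none excludes none (ExOk for the empty list). solC_some: QC for val u, star_k5, val_of_qc: Val of ordC .. (val u); back_vo. -/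
theorem solve_node {Ps : List Ord} {Cs : List (List Ord)} {O R : Ord} {φ : ℕ → Bool} {k : Ky} (h : Hyn M Ps O Cs R φ k) :
    ∃ u, solC (mB M k) (cells M Ps O Cs (zB M k)) (prm (mB M k) (cells M Ps O Cs (zB M k)) (marks M Ps O Cs)) = some u ∧
      VO M (outF M Ps O Cs (val u) ++ R) := by
  have hS := star_node h
  have hP := star_pok hS
  have hm := star_maj hS hP
  obtain ⟨T, hT⟩ := star_norm hS (val_cells h)
  cases hs : solC (mB M k) (cells M Ps O Cs (zB M k)) (prm (mB M k) (cells M Ps O Cs (zB M k)) (marks M Ps O Cs)) with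
  | none => exact (solC_none hS.ok hP hS.six hm hs (fun e he => absurd he List.not_mem_nil) hT).elim
  | some u =>
    refine ⟨u, rfl, ?_⟩
    obtain ⟨⟨T', hT'⟩, -⟩ := solC_some hS.ok hP hS.six hm hs
    exact back_vo h _ (val_of_qc hS.ok hT' (star_k5 hS hT'))

/-- auxiliary: the concatenation of permutations of the parts -/
theorem Main_perm {Qs : List Ord} {g : ℕ → Ord} (h : ∀ j < Qs.length, (g j).Perm (Qs.getD j [])) :
    ((List.range Qs.length).flatMap g).Perm Qs.flatten := by
  induction Qs generalizing g with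
  | nil => simp
  | cons Q Qs ih =>
    rw [List.length_cons, List.range_succ_eq_map, List.flatMap_cons, List.flatten_cons, List.flatMap_map]
    refine List.Perm.append ?_ ?_
    · have := h 0 (by simp)
      simpa using this
    · refine ih (g := fun j => g (j + 1)) (fun j hj => ?_)
      have := h (j + 1) (by simpa using hj)
      simpa using this

theorem Main_f2 {α β γ : Type} {A : α → β → Prop} {B : α → γ → Prop} {f : β → γ} {l : List α} {m : List β}
    (h : List.Forall₂ A l m) (hi : ∀ a, ∀ b ∈ m, A a b → B a (f b)) : List.Forall₂ B l (m.map f) := by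
  induction h with
  | nil => exact List.Forall₂.nil
  | cons h1 _ ih =>
    exact List.Forall₂.cons (hi _ _ List.mem_cons_self h1) (ih fun a b hb => hi a b (List.mem_cons_of_mem _ hb))

theorem Main_f3 {α β γ : Type} {B : β → γ → Prop} {f : α → β} {g : α → γ} {m : List α} (hi : ∀ a ∈ m, B (f a) (g a)) :
    List.Forall₂ B (m.map f) (m.map g) := by
  induction m with
  | nil => exact List.Forall₂.nil
  | cons a m ih =>
    exact List.Forall₂.cons (hi a List.mem_cons_self) (ih fun b hb => hi b (List.mem_cons_of_mem _ hb))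

theorem Main_f4 {α β : Type} {A B : α → β → Prop} {l : List α} {m : List β}
    (h : List.Forall₂ A l m) (hi : ∀ a, ∀ b ∈ m, A a b → B a b) : List.Forall₂ B l m := by
  have := Main_f2 (f := id) h hi
  simpa using this

/-- PROOF. Given I, C, Ls, R: nds_of_vo (Ls are permutations of the segments). domA with Cs := (kids ..).map C (vo_val). key_nod for L := outF .. φ (a permutation of seg s0 I: kids_flat). Hyn. solve_node; k ∈ keys M. -/
theorem rigA_ok (hG : PrimeG (graphOf M)) (hc : CFree (graphOf M)) (hs : EWO (graphOf M) s) (h4 : 4 ≤ M.length) (hk : NoK6P4 (graphOf M)) :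
    RigS rigA M (s.map Fin.val) (strL M (s.map Fin.val)) := by
  intro I hI h6 C hC Ls hL R hV
  have hlen : (s.map Fin.val).length = s.length := List.length_map _
  rw [hlen] at hI h6 hC hL ⊢
  have hF : Lam s.length (strL M (s.map Fin.val)) := by
    have h := strL_lam (M := M) (s.map Fin.val)
    rwa [hlen] at h
  have hsl : s.length = M.length := prt_len hs.enum
  have hb : I.1 < I.2 ∧ I.2 ≤ s.length := by
    rcases hI with h | h
    · exact ⟨by have := hF.len I h; omega, hF.hi I h⟩
    · rw [h]
      exact ⟨by show 1 < s.length; omega, le_rfl⟩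
  have hfl := kids_flat (s.map Fin.val) hF hb.1 hb.2
  generalize hKs : kids s.length (strL M (s.map Fin.val)) I = Ks at *
  have hL1 : List.Forall₂ (fun L K => L.Perm (seg (s.map Fin.val) K)) Ls Ks :=
    Main_f4 hL fun L K hK h => (hC K hK L h).1
  obtain ⟨hN, hR⟩ := nds_of_vo hG hc hs h4 hk hI (by rw [hKs]; exact h6) (by rw [hKs]; exact hL1) hV
  rw [hKs] at hN hR
  have hCP : List.Forall₂ (fun (C : List Ord) P => ∀ L ∈ C, L.Perm P ∧ L.reverse ∈ C) (Ks.map C) (Ks.map (seg (s.map Fin.val))) :=
    Main_f3 fun K hK => hC K hK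
  have hLC : List.Forall₂ (fun L (C : List Ord) => L ∈ C) Ls (Ks.map C) := Main_f2 hL fun _ _ _ h => h
  have hV' : Val (gN M) (Ls.flatten ++ R) := (vo_val (vo_perm hV)).1 hV
  obtain ⟨⟨φ, hφ⟩, hent⟩ := domA hN hCP hLC hR hV'
  have hent' : ∀ j < (Ks.map (seg (s.map Fin.val))).length,
      (entE M (Ks.map (seg (s.map Fin.val))) (outO (s.map Fin.val) Ks) (Ks.map C) j).Perm ((Ks.map (seg (s.map Fin.val))).getD j []) := by
    intro j hj
    have h1 := hent j hj
    rw [List.length_map] at hj
    have e1 : (Ks.map C).getD j [] = C Ks[j] := by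
      rw [List.getD_eq_getElem?_getD, List.getElem?_map, List.getElem?_eq_getElem hj]
      rfl
    have e2 : (Ks.map (seg (s.map Fin.val))).getD j [] = seg (s.map Fin.val) Ks[j] := by
      rw [List.getD_eq_getElem?_getD, List.getElem?_map, List.getElem?_eq_getElem hj]
      rfl
    rw [e1] at h1
    rw [e2]
    exact (hC _ (List.getElem_mem hj) _ h1).1
  have hout : ∀ f : ℕ → Bool, (outF M (Ks.map (seg (s.map Fin.val))) (outO (s.map Fin.val) Ks) (Ks.map C) f).Perm
      (Ks.map (seg (s.map Fin.val))).flatten := by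
    intro f
    refine Main_perm fun j hj => ?_
    unfold ordE
    split
    · exact (List.reverse_perm _).trans (hent' j hj)
    · exact hent' j hj
  have hpr : (outF M (Ks.map (seg (s.map Fin.val))) (outO (s.map Fin.val) Ks) (Ks.map C) φ ++ R).Perm (List.range M.length) :=
    ((hout φ).append hR).trans hN.perm
  have hVO : VO M (outF M (Ks.map (seg (s.map Fin.val))) (outO (s.map Fin.val) Ks) (Ks.map C) φ ++ R) := (vo_val hpr).2 hφ
  obtain ⟨k, hkey⟩ := key_nod hG hc hs h4 hI ((hout φ).trans (by rw [hfl])) hVO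
  have hH : Hyn M (Ks.map (seg (s.map Fin.val))) (outO (s.map Fin.val) Ks) (Ks.map C) R φ k :=
    ⟨hN, by rw [List.length_map]; exact h6, hent', hR, hφ, hkey⟩
  obtain ⟨u, hu, hvo⟩ := solve_node hH
  refine ⟨_, ?_, hvo⟩
  unfold rigA
  refine List.mem_flatMap.2 ⟨k, hkey.mem, ?_⟩
  rw [hu]
  exact List.mem_singleton.2 rfl

end Pool.Agent.SON
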