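import Pool.Agent.SON.Rest
import Pool.Agent.SON.StM
import Pool.Agent.SON.Wd
import Pool.Agent.SON.DomA

/-! Project SON (MP_66ba69_lc, the rigid step), module Nod (size 3): cells as parts; the two representatives of a child.
-/

set_option autoImplicit false

namespace Pool.Agent.SON

open Pool.Agent.SOC Pool.Agent.SOD Pool.Agent.SOS Pool.Agent.SOV Pool.Agent.SOF Pool.Agent.SOT Pool.Agent.SOK Pool.Agent.SOY FP

variable {M : Mat} {O R : Ord}

/-! ### helper lemmas -/

theorem nod_att {M : Mat} {S : Ord} {x : ℕ} : attB M S x = true ↔ Atd (gN M) S x := by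
  unfold attB
  rw [List.any_eq_true]
  exact Iff.rfl

theorem nod_row {M : Mat} {S : Ord} {x y : ℕ} : rowB M S x = rowB M S y ↔ SR (gN M) S x y := by
  unfold rowB
  rw [List.map_inj_left]
  refine forall₂_congr fun b _ => ?_
  rw [Bool.eq_iff_iff]
  exact Iff.rfl

theorem nod_srr {G : SimpleGraph ℕ} {S : Ord} (x : ℕ) : SR G S x x := fun _ _ => Iff.rfl

theorem nod_sr_sub {G : SimpleGraph ℕ} {S S' : Ord} {x y : ℕ} (h : SR G S x y) (hs : ∀ s ∈ S', s ∈ S) : SR G S' x y :=
  fun z hz => h z (hs z hz)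

theorem nod_atd_sub {G : SimpleGraph ℕ} {S S' : Ord} {x : ℕ} (h : Atd G S' x) (hs : ∀ s ∈ S', s ∈ S) : Atd G S x := by
  obtain ⟨z, hz, h1⟩ := h
  exact ⟨z, hs z hz, h1⟩

/-- transport of blocks -/
theorem nod_sd {G G' : SimpleGraph ℕ} {S S' : Ord} {segs : List Ord} {rp : Ord} (h : Sd G S segs rp)
    (ha : ∀ x ∈ segs.flatten, (Atd G' S' x ↔ Atd G S x))
    (hr : ∀ x ∈ segs.flatten, ∀ y ∈ segs.flatten, (SR G' S' x y ↔ SR G S x y)) : Sd G' S' segs rp where
  nd := h.nd
  same := fun {_ x y} hx hy ax ay => (hr x (inS_mem hx) y (inS_mem hy)).2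
    (h.same hx hy ((ha x (inS_mem hx)).1 ax) ((ha y (inS_mem hy)).1 ay))
  len := h.len
  rep := fun {_ b} hb => ⟨(h.rep hb).1, (ha b (inS_mem (h.rep hb).1)).2 (h.rep hb).2⟩
  mx := fun {_ b c} hb hc hs => h.mx hb hc ((hr b (inS_mem (h.rep hb).1) c (inS_mem (h.rep hc).1)).1 hs)

theorem nod_rpl {G G' : SimpleGraph ℕ} {S S' L W : Ord} (h : RpL G S L W) (ha : ∀ x ∈ L, (Atd G' S' x ↔ Atd G S x))
    (hr : ∀ x ∈ L, ∀ y ∈ L, (SR G' S' x y ↔ SR G S x y)) : RpL G' S' L W := by
  obtain ⟨segs, e, h1⟩ := h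
  refine ⟨segs, e, nod_sd h1 ?_ ?_⟩
  · rw [e]
    exact ha
  · rw [e]
    exact hr

theorem nod_bicS {G : SimpleGraph ℕ} {X Y : Ord} (h : Bic G X Y) : Bic G Y X :=
  fun b hb b' hb' a ha a' ha' h1 h2 => (h a' ha' a ha b' hb' b hb h2.symm h1.symm).symm

/-- all attached members have the same row -/
theorem nod_bicR {G : SimpleGraph ℕ} {P X : Ord} (h : Bic G P X) {x y : ℕ} (hx : x ∈ X) (hy : y ∈ X) (ax : Atd G P x)
    (ay : Atd G P y) : SR G P x y := by
  obtain ⟨a, ha, h1⟩ := ax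
  obtain ⟨b, hb, h2⟩ := ay
  intro z hz
  constructor
  · intro h3
    exact (h z hz b hb x hx y hy h3.symm h2.symm).symm
  · intro h3
    exact (h z hz a ha y hy x hx h3.symm h1.symm).symm

theorem nod_getD_mem {l : List Ord} {i : ℕ} (hi : i < l.length) : l.getD i [] ∈ l := by
  rw [List.getD_eq_getElem _ _ hi]
  exact List.getElem_mem hi

theorem nod_f2 {R : Ord → Ord → Prop} {l l' : List Ord} (hl : l.length = l'.length)
    (h : ∀ i < l.length, R (l.getD i []) (l'.getD i [])) : List.Forall₂ R l l' := by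
  rw [List.forall₂_iff_get]
  refine ⟨hl, fun i h1 h2 => ?_⟩
  have h3 := h i h1
  rw [List.getD_eq_getElem _ _ h1, List.getD_eq_getElem _ _ h2] at h3
  exact h3

theorem nod_getD_drop {l : List Ord} {n i : ℕ} : (l.drop n).getD i [] = l.getD (n + i) [] := by
  rw [List.getD_eq_getElem?_getD, List.getD_eq_getElem?_getD, List.getElem?_drop]

theorem nod_getD_take {l : List Ord} {n i : ℕ} (h : i < n) : (l.take n).getD i [] = l.getD i [] := by
  rw [List.getD_eq_getElem?_getD, List.getD_eq_getElem?_getD, List.getElem?_take_of_lt h]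

/-- two lists without the element number `j`, in cyclic order -/
theorem nod_f2cyc {R : Ord → Ord → Prop} {l l' : List Ord} {j : ℕ} (hl : l.length = l'.length) (hj : j < l.length)
    (h : ∀ i < l.length, i ≠ j → R (l.getD i []) (l'.getD i [])) :
    List.Forall₂ R (l.drop (j + 1) ++ l.take j) (l'.drop (j + 1) ++ l'.take j) := by
  refine List.rel_append ?_ ?_
  · refine nod_f2 (by rw [List.length_drop, List.length_drop, hl]) fun i hi => ?_
    rw [List.length_drop] at hi
    rw [nod_getD_drop, nod_getD_drop]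
    exact h _ (by omega) (by omega)
  · refine nod_f2 (by rw [List.length_take, List.length_take, hl]) fun i hi => ?_
    rw [List.length_take] at hi
    rw [nod_getD_take (by omega), nod_getD_take (by omega)]
    exact h _ (by omega) (by omega)

theorem nod_mem_rest {Ps : List Ord} {O : Ord} {i j : ℕ} (hj : j < Ps.length) (hij : j ≠ i) {v : ℕ} (hv : v ∈ Ps.getD j []) :
    v ∈ (Ps.drop (i + 1)).flatten ++ (O ++ (Ps.take i).flatten) := by
  rw [List.mem_append, List.mem_append]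
  rcases Nat.lt_or_ge i j with h | h
  · left
    refine List.mem_flatten.2 ⟨Ps.getD j [], ?_, hv⟩
    have e : Ps.getD j [] = (Ps.drop (i + 1)).getD (j - (i + 1)) [] := by
      rw [nod_getD_drop]
      congr 1
      omega
    rw [e]
    exact nod_getD_mem (by rw [List.length_drop]; omega)
  · right
    right
    refine List.mem_flatten.2 ⟨Ps.getD j [], ?_, hv⟩
    have e : Ps.getD j [] = (Ps.take i).getD j [] := (nod_getD_take (by omega)).symm
    rw [e]
    exact nod_getD_mem (by rw [List.length_take]; omega)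

theorem nod_of_rest {Ps : List Ord} {O : Ord} {i : ℕ} {v : ℕ} (hv : v ∈ (Ps.drop (i + 1)).flatten ++ (O ++ (Ps.take i).flatten)) :
    v ∈ O ∨ ∃ j < Ps.length, j ≠ i ∧ v ∈ Ps.getD j [] := by
  rw [List.mem_append, List.mem_append] at hv
  rcases hv with h | h | h
  · right
    obtain ⟨P, hP, h1⟩ := List.mem_flatten.1 h
    obtain ⟨t, ht, e⟩ := List.mem_iff_getElem.1 hP
    rw [List.length_drop] at ht
    refine ⟨i + 1 + t, by omega, by omega, ?_⟩
    rw [← nod_getD_drop, List.getD_eq_getElem _ _ (by rw [List.length_drop]; omega), e]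
    exact h1
  · exact Or.inl h
  · right
    obtain ⟨P, hP, h1⟩ := List.mem_flatten.1 h
    obtain ⟨t, ht, e⟩ := List.mem_iff_getElem.1 hP
    rw [List.length_take] at ht
    refine ⟨t, by omega, by omega, ?_⟩
    rw [← nod_getD_take (n := i) (by omega), List.getD_eq_getElem _ _ (by rw [List.length_take]; omega), e]
    exact h1

theorem nod_two {l : Ord} {x y : ℕ} (hx : x ∈ l) (hy : y ∈ l) (hxy : x ≠ y) : 2 ≤ l.length := by
  rcases l with _ | ⟨a, _ | ⟨b, l⟩⟩
  · exact absurd hx List.not_mem_nil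
  · rw [List.mem_singleton] at hx hy
    exact absurd (hx.trans hy.symm) hxy
  · rw [List.length_cons, List.length_cons]
    omega

theorem nod_f2r {R : Ord → Ord → Prop} {l l' : List Ord} (h : List.Forall₂ R l l') {Q : Ord} (hQ : Q ∈ l') : ∃ X ∈ l, R X Q := by
  induction h with
  | nil => exact absurd hQ List.not_mem_nil
  | @cons a b l l' h1 _ ih =>
    rcases List.mem_cons.1 hQ with h2 | h2
    · exact ⟨a, List.mem_cons_self, by rw [h2]; exact h1⟩
    · obtain ⟨X, hX, h3⟩ := ih h2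
      exact ⟨X, List.mem_cons_of_mem _ hX, h3⟩

theorem nod_f2l {R : Ord → Ord → Prop} {l l' : List Ord} (h : List.Forall₂ R l l') {X : Ord} (hX : X ∈ l) : ∃ Q ∈ l', R X Q := by
  induction h with
  | nil => exact absurd hX List.not_mem_nil
  | @cons a b l l' h1 _ ih =>
    rcases List.mem_cons.1 hX with h2 | h2
    · exact ⟨b, List.mem_cons_self, by rw [h2]; exact h1⟩
    · obtain ⟨Q, hQ, h3⟩ := ih h2
      exact ⟨Q, List.mem_cons_of_mem _ hQ, h3⟩

section cv
variable {M M' : Mat} {P X Q : Ord} {Xs Zs : List Ord}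

/-- `Q` stands for `X`, seen from `P` -/
def nodCv (M M' : Mat) (P X Q : Ord) : Prop :=
  Bic (gN M) P X ∧ (∀ q ∈ Q, Atd (gN M') P q → q ∈ X) ∧ ∀ v ∈ X, Atd (gN M) P v → ∃ q ∈ Q, q ∈ X ∧ SR (gN M) P v q

theorem nod_row_congr {x : ℕ} (hx : x < M.length) (hP : ∀ a ∈ P, a < M.length)
    (ha : ∀ a < M.length, ∀ b < M.length, adjB M' a b = adjB M a b) : rowB M' P x = rowB M P x := by
  unfold rowB
  exact List.map_congr_left fun a h1 => ha x hx a (hP a h1)

theorem nod_att_congr {x : ℕ} (hx : x < M.length) (hP : ∀ a ∈ P, a < M.length)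
    (ha : ∀ a < M.length, ∀ b < M.length, adjB M' a b = adjB M a b) : attB M' P x = attB M P x := by
  rw [Bool.eq_iff_iff, nod_att, nod_att]
  constructor
  · rintro ⟨z, hz, h1⟩
    exact ⟨z, hz, (ha x hx z (hP z hz)).symm.trans h1⟩
  · rintro ⟨z, hz, h1⟩
    exact ⟨z, hz, (ha x hx z (hP z hz)).trans h1⟩

theorem nod_atd_congr {x : ℕ} (hx : x < M.length) (hP : ∀ a ∈ P, a < M.length)
    (ha : ∀ a < M.length, ∀ b < M.length, adjB M' a b = adjB M a b) : Atd (gN M') P x ↔ Atd (gN M) P x := by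
  rw [← nod_att, ← nod_att, nod_att_congr hx hP ha]

theorem nod_sr_congr {x y : ℕ} (hx : x < M.length) (hy : y < M.length) (hP : ∀ a ∈ P, a < M.length)
    (ha : ∀ a < M.length, ∀ b < M.length, adjB M' a b = adjB M a b) : SR (gN M') P x y ↔ SR (gN M) P x y := by
  rw [← nod_row, ← nod_row, nod_row_congr hx hP ha, nod_row_congr hy hP ha]

theorem nod_atp_congr (hX : ∀ a ∈ X, a < M.length) (hP : ∀ a ∈ P, a < M.length)
    (ha : ∀ a < M.length, ∀ b < M.length, adjB M' a b = adjB M a b) : atp M' P X = atp M P X := by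
  unfold atp
  rw [List.filter_congr fun x h1 => nod_att_congr (hX x h1) hP ha]

theorem nod_rep1_congr (hX : ∀ a ∈ X, a < M.length) (hP : ∀ a ∈ P, a < M.length)
    (ha : ∀ a < M.length, ∀ b < M.length, adjB M' a b = adjB M a b) : rep1 M' P X = rep1 M P X := by
  unfold rep1
  congr 2
  refine List.filter_congr ?_
  rintro ⟨a, b⟩ hp
  have h1 := List.of_mem_zip hp
  rw [nod_row_congr (hX a h1.1) hP ha, nod_row_congr (hX b (List.mem_of_mem_tail h1.2)) hP ha]

theorem nod_repP_congr (hX : ∀ X ∈ Xs, ∀ a ∈ X, a < M.length) (hP : ∀ a ∈ P, a < M.length)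
    (ha : ∀ a < M.length, ∀ b < M.length, adjB M' a b = adjB M a b) : repP M' P Xs = repP M P Xs := by
  have e : Xs.flatMap (atp M' P) = Xs.flatMap (atp M P) := by
    rw [List.flatMap_def, List.flatMap_def]
    congr 1
    exact List.map_congr_left fun X h1 => nod_atp_congr (hX X h1) hP ha
  unfold repP
  rw [e]
  refine nod_rep1_congr ?_ hP ha
  intro a h1
  obtain ⟨X, h2, h3⟩ := List.mem_flatMap.1 h1
  exact hX X h2 a (List.mem_filter.1 (List.mem_of_mem_take h3)).1

theorem nod_bic_congr (h : nodCv M M' P X Q) (hX : ∀ a ∈ X, a < M.length) (hP : ∀ a ∈ P, a < M.length)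
    (ha : ∀ a < M.length, ∀ b < M.length, adjB M' a b = adjB M a b) : Bic (gN M') P Q := by
  intro a h1 a' h2 b h3 b' h4 h5 h6
  have h7 := h.2.1 b h3 ⟨a, h1, h5.symm⟩
  have h8 := h.2.1 b' h4 ⟨a', h2, h6.symm⟩
  exact (ha a (hP a h1) b' (hX b' h8)).trans (h.1 a h1 a' h2 b h7 b' h8
    ((ha a (hP a h1) b (hX b h7)).symm.trans h5) ((ha a' (hP a' h2) b' (hX b' h8)).symm.trans h6))

theorem nod_atp_nil : atp M P X = [] ↔ ∀ x ∈ X, attB M P x = false := by
  unfold atp
  rw [List.take_eq_nil_iff, List.filter_eq_nil_iff]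
  simp

theorem nod_atp_one (h : ∃ x ∈ X, attB M P x = true) : ∃ x ∈ X, attB M P x = true ∧ atp M P X = [x] := by
  obtain ⟨y, hy, h1⟩ := h
  have h2 : y ∈ X.filter (attB M P) := List.mem_filter.2 ⟨hy, h1⟩
  obtain ⟨x, l, e⟩ := List.exists_cons_of_ne_nil (List.ne_nil_of_mem h2)
  have h3 : x ∈ X.filter (attB M P) := by rw [e]; exact List.mem_cons_self
  refine ⟨x, (List.mem_filter.1 h3).1, (List.mem_filter.1 h3).2, ?_⟩
  unfold atp
  rw [e]
  rfl

theorem nod_rows (h : nodCv M M' P X Q) (hX : ∀ a ∈ X, a < M.length) (hP : ∀ a ∈ P, a < M.length)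
    (ha : ∀ a < M.length, ∀ b < M.length, adjB M' a b = adjB M a b) :
    (atp M' P Q).map (rowB M' P) = (atp M' P X).map (rowB M' P) := by
  by_cases he : ∃ x ∈ X, attB M' P x = true
  · obtain ⟨x, hx, h1, e1⟩ := nod_atp_one he
    have ax : Atd (gN M) P x := (nod_atd_congr (hX x hx) hP ha).1 (nod_att.1 h1)
    obtain ⟨q, hq, hqX, h2⟩ := h.2.2 x hx ax
    have aq : attB M' P q = true := nod_att.2 ((nod_atd_congr (hX q hqX) hP ha).2 (ax.of_SR h2))
    obtain ⟨y, hy, h3, e3⟩ := nod_atp_one ⟨q, hq, aq⟩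
    have hyX := h.2.1 y hy (nod_att.1 h3)
    rw [e1, e3, List.map_singleton, List.map_singleton, nod_row_congr (hX y hyX) hP ha, nod_row_congr (hX x hx) hP ha]
    have h4 := nod_bicR h.1 hyX hx ((nod_atd_congr (hX y hyX) hP ha).1 (nod_att.1 h3)) ax
    rw [nod_row.2 h4]
  · have e1 : atp M' P X = [] := nod_atp_nil.2 fun x hx => by
      by_contra h1
      exact he ⟨x, hx, by simpa using h1⟩
    have e2 : atp M' P Q = [] := nod_atp_nil.2 fun x hx => by
      by_contra h1
      have h2 : attB M' P x = true := by simpa using h1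
      exact he ⟨x, h.2.1 x hx (nod_att.1 h2), h2⟩
    rw [e1, e2]

theorem nod_cv_hm (h : List.Forall₂ (nodCv M M' P) Xs Zs) {y : ℕ} (hy : y ∈ Zs.flatten) (ay : Atd (gN M') P y) : y ∈ Xs.flatten := by
  obtain ⟨Q, hQ, h1⟩ := List.mem_flatten.1 hy
  obtain ⟨X, hX, h2⟩ := nod_f2r h hQ
  exact List.mem_flatten.2 ⟨X, hX, h2.2.1 y h1 ay⟩

theorem nod_cv_hc (h : List.Forall₂ (nodCv M M' P) Xs Zs) {y : ℕ} (hy : y ∈ Xs.flatten) (ay : Atd (gN M) P y) :
    ∃ q ∈ Zs.flatten, q ∈ Xs.flatten ∧ SR (gN M) P y q := by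
  obtain ⟨X, hX, h1⟩ := List.mem_flatten.1 hy
  obtain ⟨Q, hQ, h2⟩ := nod_f2l h hX
  obtain ⟨q, hq, h3, h4⟩ := h2.2.2 y h1 ay
  exact ⟨q, List.mem_flatten.2 ⟨Q, hQ, hq⟩, List.mem_flatten.2 ⟨X, hX, h3⟩, h4⟩

/-- rows of members of `P` on the new lists and on the old lists -/
theorem nod_cv_sr (h : List.Forall₂ (nodCv M M' P) Xs Zs) (hX : ∀ a ∈ Xs.flatten, a < M.length) (hP : ∀ a ∈ P, a < M.length)
    (ha : ∀ a < M.length, ∀ b < M.length, adjB M' a b = adjB M a b) {x y : ℕ} (hx : x ∈ P) (hy : y ∈ P) :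
    SR (gN M') Zs.flatten x y ↔ SR (gN M) Xs.flatten x y := by
  have key : ∀ {u v : ℕ}, u ∈ P → v ∈ P → SR (gN M') Zs.flatten u v → ∀ z ∈ Xs.flatten, (gN M).Adj u z → (gN M).Adj v z := by
    intro u v hu hv h1 z hz h2
    obtain ⟨q, hq, hqX, h3⟩ := nod_cv_hc h hz ⟨u, hu, h2.symm⟩
    have h4 : (gN M).Adj u q := ((h3 u hu).1 h2.symm).symm
    have h5 : (gN M').Adj u q := (ha u (hP u hu) q (hX q hqX)).trans h4
    have h6 : (gN M').Adj v q := (h1 q hq).1 h5
    have h7 : (gN M).Adj v q := (ha v (hP v hv) q (hX q hqX)).symm.trans h6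
    exact ((h3 v hv).2 h7.symm).symm
  have key' : ∀ {u v : ℕ}, u ∈ P → v ∈ P → SR (gN M) Xs.flatten u v → ∀ z ∈ Zs.flatten, (gN M').Adj u z → (gN M').Adj v z := by
    intro u v hu hv h1 z hz h2
    have hzX := nod_cv_hm h hz ⟨u, hu, h2.symm⟩
    have h3 : (gN M).Adj u z := (ha u (hP u hu) z (hX z hzX)).symm.trans h2
    exact (ha v (hP v hv) z (hX z hzX)).trans ((h1 z hzX).1 h3)
  constructor
  · intro h1 z hz
    exact ⟨key hx hy h1 z hz, key hy hx (SR.symm h1) z hz⟩
  · intro h1 z hz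
    exact ⟨key' hx hy h1 z hz, key' hy hx (SR.symm h1) z hz⟩

theorem nod_cv_atd (h : List.Forall₂ (nodCv M M' P) Xs Zs) (hX : ∀ a ∈ Xs.flatten, a < M.length) (hP : ∀ a ∈ P, a < M.length)
    (ha : ∀ a < M.length, ∀ b < M.length, adjB M' a b = adjB M a b) {x : ℕ} (hx : x ∈ P) :
    Atd (gN M') Zs.flatten x ↔ Atd (gN M) Xs.flatten x := by
  constructor
  · rintro ⟨z, hz, h2⟩
    have hzX := nod_cv_hm h hz ⟨x, hx, h2.symm⟩
    exact ⟨z, hzX, (ha x (hP x hx) z (hX z hzX)).symm.trans h2⟩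
  · rintro ⟨z, hz, h2⟩
    obtain ⟨q, hq, hqX, h3⟩ := nod_cv_hc h hz ⟨x, hx, h2.symm⟩
    exact ⟨q, hq, (ha x (hP x hx) q (hX q hqX)).trans ((h3 x hx).1 h2.symm).symm⟩

end cv

section nds
variable {M : Mat} {Ps : List Ord} {O : Ord}

theorem nod_split {j : ℕ} (hj : j < Ps.length) : Ps = Ps.take j ++ Ps.getD j [] :: Ps.drop (j + 1) := by
  rw [List.getD_eq_getElem _ _ hj, List.cons_getElem_drop_succ]
  exact (List.take_append_drop j Ps).symm

theorem nod_st (h : NdS M Ps O) {j : ℕ} (hj : j < Ps.length) (h2 : 2 ≤ (Ps.getD j []).length) :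
    StL (gN M) (Ps.getD j []) ((Ps.drop (j + 1)).flatten ++ (O ++ (Ps.take j).flatten)) :=
  h.st _ _ _ (nod_split hj) h2

theorem nod_con (h : NdS M Ps O) {j : ℕ} (hj : j < Ps.length) :
    ∃ y ∈ (Ps.drop (j + 1)).flatten ++ (O ++ (Ps.take j).flatten), attB M (Ps.getD j []) y = true :=
  h.con _ _ _ (nod_split hj)

theorem nod_lt (h : NdS M Ps O) {v : ℕ} (hv : v ∈ Ps.flatten ++ O) : v < M.length :=
  List.mem_range.1 (h.perm.mem_iff.1 hv)

theorem nod_nd (h : NdS M Ps O) : (Ps.flatten ++ O).Nodup := h.perm.nodup_iff.2 List.nodup_range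

theorem nod_ltP (h : NdS M Ps O) {j : ℕ} (hj : j < Ps.length) {v : ℕ} (hv : v ∈ Ps.getD j []) : v < M.length :=
  nod_lt h (List.mem_append_left _ (List.mem_flatten.2 ⟨_, nod_getD_mem hj, hv⟩))

theorem nod_ltO (h : NdS M Ps O) {v : ℕ} (hv : v ∈ O) : v < M.length := nod_lt h (List.mem_append_right _ hv)

theorem nod_ltR (h : NdS M Ps O) {j : ℕ} {v : ℕ} (hv : v ∈ (Ps.drop (j + 1)).flatten ++ (O ++ (Ps.take j).flatten)) :
    v < M.length := by
  rcases nod_of_rest hv with h1 | ⟨i, hi, _, h1⟩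
  · exact nod_ltO h h1
  · exact nod_ltP h hi h1

theorem nod_dj (h : NdS M Ps O) {j : ℕ} (hj : j < Ps.length) {v : ℕ} (hv : v ∈ Ps.getD j []) (hO : v ∈ O) : False :=
  (List.nodup_append.1 (nod_nd h)).2.2 v (List.mem_flatten.2 ⟨_, nod_getD_mem hj, hv⟩) v hO rfl

theorem nod_bic (h : NdS M Ps O) {i j : ℕ} (hi : i < Ps.length) (hj : j < Ps.length) (hij : i ≠ j) :
    Bic (gN M) (Ps.getD i []) (Ps.getD j []) := by
  have h1 := (List.pairwise_cons.1 h.bic).2
  rw [List.pairwise_iff_getElem] at h1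
  rw [List.getD_eq_getElem _ _ hi, List.getD_eq_getElem _ _ hj]
  rcases lt_or_gt_of_ne hij with h2 | h2
  · exact h1 i j hi hj h2
  · exact nod_bicS (h1 j i hj hi h2)

theorem nod_bicO (h : NdS M Ps O) {j : ℕ} (hj : j < Ps.length) : Bic (gN M) (Ps.getD j []) O :=
  nod_bicS ((List.pairwise_cons.1 h.bic).1 _ (nod_getD_mem hj))

/-- the context represents the rest -/
theorem nod_ctx (h : NdS M Ps O) {j : ℕ} (hj : j < Ps.length) :
    (∀ x ∈ Ps.getD j [], (Atd (gN M) ((Ps.drop (j + 1)).flatten ++ (O ++ (Ps.take j).flatten)) x ↔ Atd (gN M) (ctxB M Ps O j) x)) ∧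
      ∀ x ∈ Ps.getD j [], ∀ y ∈ Ps.getD j [],
        (SR (gN M) ((Ps.drop (j + 1)).flatten ++ (O ++ (Ps.take j).flatten)) x y ↔ SR (gN M) (ctxB M Ps O j) x y) := by
  obtain ⟨sR, e, h0⟩ := ctx_rp h (List.forall₂_same.2 fun P _ => List.Perm.refl P) (List.Perm.refl O) hj
  have h1 := rpB_of_sd h0 e
  refine ⟨fun x hx => ⟨fun ax => ?_, fun ax => nod_atd_sub ax h1.sub⟩, fun x hx y hy => ⟨fun hs => nod_sr_sub hs h1.sub, fun hs => ?_⟩⟩
  · obtain ⟨b, hb, h2⟩ := h1.att x hx ax
    exact ⟨b, hb, h2⟩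
  · exact h1.row x hx y hy hs

end nds

/-- the hypotheses for the rest of the proof -/
structure Hyn (M : Mat) (Ps : List Ord) (O : Ord) (Cs : List (List Ord)) (R : Ord) (φ : ℕ → Bool) (k : Ky) : Prop where
  nds : NdS M Ps O
  six : 6 ≤ Ps.length
  ent : ∀ j < Ps.length, (entE M Ps O Cs j).Perm (Ps.getD j [])
  perm : R.Perm O
  val : Val (gN M) (outF M Ps O Cs φ ++ R)
  key : KeyR M (outF M Ps O Cs φ) R k

variable {Ps : List Ord} {Cs : List (List Ord)} {φ : ℕ → Bool} {k : Ky}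

theorem ordE_perm (h : Hyn M Ps O Cs R φ k) {j : ℕ} (hj : j < Ps.length) (u : Bool) : (ordE M Ps O Cs j u).Perm (Ps.getD j []) := by
  unfold ordE
  split
  · exact (List.reverse_perm _).trans (h.ent j hj)
  · exact h.ent j hj

/-- the members of the old vertices have the same adjacency in the matrix of the key; the new vertex is adjacent to members of the context only. PROOF. mB is M or ext M B; SOK.adjB_ext, adjB_ext_n. -/
theorem mB_adj (h : Hyn M Ps O Cs R φ k) {a b : ℕ} (ha : a < M.length) (hb : b < M.length) : adjB (mB M k) a b = adjB M a b := by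
  unfold mB
  split
  · rfl
  · exact adjB_ext ha hb

theorem zB_mem (h : Hyn M Ps O Cs R φ k) {z : ℕ} (hz : z ∈ zB M k) : z ∈ k.2.1 ∨ (z = M.length ∧ k.1 ≠ 0) := by
  unfold zB at hz
  split at hz
  · exact Or.inl hz
  · rename_i h0
    split at hz
    · rcases List.mem_cons.1 hz with h1 | h1
      · exact Or.inr ⟨h1, h0⟩
      · exact Or.inl h1
    · rcases List.mem_append.1 hz with h1 | h1
      · exact Or.inl h1
      · exact Or.inr ⟨List.mem_singleton.1 h1, h0⟩

theorem nod_sub_zB {M : Mat} {k : Ky} {z : ℕ} (hz : z ∈ k.2.1) : z ∈ zB M k := by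
  unfold zB
  split
  · exact hz
  · split
    · exact List.mem_cons_of_mem _ hz
    · exact List.mem_append_left _ hz

/-- PROOF. z ∈ zB: z in k.2.1 (so in R) or z = M.length, adjacent only to members of k.2.1 ⊆ R. -/
theorem zB_att (h : Hyn M Ps O Cs R φ k) {j : ℕ} (hj : j < Ps.length) {z : ℕ} (hz : z ∈ zB M k) (ha : Atd (gN (mB M k)) (Ps.getD j []) z) :
    z ∈ k.2.1 := by
  rcases zB_mem h hz with h1 | ⟨h1, h0⟩
  · exact h1
  · exfalso
    obtain ⟨w, hw, h2⟩ := ha
    have h3 : adjB (mB M k) z w = true := h2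
    unfold mB at h3
    rw [if_neg h0, h1, adjB_ext_n (nod_ltP h.nds hj hw), decide_eq_true_eq] at h3
    exact nod_dj h.nds hj hw (h.perm.mem_iff.1 (h.key.sub w h3))

/-- a flippable child has two representatives with different rows which represent both classes. PROOF. entB: the context has length 3, wordB of the entry has two letters. entW.map (rowB M B) = wordB (rep1_map), so entW = [x, y]; rpl_rep1: they represent the blocks of the entry E for the rest Y; all attached members of E have the row of x or of y (Sd: every attached member is in a segment).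
The context B represents Y (ctx_rp with Qs := the orders of outF) so rows on B and on Y are the same (rpB_of_sd). -/
theorem entW_pair (h : Hyn M Ps O Cs R φ k) {j : ℕ} (hj : j < Ps.length) (hb : entB M Ps O Cs j = true) :
    ∃ x y, entW M Ps O Cs j = [x, y] ∧ x ∈ Ps.getD j [] ∧ y ∈ Ps.getD j [] ∧ x ≠ y ∧ adjB M x y = true ∧
      RpL (gN M) ((Ps.drop (j + 1)).flatten ++ (O ++ (Ps.take j).flatten)) (entE M Ps O Cs j) [x, y] ∧
      ∀ v ∈ Ps.getD j [], Atd (gN M) ((Ps.drop (j + 1)).flatten ++ (O ++ (Ps.take j).flatten)) v →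
        SR (gN M) ((Ps.drop (j + 1)).flatten ++ (O ++ (Ps.take j).flatten)) v x ∨
          SR (gN M) ((Ps.drop (j + 1)).flatten ++ (O ++ (Ps.take j).flatten)) v y := by
  have hp := h.ent j hj
  have hb' := hb
  unfold entB flg at hb'
  rw [Bool.and_eq_true, decide_eq_true_eq, decide_eq_true_eq] at hb'
  have hl : (wordB M (ctxB M Ps O j) (entE M Ps O Cs j)).length = 2 := hb'.2
  have e1 : (entW M Ps O Cs j).map (rowB M (ctxB M Ps O j)) = wordB M (ctxB M Ps O j) (entE M Ps O Cs j) :=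
    rep1_map M (ctxB M Ps O j) _
  have hl2 : (entW M Ps O Cs j).length = 2 := by
    rw [← e1, List.length_map] at hl
    exact hl
  obtain ⟨x, y, e⟩ := List.length_eq_two.1 hl2
  have hE : ∀ v, v ∈ entE M Ps O Cs j ↔ v ∈ Ps.getD j [] := fun v => hp.mem_iff
  have hnd : (entE M Ps O Cs j).Nodup := by
    refine hp.nodup_iff.2 ?_
    have h1 := (List.nodup_append.1 (nod_nd h.nds)).1
    exact (List.nodup_flatten.1 h1).1 _ (nod_getD_mem hj)
  have he : ∃ v ∈ entE M Ps O Cs j, attB M (ctxB M Ps O j) v = true := by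
    by_contra h1
    have h2 : (entE M Ps O Cs j).filter (attB M (ctxB M Ps O j)) = [] := by
      rw [List.filter_eq_nil_iff]
      intro v hv h3
      exact h1 ⟨v, hv, h3⟩
    have h3 : entW M Ps O Cs j = [] := by
      unfold entW
      rw [h2]
      rfl
    rw [h3] at hl2
    exact absurd hl2 (by simp)
  have h1 : RpL (gN M) (ctxB M Ps O j) (entE M Ps O Cs j) (entW M Ps O Cs j) := rpl_rep1 hnd he
  obtain ⟨c1, c2⟩ := nod_ctx h.nds hj
  have h2 : RpL (gN M) ((Ps.drop (j + 1)).flatten ++ (O ++ (Ps.take j).flatten)) (entE M Ps O Cs j) (entW M Ps O Cs j) :=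
    nod_rpl h1 (fun v hv => c1 v ((hE v).1 hv)) fun v hv w hw => c2 v ((hE v).1 hv) w ((hE w).1 hw)
  rw [e] at h2
  obtain ⟨segs, e2, hS⟩ := h2
  have r0 := hS.rep (i := 0) (b := x) rfl
  have r1 := hS.rep (i := 1) (b := y) rfl
  have hm := hS.mx (i := 0) (b := x) (c := y) rfl rfl
  have hx : x ∈ Ps.getD j [] := (hE x).1 (by rw [← e2]; exact inS_mem r0.1)
  have hy : y ∈ Ps.getD j [] := (hE y).1 (by rw [← e2]; exact inS_mem r1.1)
  have hxy : x ≠ y := by
    rintro rfl
    exact hm (nod_srr _)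
  refine ⟨x, y, e, hx, hy, hxy, epl_adj (nod_st h.nds hj (nod_two hx hy hxy)).ep hx hy r0.2 r1.2 hm, ⟨segs, e2, hS⟩, ?_⟩
  intro v hv av
  have h3 : v ∈ segs.flatten := by rw [e2]; exact (hE v).2 hv
  obtain ⟨i, hi⟩ := inS_ex h3
  obtain ⟨b, g1, g2, g3⟩ := hS.ex hi
  have h4 := hS.same hi g2 av g3
  have h5 := List.mem_of_getElem? g1
  rcases List.mem_cons.1 h5 with h6 | h6
  · left
    rw [← h6]
    exact h4
  · right
    rw [← List.mem_singleton.1 h6]
    exact h4

theorem nod_cst_lt {M : Mat} {Ps : List Ord} {O : Ord} {Cs : List (List Ord)} {Z : Ord} {i : ℕ} (hi : i < Ps.length) {u : Bool} :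
    cst (cells M Ps O Cs Z) i u = if u then (cel M Ps O Cs i).2 else (cel M Ps O Cs i).1 := by
  have h1 : i < ((List.range Ps.length).map (cel M Ps O Cs)).length := by
    rw [List.length_map, List.length_range]
    exact hi
  have e : (cells M Ps O Cs Z).getD i ([], []) = cel M Ps O Cs i := by
    unfold cells
    rw [List.getD_append _ _ _ _ h1, List.getD_eq_getElem _ _ h1, List.getElem_map, List.getElem_range]
  unfold cst
  rw [e]

theorem nod_cst_len {M : Mat} {Ps : List Ord} {O : Ord} {Cs : List (List Ord)} {Z : Ord} {u : Bool} :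
    cst (cells M Ps O Cs Z) Ps.length u = Z := by
  have h1 : ((List.range Ps.length).map (cel M Ps O Cs)).length = Ps.length := by
    rw [List.length_map, List.length_range]
  have e : (cells M Ps O Cs Z).getD Ps.length ([], []) = (Z, Z) := by
    unfold cells
    rw [List.getD_append_right _ _ _ _ (by rw [h1]), h1, Nat.sub_self, List.getD_cons_zero]
  unfold cst
  rw [e, ite_self]

/-- the lists which stand for the part number i (i = Ps.length is the context): members, and every attached member of the part has a representative with the same row -/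
def CvL (M : Mat) (Ps : List Ord) (O : Ord) (k : Ky) (i : ℕ) (Q : Ord) : Prop :=
  if i < Ps.length then (∀ q ∈ Q, q ∈ Ps.getD i []) ∧ ∀ v ∈ Ps.getD i [],
      Atd (gN M) ((Ps.drop (i + 1)).flatten ++ (O ++ (Ps.take i).flatten)) v →
        ∃ q ∈ Q, SR (gN M) ((Ps.drop (i + 1)).flatten ++ (O ++ (Ps.take i).flatten)) v q
  else Q = zB M k

/-- PROOF. Not flippable: the cell is (E, E), E.Perm Ps[i]. Flippable: entW_pair. -/
theorem cov_cel (h : Hyn M Ps O Cs R φ k) (i : ℕ) (hi : i ≤ Ps.length) (u : Bool) : CvL M Ps O k i (cst (cells M Ps O Cs (zB M k)) i u) := by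
  unfold CvL
  split
  · rename_i h1
    rw [nod_cst_lt h1]
    unfold cel
    by_cases hb : entB M Ps O Cs i = true
    · rw [if_pos hb]
      obtain ⟨x, y, e, hx, hy, _, _, _, hv⟩ := entW_pair h h1 hb
      rw [e]
      have hm : ∀ q, (q ∈ (if u then (([x, y], [x, y].reverse) : Cell).2 else (([x, y], [x, y].reverse) : Cell).1)) ↔ (q = x ∨ q = y) := by
        intro q
        cases u
        · simp
        · simp [or_comm]
      refine ⟨fun q hq => ?_, fun v h2 av => ?_⟩
      · rcases (hm q).1 hq with h3 | h3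
        · rw [h3]
          exact hx
        · rw [h3]
          exact hy
      · rcases hv v h2 av with h3 | h3
        · exact ⟨x, (hm x).2 (Or.inl rfl), h3⟩
        · exact ⟨y, (hm y).2 (Or.inr rfl), h3⟩
    · rw [if_neg hb]
      have hm : ∀ q, (q ∈ (if u then ((entE M Ps O Cs i, entE M Ps O Cs i) : Cell).2 else ((entE M Ps O Cs i, entE M Ps O Cs i) : Cell).1)) ↔
          q ∈ Ps.getD i [] := by
        intro q
        rw [ite_self]
        exact (h.ent i h1).mem_iff
      exact ⟨fun q hq => (hm q).1 hq, fun v h2 _ => ⟨v, (hm v).2 h2, nod_srr v⟩⟩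
  · rename_i h1
    have e : i = Ps.length := by omega
    rw [e, nod_cst_len]

theorem cov_ordE (h : Hyn M Ps O Cs R φ k) (i : ℕ) (hi : i < Ps.length) (u : Bool) : CvL M Ps O k i (ordE M Ps O Cs i u) := by
  unfold CvL
  rw [if_pos hi]
  have hm : ∀ q, q ∈ ordE M Ps O Cs i u ↔ q ∈ Ps.getD i [] := fun q => (ordE_perm h hi u).mem_iff
  exact ⟨fun q hq => (hm q).1 hq, fun v h2 _ => ⟨v, (hm v).2 h2, nod_srr v⟩⟩

theorem nod_mem_outF (h : Hyn M Ps O Cs R φ k) {j : ℕ} (hj : j < Ps.length) {v : ℕ} (hv : v ∈ Ps.getD j []) (f : ℕ → Bool) :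
    v ∈ outF M Ps O Cs f :=
  List.mem_flatMap.2 ⟨j, List.mem_range.2 hj, (ordE_perm h hj _).mem_iff.2 hv⟩

/-- the lists seen from the part number `j` -/
theorem nod_cv (h : Hyn M Ps O Cs R φ k) {j : ℕ} (hj : j < Ps.length) {i : ℕ} (hi : i ≤ Ps.length) (hij : i ≠ j) {Q : Ord}
    (hQ : CvL M Ps O k i Q) : nodCv M (mB M k) (Ps.getD j []) ((Ps ++ [O]).getD i []) Q := by
  unfold CvL at hQ
  split at hQ
  · rename_i h1
    rw [List.getD_append _ _ _ _ h1]
    have hsub : ∀ s ∈ Ps.getD j [], s ∈ (Ps.drop (i + 1)).flatten ++ (O ++ (Ps.take i).flatten) :=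
      fun s hs => nod_mem_rest hj (fun e => hij e.symm) hs
    refine ⟨nod_bic h.nds hj h1 fun e => hij e.symm, fun q hq _ => hQ.1 q hq, fun v hv av => ?_⟩
    obtain ⟨q, hq, h2⟩ := hQ.2 v hv (nod_atd_sub av hsub)
    exact ⟨q, hq, hQ.1 q hq, nod_sr_sub h2 hsub⟩
  · rename_i h1
    have e : i = Ps.length := by omega
    have e2 : (Ps ++ [O]).getD i [] = O := by
      rw [List.getD_append_right _ _ _ _ (by omega), e, Nat.sub_self, List.getD_cons_zero]
    rw [e2, hQ]
    refine ⟨nod_bicO h.nds hj, fun q hq aq => h.perm.mem_iff.1 (h.key.sub q (zB_att h hj hq aq)), fun v hv av => ?_⟩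
    have hsub : ∀ s ∈ Ps.getD j [], s ∈ outF M Ps O Cs φ := fun s hs => nod_mem_outF h hj hs φ
    obtain ⟨b, hb, h2⟩ := h.key.cov v (h.perm.mem_iff.2 hv) (nod_atd_sub av hsub)
    exact ⟨b, nod_sub_zB hb, h.perm.mem_iff.1 (h.key.sub b hb), nod_sr_sub h2 hsub⟩

theorem nod_cv_all (h : Hyn M Ps O Cs R φ k) {j : ℕ} (hj : j < Ps.length) {Qs : List Ord}
    (hl : Qs.length = Ps.length + 1) (hQ : ∀ i ≤ Ps.length, i ≠ j → CvL M Ps O k i (Qs.getD i [])) :
    List.Forall₂ (nodCv M (mB M k) (Ps.getD j [])) (Ps.drop (j + 1) ++ O :: Ps.take j) (Qs.drop (j + 1) ++ Qs.take j) := by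
  have h1 := nod_f2cyc (R := nodCv M (mB M k) (Ps.getD j [])) (l := Ps ++ [O]) (l' := Qs) (j := j)
    (by rw [List.length_append, List.length_singleton, hl]) (by rw [List.length_append]; omega)
    (fun i hi hij => by
      rw [List.length_append, List.length_singleton] at hi
      exact nod_cv h hj (by omega) hij (hQ i (by omega) hij))
  rw [List.drop_append_of_le_length (by omega), List.take_append_of_le_length (by omega), List.append_assoc,
    List.singleton_append] at h1
  exact h1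

/-- MAIN LEMMA: the blocks of the rest, for lists Qs 0, .., Qs m (m = Ps.length) which stand for the parts. Y := the lists after j in cyclic order. PROOF. M' := mB M k, P := Ps[j]. EpL, StL: from h.nds.st (A := Ps.take j, D := Ps.drop (j + 1)), epl_sub / stl_sub: a member of Y attached to P is in a part or in k.2.1 ⊆ R, so in the rest; hc: y in the rest attached to P is in a part i ≠ j: CvL gives q ∈ Qs i with the same row on the rest of i, which contains P; or y ∈ O: h.key.cov gives b ∈ k.2.1 with the same row on the whole node, so on P. (2 ≤ P.length.)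
RpL: rest_rp with Xs = the lists Qs themselves (atp members are in the list; atp = [] means that no member is attached), Bic (gN M') P Q from h.nds.bic. Number of blocks: rep_rows: (repP M' P (lists)).map (rowB M' P) = (ctxB M Ps O j).map (rowB M P): for each part: atp M' P (Qs i) is empty iff atp M P Ps[i] is empty (CvL), and the rows on P agree (Bic: all attached members of a part have the same row on P). -/
theorem rest_main (h : Hyn M Ps O Cs R φ k) {j : ℕ} (hj : j < Ps.length) (h2 : 2 ≤ (Ps.getD j []).length) {Qs : List Ord}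
    (hl : Qs.length = Ps.length + 1) (hQ : ∀ i ≤ Ps.length, i ≠ j → CvL M Ps O k i (Qs.getD i []))
    (hn : ((Ps.getD j []) ++ ((Qs.drop (j + 1)).flatten ++ (Qs.take j).flatten)).Nodup) :
    StL (gN (mB M k)) (Ps.getD j []) ((Qs.drop (j + 1)).flatten ++ (Qs.take j).flatten) ∧
    RpL (gN (mB M k)) (Ps.getD j []) ((Qs.drop (j + 1)).flatten ++ (Qs.take j).flatten) (repP (mB M k) (Ps.getD j []) (Qs.drop (j + 1) ++ Qs.take j)) ∧
    (repP (mB M k) (Ps.getD j []) (Qs.drop (j + 1) ++ Qs.take j)).length = (ctxB M Ps O j).length := by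
  have F := nod_cv_all h hj hl hQ
  have e : ∀ l : List Ord, (l.drop (j + 1)).flatten ++ (l.take j).flatten = (l.drop (j + 1) ++ l.take j).flatten :=
    fun l => List.flatten_append.symm
  have e1 : (Ps.drop (j + 1) ++ O :: Ps.take j).flatten = (Ps.drop (j + 1)).flatten ++ (O ++ (Ps.take j).flatten) := by
    rw [List.flatten_append, List.flatten_cons]
  have hP : ∀ a ∈ Ps.getD j [], a < M.length := fun a ha => nod_ltP h.nds hj ha
  have hXf : ∀ a ∈ (Ps.drop (j + 1) ++ O :: Ps.take j).flatten, a < M.length := by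
    intro a ha
    rw [e1] at ha
    exact nod_ltR h.nds ha
  have hX : ∀ X ∈ Ps.drop (j + 1) ++ O :: Ps.take j, ∀ a ∈ X, a < M.length :=
    fun X h1 a h2 => hXf a (List.mem_flatten.2 ⟨X, h1, h2⟩)
  have ha : ∀ a < M.length, ∀ b < M.length, adjB (mB M k) a b = adjB M a b := fun a h1 b h2 => mB_adj h h1 h2
  rw [e] at hn ⊢
  have hst := nod_st h.nds hj h2
  rw [← e1] at hst
  refine ⟨?_, ?_, ?_⟩
  · refine stl_sub hst hn (fun y hy ay => nod_cv_hm F hy ay) ?_ (fun y hy ay => nod_cv_hc F hy ay)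
    intro a h3 b h4
    refine ha a ?_ b ?_
    · rcases List.mem_append.1 h3 with h5 | h5
      · exact hP a h5
      · exact hXf a h5
    · rcases List.mem_append.1 h4 with h5 | h5
      · exact hP b h5
      · exact hXf b h5
  · refine rest_rp (List.nodup_append.1 hn).2.1 ?_ ?_ ?_
    · intro Q hQm
      obtain ⟨X, hXm, h3⟩ := nod_f2r F hQm
      exact nod_bic_congr h3 (hX X hXm) hP ha
    · refine List.forall₂_same.2 fun X _ => ⟨fun x hx => ?_, fun hx => nod_atp_nil.1 hx⟩
      exact (List.mem_filter.1 (List.mem_of_mem_take hx)).1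
    · obtain ⟨y, hy, h3⟩ := nod_con h.nds hj
      rw [← e1] at hy
      obtain ⟨q, hq, hqX, h4⟩ := nod_cv_hc F hy (nod_att.1 h3)
      refine ⟨q, hq, nod_att.2 ((nod_atd_congr (hXf q hqX) hP ha).2 ((nod_att.1 h3).of_SR h4))⟩
  · have F2 : List.Forall₂ (fun X X' => (atp (mB M k) (Ps.getD j []) X).map (rowB (mB M k) (Ps.getD j [])) =
        (atp (mB M k) (Ps.getD j []) X').map (rowB (mB M k) (Ps.getD j []))) (Ps.drop (j + 1) ++ O :: Ps.take j)
        (Qs.drop (j + 1) ++ Qs.take j) := by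
      rw [List.forall₂_iff_get] at F ⊢
      refine ⟨F.1, fun i h3 h4 => ?_⟩
      exact (nod_rows (F.2 i h3 h4) (hX _ (List.get_mem _ _)) hP ha).symm
    have h3 := congrArg List.length (rep_rows F2)
    rw [List.length_map, List.length_map, nod_repP_congr hX hP ha] at h3
    exact h3.symm

end Pool.Agent.SON
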